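import Mathlib

/-!
Two counting lemmas: functions on `Fin k` whose coordinates are determined by the later ones up to few choices, and
sums of products of weights which depend on the initial segments.
-/

set_option autoImplicit false

namespace Pool.Agent.Helper68K9.SG

open Finset

/-- if the coordinate `i` of the elements of `S` takes at most `w i` values once the later ones are fixed then
`S` has at most `∏ w i` elements -/
theorem card_le_prod {β : Type} [DecidableEq β] : ∀ (k : ℕ) (S : Finset (Fin k → β)) (w : Fin k → ℕ),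
    (∀ i, ∀ g ∈ S, ∀ T : Finset β, (∀ x ∈ T, ∃ g' ∈ S, (∀ j, i < j → g' j = g j) ∧ g' i = x) → T.card ≤ w i) →
    S.card ≤ ∏ i, w i := by
  intro k
  induction k with
  | zero =>
    intro S w _
    rw [Fin.prod_univ_zero, card_le_one]
    intro a _ b _
    exact Subsingleton.elim _ _
  | succ k ih =>
    intro S w h
    set S' : Finset (Fin k → β) := S.image (fun g i => g i.succ) with hS'
    have h1 : S'.card ≤ ∏ i : Fin k, w i.succ := by
      refine ih S' (fun i => w i.succ) fun i g hg T hT => ?_
      obtain ⟨G, hG, rfl⟩ := mem_image.1 hg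
      refine h i.succ G hG T fun x hx => ?_
      obtain ⟨g', hg', h2, h3⟩ := hT x hx
      obtain ⟨G', hG', rfl⟩ := mem_image.1 hg'
      refine ⟨G', hG', fun j hj => ?_, h3⟩
      have hj0 : j ≠ 0 := by
        rintro rfl
        exact absurd hj (Fin.not_lt_zero _)
      obtain ⟨j', rfl⟩ := Fin.exists_succ_eq.2 hj0
      exact h2 j' (Fin.succ_lt_succ_iff.1 hj)
    have h2 : ∀ c ∈ S', (S.filter fun g => (fun i : Fin k => g i.succ) = c).card ≤ w 0 := by
      intro c hc
      obtain ⟨G, hG, rfl⟩ := mem_image.1 hc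
      rw [← card_image_of_injOn (f := fun g : Fin (k + 1) → β => g 0)]
      · refine h 0 G hG _ fun x hx => ?_
        obtain ⟨g', hg', rfl⟩ := mem_image.1 hx
        rw [mem_filter] at hg'
        refine ⟨g', hg'.1, fun j hj => ?_, rfl⟩
        obtain ⟨j', rfl⟩ := Fin.exists_succ_eq.2 (Fin.pos_iff_ne_zero.1 hj)
        exact congrFun hg'.2 j'
      · intro a ha b hb hab
        rw [mem_coe, mem_filter] at ha hb
        funext j
        rcases Fin.eq_zero_or_eq_succ j with rfl | ⟨j', rfl⟩
        · exact hab
        · exact congrFun (ha.2.trans hb.2.symm) j'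
    calc S.card ≤ w 0 * S'.card := card_le_mul_card_image S _ h2
      _ ≤ w 0 * ∏ i : Fin k, w i.succ := Nat.mul_le_mul_left _ h1
      _ = ∏ i, w i := (Fin.prod_univ_succ _).symm

/-- the initial segment -/
def ini {α : Type} {k : ℕ} (s : Fin k → α) (i : ℕ) (hi : i ≤ k) : Fin i → α := fun j => s (Fin.castLE hi j)

/-- sums of products of weights which depend on the initial segments -/
theorem sum_prefix {α : Type} [Fintype α] (b : ℕ) (ρ : (i : ℕ) → (Fin i → α) → α → ℕ)
    : ∀ k : ℕ, (∀ i < k, ∀ s, ∑ x, ρ i s x ≤ b) →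
    ∑ s : Fin k → α, ∏ i : Fin k, ρ i (ini s i i.2.le) (s i) ≤ b ^ k := by
  classical
  intro k
  induction k with
  | zero => intro _; simp
  | succ k ih =>
    intro h
    rw [← Equiv.sum_comp (Fin.snocEquiv fun _ : Fin (k + 1) => α), Fintype.sum_prod_type_right]
    have e : ∀ (s : Fin k → α) (x : α),
        ∏ i : Fin (k + 1), ρ i (ini (Fin.snocEquiv (fun _ : Fin (k + 1) => α) (x, s)) i i.2.le)
          (Fin.snocEquiv (fun _ : Fin (k + 1) => α) (x, s) i) =
        (∏ i : Fin k, ρ i (ini s i i.2.le) (s i)) * ρ k s x := by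
      intro s x
      rw [Fin.prod_univ_castSucc]
      congr 1
      · refine Finset.prod_congr rfl fun i _ => ?_
        have e1 : Fin.snocEquiv (fun _ : Fin (k + 1) => α) (x, s) i.castSucc = s i := by
          show Fin.snoc (α := fun _ => α) s x i.castSucc = s i
          rw [Fin.snoc_castSucc]
        have e2 : ini (Fin.snocEquiv (fun _ : Fin (k + 1) => α) (x, s)) (i.castSucc : ℕ) i.castSucc.2.le =
            ini s i i.2.le := by
          funext j
          show Fin.snoc (α := fun _ => α) s x (Fin.castLE _ j) = s (Fin.castLE _ j)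
          have e3 : (Fin.castLE i.castSucc.2.le j : Fin (k + 1)) = (Fin.castLE i.2.le j : Fin k).castSucc := rfl
          rw [e3, Fin.snoc_castSucc]
        rw [e1, e2]
        rfl
      · have e1 : Fin.snocEquiv (fun _ : Fin (k + 1) => α) (x, s) (Fin.last k) = x := by
          show Fin.snoc (α := fun _ => α) s x (Fin.last k) = x
          rw [Fin.snoc_last]
        have e2 : ini (Fin.snocEquiv (fun _ : Fin (k + 1) => α) (x, s)) (Fin.last k : ℕ) (Fin.last k).2.le = s := by
          funext j
          show Fin.snoc (α := fun _ => α) s x (Fin.castLE _ j) = s j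
          have e3 : (Fin.castLE (Fin.last k).2.le j : Fin (k + 1)) = Fin.castSucc j := rfl
          rw [e3, Fin.snoc_castSucc]
        rw [e1, e2]
        rfl
    simp only [e, ← mul_sum]
    calc ∑ s : Fin k → α, (∏ i : Fin k, ρ i (ini s i i.2.le) (s i)) * ∑ x, ρ k s x
        ≤ ∑ s : Fin k → α, (∏ i : Fin k, ρ i (ini s i i.2.le) (s i)) * b :=
          sum_le_sum fun s _ => Nat.mul_le_mul_left _ (h k (Nat.lt_succ_self k) s)
      _ = (∑ s : Fin k → α, ∏ i : Fin k, ρ i (ini s i i.2.le) (s i)) * b := by rw [sum_mul]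
      _ ≤ b ^ k * b := Nat.mul_le_mul_right _ (ih fun i hi => h i (hi.trans (Nat.lt_succ_self k)))
      _ = b ^ (k + 1) := (pow_succ _ _).symm

end Pool.Agent.Helper68K9.SG
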