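import Pool.Agent.Helper68K9.SG.Leb

/-!
The mean value estimate outside a small set of parameters.
-/

set_option autoImplicit false

namespace Pool.Agent.Helper68K9.SG

open Finset MeasureTheory ProbabilityTheory Matrix

theorem cont_fro {J ι : Type} [Fintype J] [Fintype ι] [DecidableEq J] (N a : ℕ) (c : J → ℝ) (σ : ι → ℝ)
    (s : J → ι → ℤ) : Continuous fun θ : ι → ℝ => fro ((MM N (pt c σ s θ)) ^ (2 ^ a)) := by
  have hc : Continuous fun θ : ι → ℝ => MM N (pt c σ s θ) := by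
    refine continuous_matrix fun x y => ?_
    unfold MM ph
    refine continuous_finset_sum _ fun n _ => ?_
    refine Continuous.mul ?_ (Complex.continuous_conj.comp ?_)
    · exact Complex.continuous_exp.comp ((Complex.continuous_ofReal.comp
        (((cont_pt c σ s x).mul continuous_const).neg)).mul continuous_const)
    · exact Complex.continuous_exp.comp ((Complex.continuous_ofReal.comp
        (((cont_pt c σ s y).mul continuous_const).neg)).mul continuous_const)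
  have hc2 : Continuous fun θ : ι → ℝ => (MM N (pt c σ s θ)) ^ (2 ^ a) := hc.pow _
  unfold fro
  refine continuous_finset_sum _ fun x _ => continuous_finset_sum _ fun y _ => ?_
  exact ((hc2.matrix_elem x y).norm).pow 2

/-- `n ^ (- i t)` -/
theorem cpow_ph (n : ℕ) (hn : 1 ≤ n) (t : ℝ) : (n : ℂ) ^ (-((t : ℂ) * Complex.I)) = ph t n := by
  have hn0 : (n : ℂ) ≠ 0 := by exact_mod_cast (by omega : n ≠ 0)
  unfold ph
  rw [Complex.cpow_def_of_ne_zero hn0, ← Complex.natCast_log]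
  congr 1
  push_cast
  ring

/-- the mean value estimate with the constant `Y` -/
def MV (N : ℕ) (Y : ℝ) {J : Type} [Fintype J] (t : J → ℝ) : Prop :=
  ∀ b : ℕ → ℂ, ∑ j, ‖∑ n ∈ Icc 1 N, b n * ph (t j) n‖ ^ 2 ≤ Y * ∑ n ∈ Icc 1 N, ‖b n‖ ^ 2

/-- the two bounds for the exceptional set -/
theorem core {J ι : Type} [Fintype J] [Fintype ι] {a N D F : ℕ} (hD : 1 ≤ D) (hN : 1 ≤ N) (c : J → ℝ)
    (σ : ι → ℝ) (τ : ℝ) (hτ : 0 < τ) (hσ : ∀ l, τ ≤ σ l) (s : J → ι → ℤ) (hs : ∀ j l, |s j l| ≤ D)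
    (hF : FewD s (2 ^ (a + 1) - 1) F) (h : ℝ) (hh : 0 ≤ h) (Y : ℝ) (hY : 0 < Y) (b : ℝ)
    (hb : (N * (Fintype.card J * ww D (2 ^ (a + 1) - 1) N (h / τ) + F * N) ^ (2 ^ (a + 1)) +
      (Fintype.card J * N) ^ (2 ^ (a + 1)) * Real.exp (-(h ^ 2 / 2))) / Y ^ (2 ^ (a + 1)) ≤ b) :
    ∃ S : Set (ι → ℝ), (∀ θ, θ ∉ S → MV N Y (pt c σ s θ)) ∧ gam ι S ≤ ENNReal.ofReal b ∧
      volume (S ∩ Set.Icc (-1) 1) ≤ 5 ^ (Fintype.card ι) * ENNReal.ofReal b := by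
  classical
  set S : Set (ι → ℝ) := {θ | Y ^ (2 ^ (a + 1)) ≤ fro ((MM N (pt c σ s θ)) ^ (2 ^ a))} with hS
  have hSm : MeasurableSet S := (isClosed_le continuous_const (cont_fro N a c σ s)).measurableSet
  have h1 : (gam ι).real S ≤ b := (tail hD hN c σ τ hτ hσ s hs hF h hh Y hY).trans hb
  have h2 : gam ι S ≤ ENNReal.ofReal b := by
    rw [← ENNReal.ofReal_toReal (measure_ne_top (gam ι) S)]
    exact ENNReal.ofReal_le_ofReal h1
  refine ⟨S, fun θ hθ => ?_, h2, (vol_le S hSm).trans (mul_le_mul_right h2 _)⟩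
  rw [hS, Set.mem_setOf_eq, not_le] at hθ
  exact fun b => mean_of_fro (pt c σ s θ) Y hY.le hθ.le b

theorem ww_le {D k N : ℕ} (h τ : ℝ) (hh : 0 ≤ h) (hτ : 0 < τ) :
    (ww D k N (h / τ) : ℝ) ≤ 4 * QQ D (k + 1) * h * (N / τ) + 1 := by
  unfold ww
  push_cast
  have h1 : (⌊4 * (QQ D (k + 1) : ℝ) * (h / τ) * N⌋₊ : ℝ) ≤ 4 * (QQ D (k + 1) : ℝ) * (h / τ) * N :=
    Nat.floor_le (by positivity)
  have h2 : 4 * (QQ D (k + 1) : ℝ) * (h / τ) * N = 4 * (QQ D (k + 1) : ℝ) * h * (N / τ) := by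
    field_simp
  linarith

/-- **small integer combinations of Gaussian parameters** -/
theorem small_box (ε A B : ℝ) (hε : 0 < ε) (hB : 0 ≤ B) :
    ∃ η C : ℝ, 0 < η ∧ 0 < C ∧ ∀ (J ι : Type) [Fintype J] [Fintype ι] (N : ℕ) (τ : ℝ) (c : J → ℝ)
      (s : J → ι → ℤ) (σ : ι → ℝ), 1 ≤ N → (Fintype.card J : ℝ) ≤ (N : ℝ) ^ B → 0 < τ → (∀ l, τ ≤ σ l) →
      Function.Injective s → (∀ j l, |(s j l : ℝ)| ≤ (N : ℝ) ^ η) →
      ∃ S : Set (ι → ℝ), (∀ θ, θ ∉ S →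
          MV N (C * (N : ℝ) ^ ε * (N + Fintype.card J + Fintype.card J * N / τ)) (pt c σ s θ)) ∧
        gam ι S ≤ ENNReal.ofReal (C * (N : ℝ) ^ (-A)) ∧
        volume (S ∩ Set.Icc (-1) 1) ≤ 5 ^ (Fintype.card ι) * ENNReal.ofReal (C * (N : ℝ) ^ (-A)) := by
  obtain ⟨a, ch, hch, hnum⟩ := numerics ε A B hε hB
  set K2 : ℕ := 2 ^ (a + 1) with hK2
  have hK21 : 1 ≤ K2 := Nat.one_le_two_pow
  set η : ℝ := ε / (8 * 2 ^ K2) with hη
  have hη0 : 0 < η := by positivity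
  have hη1 : η * 2 ^ K2 = ε / 8 := by rw [hη]; field_simp
  have hη2 : η * K2 ≤ ε / 8 := by
    rw [← hη1]
    refine mul_le_mul_of_nonneg_left ?_ hη0.le
    exact_mod_cast Nat.lt_two_pow_self.le
  set c1 : ℝ := 4 * 2 ^ (2 ^ K2) * ch + 1 + 3 ^ K2 with hc1
  have hc11 : 1 ≤ c1 := by
    have : 0 ≤ 4 * 2 ^ (2 ^ K2) * ch := by positivity
    have h3 : (0 : ℝ) ≤ 3 ^ K2 := by positivity
    linarith
  refine ⟨η, c1 + 2, hη0, by linarith, fun J ι _ _ N τ c s σ hN hR hτ hσ hinj hs => ?_⟩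
  have hN1 : (1 : ℝ) ≤ N := by exact_mod_cast hN
  have hN0 : (0 : ℝ) < N := by linarith
  set D : ℕ := ⌊(N : ℝ) ^ η⌋₊ with hDdef
  have hNη : (1 : ℝ) ≤ (N : ℝ) ^ η := Real.one_le_rpow hN1 hη0.le
  have hD1 : 1 ≤ D := Nat.le_floor (by exact_mod_cast hNη)
  have hD : (D : ℝ) ≤ (N : ℝ) ^ η := Nat.floor_le (by positivity)
  have hsD : ∀ j l, |s j l| ≤ (D : ℤ) := by
    intro j l
    have h1 : ((s j l).natAbs : ℝ) ≤ (N : ℝ) ^ η := by
      have e : ((s j l).natAbs : ℝ) = |(s j l : ℝ)| := by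
        rw [Nat.cast_natAbs, Int.cast_abs]
      rw [e]; exact hs j l
    have h2 : (s j l).natAbs ≤ D := Nat.le_floor h1
    have h3 : |s j l| = ((s j l).natAbs : ℤ) := (Int.natCast_natAbs _).symm
    rw [h3]
    exact_mod_cast h2
  obtain ⟨h, hh0, hhs, hfin⟩ := hnum N (Fintype.card J) hN hR
  have hD0 : (1 : ℝ) ≤ D := by exact_mod_cast hD1
  have hDpow : ∀ m : ℕ, (D : ℝ) ^ m ≤ (N : ℝ) ^ (η * m) := by
    intro m
    rw [Real.rpow_mul hN0.le, Real.rpow_natCast]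
    exact pow_le_pow_left₀ (by linarith) hD m
  have hQ : (QQ D (K2 - 1 + 1) : ℝ) ≤ 2 ^ (2 ^ K2) * (N : ℝ) ^ (ε / 8) := by
    rw [Nat.sub_add_cancel hK21]
    have h1 : (QQ D K2 : ℝ) ≤ ((2 * D) ^ (2 ^ K2) : ℕ) := by exact_mod_cast QQ_le hD1 K2
    refine h1.trans ?_
    push_cast
    rw [mul_pow]
    refine mul_le_mul_of_nonneg_left ((hDpow _).trans (le_of_eq ?_)) (by positivity)
    congr 1
    push_cast
    exact hη1
  have hK : (((2 * D + 1) ^ K2 : ℕ) : ℝ) ≤ 3 ^ K2 * (N : ℝ) ^ (ε / 2) := by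
    push_cast
    calc ((2 * D + 1) ^ K2 : ℝ) ≤ (3 * D) ^ K2 := pow_le_pow_left₀ (by positivity) (by linarith) _
      _ = 3 ^ K2 * (D : ℝ) ^ K2 := mul_pow _ _ _
      _ ≤ 3 ^ K2 * (N : ℝ) ^ (ε / 2) := by
          refine mul_le_mul_of_nonneg_left ((hDpow K2).trans ?_) (by positivity)
          exact Real.rpow_le_rpow_of_exponent_le hN1 (by linarith)
  have hFew : FewD s (K2 - 1) ((2 * D + 1) ^ K2) := by
    intro i hi w
    have := few_box (D := D) (k := K2 - 1) (vv s) (vv_inj hinj) (vv_abs hD1 hsD) i hi w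
    rw [Nat.sub_add_cancel hK21] at this
    convert this
  set R : ℕ := Fintype.card J with hRdef
  set X : ℝ := N + R + R * N / τ with hX
  have hX0 : 0 ≤ (R : ℝ) * N / τ := by positivity
  have hX1 : 1 ≤ X := by
    rw [hX]
    have : (0 : ℝ) ≤ R := Nat.cast_nonneg _
    linarith
  have hbase : ((R : ℝ) * ww D (K2 - 1) N (h / τ) + (((2 * D + 1) ^ K2 : ℕ) : ℝ) * N) ≤
      c1 * (N : ℝ) ^ (ε / 2) * X := by
    have e0 : (0 : ℝ) ≤ (N : ℝ) ^ (ε / 2) := by positivity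
    have e1 : (ww D (K2 - 1) N (h / τ) : ℝ) ≤
        (4 * 2 ^ (2 ^ K2) * ch) * (N : ℝ) ^ (ε / 2) * (N / τ) + (N : ℝ) ^ (ε / 2) := by
      refine (ww_le h τ hh0 hτ).trans ?_
      have h6 : (1 : ℝ) ≤ (N : ℝ) ^ (ε / 2) := Real.one_le_rpow hN1 (by positivity)
      have h3 : 4 * (QQ D (K2 - 1 + 1) : ℝ) * h ≤ 4 * (2 ^ (2 ^ K2) * (N : ℝ) ^ (ε / 8)) * (ch * (N : ℝ) ^ (ε / 8)) := by
        gcongr
      have h4 : 4 * (2 ^ (2 ^ K2) * (N : ℝ) ^ (ε / 8)) * (ch * (N : ℝ) ^ (ε / 8)) =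
          4 * 2 ^ (2 ^ K2) * ch * (N : ℝ) ^ (ε / 4) := by
        have : (N : ℝ) ^ (ε / 4) = (N : ℝ) ^ (ε / 8) * (N : ℝ) ^ (ε / 8) := by
          rw [← Real.rpow_add hN0]; congr 1; ring
        rw [this]; ring
      have h5 : (N : ℝ) ^ (ε / 4) ≤ (N : ℝ) ^ (ε / 2) := Real.rpow_le_rpow_of_exponent_le hN1 (by linarith)
      have h7 : 4 * 2 ^ (2 ^ K2) * ch * (N : ℝ) ^ (ε / 4) ≤ 4 * 2 ^ (2 ^ K2) * ch * (N : ℝ) ^ (ε / 2) :=
        mul_le_mul_of_nonneg_left h5 (by positivity)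
      have h8 := mul_le_mul_of_nonneg_right (h3.trans (h4.le.trans h7)) (show (0 : ℝ) ≤ N / τ by positivity)
      linarith
    have e2 : (((2 * D + 1) ^ K2 : ℕ) : ℝ) * N ≤ (3 ^ K2 * (N : ℝ) ^ (ε / 2)) * N :=
      mul_le_mul_of_nonneg_right hK hN0.le
    have e3 := mul_le_mul_of_nonneg_left e1 (Nat.cast_nonneg R : (0 : ℝ) ≤ R)
    set E : ℝ := (N : ℝ) ^ (ε / 2) with hE
    set c2 : ℝ := 4 * 2 ^ (2 ^ K2) * ch with hc2
    set c3 : ℝ := 3 ^ K2 with hc3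
    have hc20 : 0 ≤ c2 := by positivity
    have hc30 : 0 ≤ c3 := by positivity
    have hR0 : (0 : ℝ) ≤ R := Nat.cast_nonneg _
    have e5 : (R : ℝ) * (c2 * E * (N / τ) + E) = c2 * E * (R * N / τ) + E * R := by ring
    have e6 : c1 * E * X = (c2 * E * (R * N / τ) + E * R + c3 * E * N) +
        (c2 * E * (N + R) + E * (N + R * N / τ) + c3 * E * (R + R * N / τ)) := by
      rw [hc1, hX]; ring
    have e7 : 0 ≤ (c2 * E * (N + R) + E * (N + R * N / τ) + c3 * E * (R + R * N / τ)) := by positivity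
    linarith
  have hfin1 := hfin c1 ((R : ℝ) * ww D (K2 - 1) N (h / τ) + (((2 * D + 1) ^ K2 : ℕ) : ℝ) * N) X hc11 hX1
    (by positivity) hbase
  have hY : 0 < (c1 + 2) * (N : ℝ) ^ ε * X := by positivity
  exact core hD1 hN c σ τ hτ hσ s hsD hFew h hh0 _ hY _ hfin1

end Pool.Agent.Helper68K9.SG
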