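import Pool.Agent.Helper68K9.SG.Tr

/-!
The expectation of the trace of a power for structured Gaussian perturbations.
-/

set_option autoImplicit false

namespace Pool.Agent.Helper68K9.SG

open Finset Matrix MeasureTheory ProbabilityTheory

variable {J ι : Type} [Fintype J] [Fintype ι]

/-- the standard Gaussian measure on `ℝ^ι` -/
noncomputable def gam (ι : Type) [Fintype ι] : Measure (ι → ℝ) := Measure.pi fun _ => gaussianReal 0 1

instance : IsProbabilityMeasure (gam ι) := by unfold gam; infer_instance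

/-- the perturbed points -/
noncomputable def pt (c : J → ℝ) (σ : ι → ℝ) (s : J → ι → ℤ) (θ : ι → ℝ) (j : J) : ℝ :=
  c j + ∑ l, σ l * θ l * s j l

/-- the unimodular numbers `n ^ (- i t)` -/
noncomputable def ph (t : ℝ) (n : ℕ) : ℂ := Complex.exp ((-(t * Real.log n) : ℝ) * Complex.I)

/-- the matrix `A A^*` -/
noncomputable def MM (N : ℕ) (t : J → ℝ) : Matrix J J ℂ := fun x y =>
  ∑ n ∈ Icc 1 N, ph (t x) n * (starRingEnd ℂ) (ph (t y) n)

omit [Fintype J] in
theorem MM_herm (N : ℕ) (t : J → ℝ) : (MM N t).IsHermitian := by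
  ext x y
  rw [Matrix.conjTranspose_apply]
  unfold MM
  rw [RCLike.star_def, map_sum]
  refine sum_congr rfl fun n _ => ?_
  rw [map_mul, Complex.conj_conj, mul_comm]

theorem ph_mul (t u : ℝ) (n : ℕ) : ph t n * (starRingEnd ℂ) (ph u n) =
    Complex.exp ((-((t - u) * Real.log n) : ℝ) * Complex.I) := by
  unfold ph
  rw [← Complex.exp_conj, ← Complex.exp_add]
  congr 1
  rw [map_mul, Complex.conj_ofReal, Complex.conj_I]
  push_cast
  ring

/-- the vectors with a coordinate `1` added -/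
def vv (s : J → ι → ℤ) (j : J) : Option ι → ℤ
  | none => 1
  | some l => s j l

omit [Fintype J] [Fintype ι] in
theorem vv_inj {s : J → ι → ℤ} (h : Function.Injective s) : Function.Injective (vv s) := by
  intro x y hxy
  apply h
  funext l
  exact congrFun hxy (some l)

omit [Fintype J] [Fintype ι] in
theorem vv_abs {D : ℕ} (hD : 1 ≤ D) {s : J → ι → ℤ} (h : ∀ j l, |s j l| ≤ D) (x : J) (o : Option ι) :
    |vv s x o| ≤ D := by
  cases o with
  | none => show |(1 : ℤ)| ≤ D; simpa using hD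
  | some l => exact h x l

theorem int_one (y : ℝ) : ∫ x : ℝ, Complex.exp ((-(x * y) : ℝ) * Complex.I) ∂(gaussianReal 0 1) =
    Complex.exp ((-(y ^ 2 / 2) : ℝ)) := by
  have h := charFun_gaussianReal (μ := 0) (v := 1) (-y)
  rw [charFun_apply_real] at h
  have e : ∀ x : ℝ, Complex.exp ((-(x * y) : ℝ) * Complex.I) = Complex.exp ((-y : ℝ) * x * Complex.I) := by
    intro x
    congr 1
    push_cast
    ring
  simp only [e]
  rw [h]
  congr 1
  push_cast
  ring

theorem int_exp (y : ι → ℝ) : ∫ θ, Complex.exp ((-(∑ l, θ l * y l) : ℝ) * Complex.I) ∂(gam ι) =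
    Complex.exp ((-(∑ l, y l ^ 2 / 2) : ℝ)) := by
  have e : ∀ θ : ι → ℝ, Complex.exp ((-(∑ l, θ l * y l) : ℝ) * Complex.I) =
      ∏ l, Complex.exp ((-(θ l * y l) : ℝ) * Complex.I) := by
    intro θ
    rw [← Complex.exp_sum]
    congr 1
    push_cast
    rw [← sum_neg_distrib, sum_mul]
  simp only [e]
  unfold gam
  rw [integral_fintype_prod_eq_prod (𝕜 := ℂ) (fun l (x : ℝ) => Complex.exp ((-(x * y l) : ℝ) * Complex.I))]
  rw [prod_congr rfl fun l _ => int_one (y l), ← Complex.exp_sum]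
  congr 1
  push_cast
  rw [← sum_neg_distrib]

/-- one term of the expansion of the trace -/
theorem int_term {k : ℕ} (c : J → ℝ) (σ : ι → ℝ) (s : J → ι → ℤ) (w : Fin (k + 1) → J) (n : Fin (k + 1) → ℕ) :
    ‖∫ θ, Complex.exp ((-(∑ i, (pt c σ s θ (w i) - pt c σ s θ (w (i + 1))) * Real.log (n i)) : ℝ) * Complex.I)
      ∂(gam ι)‖ = Real.exp (-(∑ l, (σ l * lf (vv s) w n (some l)) ^ 2 / 2)) := by
  have e : ∀ θ : ι → ℝ, (∑ i, (pt c σ s θ (w i) - pt c σ s θ (w (i + 1))) * Real.log (n i)) =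
      (∑ i, (c (w i) - c (w (i + 1))) * Real.log (n i)) + ∑ l, θ l * (σ l * lf (vv s) w n (some l)) := by
    intro θ
    unfold lf pt
    simp only [mul_sum]
    rw [sum_comm, ← sum_add_distrib]
    refine sum_congr rfl fun i _ => ?_
    have e1 : ∀ l, θ l * (σ l * (((vv s (w i) (some l) - vv s (w (i + 1)) (some l) : ℤ) : ℝ) * Real.log (n i))) =
        (σ l * θ l * s (w i) l - σ l * θ l * s (w (i + 1)) l) * Real.log (n i) := by
      intro l
      have e2 : vv s (w i) (some l) = s (w i) l := rfl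
      have e3 : vv s (w (i + 1)) (some l) = s (w (i + 1)) l := rfl
      rw [e2, e3]
      push_cast
      ring
    rw [sum_congr rfl fun l _ => e1 l, ← sum_mul, sum_sub_distrib]
    ring
  have e2 : ∀ θ : ι → ℝ,
      Complex.exp ((-(∑ i, (pt c σ s θ (w i) - pt c σ s θ (w (i + 1))) * Real.log (n i)) : ℝ) * Complex.I) =
      Complex.exp ((-(∑ i, (c (w i) - c (w (i + 1))) * Real.log (n i)) : ℝ) * Complex.I) *
        Complex.exp ((-(∑ l, θ l * (σ l * lf (vv s) w n (some l))) : ℝ) * Complex.I) := by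
    intro θ
    rw [e, ← Complex.exp_add]
    congr 1
    push_cast
    ring
  simp only [e2]
  rw [integral_const_mul, int_exp, norm_mul, Complex.norm_exp_ofReal_mul_I, one_mul, Complex.norm_exp,
    Complex.ofReal_re]

variable [DecidableEq J]

theorem trace_MM (N k : ℕ) (t : J → ℝ) : ((MM N t) ^ (k + 1)).trace =
    ∑ w : Fin (k + 1) → J, ∑ n ∈ Fintype.piFinset (fun _ : Fin (k + 1) => Icc 1 N),
      Complex.exp ((-(∑ i, (t (w i) - t (w (i + 1))) * Real.log (n i)) : ℝ) * Complex.I) := by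
  rw [trace_walk]
  refine sum_congr rfl fun w _ => ?_
  unfold MM
  rw [prod_univ_sum]
  refine sum_congr rfl fun n _ => ?_
  rw [prod_congr rfl fun i _ => ph_mul (t (w i)) (t (w (i + 1))) (n i), ← Complex.exp_sum]
  congr 1
  push_cast
  rw [← sum_neg_distrib, sum_mul]

theorem cont_pt (c : J → ℝ) (σ : ι → ℝ) (s : J → ι → ℤ) (j : J) : Continuous fun θ => pt c σ s θ j := by
  unfold pt
  fun_prop

open Classical in
/-- few points of the family lie in the span of few others -/
def FewD {J ι : Type} [Fintype J] (s : J → ι → ℤ) (k F : ℕ) : Prop :=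
  ∀ i < k + 1, ∀ w : Fin i → J, (univ.filter fun x => cst (vv s x) ∈ PS (vv s) w).card ≤ F

/-- the bound for the expectation of the trace -/
theorem int_trace {D k N F : ℕ} (hD : 1 ≤ D) (hN : 1 ≤ N) (c : J → ℝ) (σ : ι → ℝ) (τ : ℝ) (hτ : 0 < τ)
    (hσ : ∀ l, τ ≤ σ l) (s : J → ι → ℤ) (hs : ∀ j l, |s j l| ≤ D) (hF : FewD s k F) (h : ℝ) (hh : 0 ≤ h) :
    ‖∫ θ, ((MM N (pt c σ s θ)) ^ (k + 1)).trace ∂(gam ι)‖ ≤
      N * (Fintype.card J * ww D k N (h / τ) + F * N) ^ (k + 1) +
      (Fintype.card J * N) ^ (k + 1) * Real.exp (-(h ^ 2 / 2)) := by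
  classical
  have hN0 : (0 : ℝ) < N := by exact_mod_cast hN
  simp only [trace_MM]
  have hint : ∀ (w : Fin (k + 1) → J) (n : Fin (k + 1) → ℕ), Integrable (fun θ : ι → ℝ =>
      Complex.exp ((-(∑ i, (pt c σ s θ (w i) - pt c σ s θ (w (i + 1))) * Real.log (n i)) : ℝ) * Complex.I))
      (gam ι) := by
    intro w n
    refine Integrable.of_bound (C := 1) ?_ (Filter.Eventually.of_forall fun θ => ?_)
    · refine Continuous.aestronglyMeasurable ?_
      refine Complex.continuous_exp.comp ((Complex.continuous_ofReal.comp ?_).mul continuous_const)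
      refine (continuous_finset_sum _ fun i _ => ?_).neg
      exact ((cont_pt c σ s _).sub (cont_pt c σ s _)).mul continuous_const
    · rw [Complex.norm_exp_ofReal_mul_I]
  rw [integral_finset_sum _ fun w _ => integrable_finset_sum _ fun n _ => hint w n]
  have e1 : ∀ w : Fin (k + 1) → J, ∫ θ, ∑ n ∈ Fintype.piFinset (fun _ : Fin (k + 1) => Icc 1 N),
      Complex.exp ((-(∑ i, (pt c σ s θ (w i) - pt c σ s θ (w (i + 1))) * Real.log (n i)) : ℝ) * Complex.I)
      ∂(gam ι) = ∑ n ∈ Fintype.piFinset (fun _ : Fin (k + 1) => Icc 1 N), ∫ θ,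
      Complex.exp ((-(∑ i, (pt c σ s θ (w i) - pt c σ s θ (w (i + 1))) * Real.log (n i)) : ℝ) * Complex.I)
      ∂(gam ι) := fun w => integral_finset_sum _ fun n _ => hint w n
  simp only [e1]
  have e2 : ∀ (w : Fin (k + 1) → J) (n : Fin (k + 1) → ℕ),
      ‖∫ θ, Complex.exp ((-(∑ i, (pt c σ s θ (w i) - pt c σ s θ (w (i + 1))) * Real.log (n i)) : ℝ) * Complex.I)
        ∂(gam ι)‖ ≤ (if (∀ o, |lf (vv s) w n o| ≤ h / τ) then 1 else 0) + Real.exp (-(h ^ 2 / 2)) := by
    intro w n
    rw [int_term]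
    split_ifs with hc
    · have : Real.exp (-(∑ l, (σ l * lf (vv s) w n (some l)) ^ 2 / 2)) ≤ 1 := by
        rw [Real.exp_le_one_iff]
        have : 0 ≤ ∑ l, (σ l * lf (vv s) w n (some l)) ^ 2 / 2 := sum_nonneg fun _ _ => by positivity
        linarith
      linarith [Real.exp_pos (-(h ^ 2 / 2))]
    · rw [zero_add]
      push Not at hc
      obtain ⟨o, ho⟩ := hc
      cases o with
      | none =>
        exfalso
        have : lf (vv s) w n none = 0 := by
          unfold lf
          refine sum_eq_zero fun i _ => ?_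
          show (((1 : ℤ) - 1 : ℤ) : ℝ) * _ = 0
          simp
        rw [this, abs_zero] at ho
        exact absurd ho (not_lt.2 (by positivity))
      | some l =>
        rw [Real.exp_le_exp]
        have h1 : (σ l * lf (vv s) w n (some l)) ^ 2 / 2 ≤ ∑ l, (σ l * lf (vv s) w n (some l)) ^ 2 / 2 :=
          single_le_sum (f := fun l => (σ l * lf (vv s) w n (some l)) ^ 2 / 2) (fun _ _ => by positivity)
            (mem_univ l)
        have h2 : h ≤ |σ l * lf (vv s) w n (some l)| := by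
          rw [abs_mul]
          have h3 : τ ≤ |σ l| := (hσ l).trans (le_abs_self _)
          calc h = τ * (h / τ) := by field_simp
            _ ≤ |σ l| * |lf (vv s) w n (some l)| := mul_le_mul h3 ho.le (by positivity) (abs_nonneg _)
        have h3 : h ^ 2 ≤ (σ l * lf (vv s) w n (some l)) ^ 2 := by
          rw [← sq_abs (σ l * lf (vv s) w n (some l))]
          exact pow_le_pow_left₀ hh h2 2
        linarith
  have hsum : ‖∑ w : Fin (k + 1) → J, ∑ n ∈ Fintype.piFinset (fun _ : Fin (k + 1) => Icc 1 N), ∫ θ,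
      Complex.exp ((-(∑ i, (pt c σ s θ (w i) - pt c σ s θ (w (i + 1))) * Real.log (n i)) : ℝ) * Complex.I)
      ∂(gam ι)‖ ≤ ∑ w : Fin (k + 1) → J, ∑ n ∈ Fintype.piFinset (fun _ : Fin (k + 1) => Icc 1 N),
        ((if (∀ o, |lf (vv s) w n o| ≤ h / τ) then (1 : ℝ) else 0) + Real.exp (-(h ^ 2 / 2))) := by
    refine (norm_sum_le _ _).trans (sum_le_sum fun w _ => ?_)
    exact (norm_sum_le _ _).trans (sum_le_sum fun n _ => e2 w n)
  refine hsum.trans ?_
  simp only [sum_add_distrib, sum_const, Fintype.card_piFinset_const, Nat.card_Icc, Nat.add_sub_cancel,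
    nsmul_eq_mul, card_univ, Fintype.card_fun, Fintype.card_fin]
  refine add_le_add ?_ (le_of_eq ?_)
  · have h1 := card_allF hD hN (k := k) (F := F) (vv s) (vv_abs hD hs) (fun i hi w => by convert hF i hi w) (h / τ)
    have h2 : ∑ w : Fin (k + 1) → J, ∑ n ∈ Fintype.piFinset (fun _ : Fin (k + 1) => Icc 1 N),
        (if (∀ o, |lf (vv s) w n o| ≤ h / τ) then (1 : ℝ) else 0) =
        ((∑ w : Fin (k + 1) → J, ((Fintype.piFinset fun _ : Fin (k + 1) => Icc 1 N).filter
          fun n => ∀ o, |lf (vv s) w n o| ≤ h / τ).card : ℕ) : ℝ) := by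
      push_cast
      refine sum_congr rfl fun w _ => ?_
      rw [← sum_filter, sum_const, nsmul_eq_mul, mul_one]
    rw [h2]
    exact_mod_cast h1
  · push_cast
    ring

end Pool.Agent.Helper68K9.SG
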