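import Pool.Agent.Helper68K9.SG.Exp

/-!
The mean value theorem outside a small set of parameters.
-/

set_option autoImplicit false

namespace Pool.Agent.Helper68K9.SG

open Finset Matrix MeasureTheory ProbabilityTheory

variable {J ι : Type} [Fintype J] [Fintype ι] [DecidableEq J]

/-- Markov's inequality for the trace -/
theorem tail {a N D F : ℕ} (hD : 1 ≤ D) (hN : 1 ≤ N) (c : J → ℝ) (σ : ι → ℝ) (τ : ℝ) (hτ : 0 < τ)
    (hσ : ∀ l, τ ≤ σ l) (s : J → ι → ℤ) (hs : ∀ j l, |s j l| ≤ D) (hF : FewD s (2 ^ (a + 1) - 1) F)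
    (h : ℝ) (hh : 0 ≤ h) (Y : ℝ) (hY : 0 < Y) :
    (gam ι).real {θ | Y ^ (2 ^ (a + 1)) ≤ fro ((MM N (pt c σ s θ)) ^ (2 ^ a))} ≤
      (N * (Fintype.card J * ww D (2 ^ (a + 1) - 1) N (h / τ) + F * N) ^ (2 ^ (a + 1)) +
      (Fintype.card J * N) ^ (2 ^ (a + 1)) * Real.exp (-(h ^ 2 / 2))) / Y ^ (2 ^ (a + 1)) := by
  have hk : 2 ^ (a + 1) - 1 + 1 = 2 ^ (a + 1) := Nat.sub_add_cancel Nat.one_le_two_pow
  have h1 := int_trace (k := 2 ^ (a + 1) - 1) hD hN c σ τ hτ hσ s hs hF h hh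
  rw [hk] at h1
  have e : 2 ^ (a + 1) = 2 * 2 ^ a := by rw [pow_succ]; ring
  have h2 : ∀ θ : ι → ℝ, ((MM N (pt c σ s θ)) ^ (2 ^ (a + 1))).trace =
      ((fro ((MM N (pt c σ s θ)) ^ (2 ^ a)) : ℝ) : ℂ) := by
    intro θ
    rw [e, trace_fro (MM_herm N _)]
  simp only [h2] at h1
  have h4 := integral_ofReal (𝕜 := ℂ) (μ := gam ι) (f := fun θ : ι → ℝ => fro ((MM N (pt c σ s θ)) ^ (2 ^ a)))
  have h5 : ‖∫ θ, ((fro ((MM N (pt c σ s θ)) ^ (2 ^ a)) : ℝ) : ℂ) ∂(gam ι)‖ =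
      |∫ θ, fro ((MM N (pt c σ s θ)) ^ (2 ^ a)) ∂(gam ι)| := by
    refine (congrArg norm h4).trans ?_
    exact Complex.norm_real _
  rw [h5] at h1
  have h3 := (le_abs_self _).trans h1
  rw [le_div_iff₀ (pow_pos hY _), mul_comm]
  refine le_trans ?_ h3
  refine mul_meas_ge_le_integral_of_nonneg (Filter.Eventually.of_forall fun θ => fro_nonneg _) ?_ _
  refine Integrable.of_bound (C := ∑ x : J, ∑ y : J,
    ((Fintype.card J : ℝ) ^ (2 ^ a) * (N : ℝ) ^ (2 ^ a)) ^ 2) ?_ (Filter.Eventually.of_forall fun θ => ?_)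
  · refine Continuous.aestronglyMeasurable ?_
    have hc : Continuous fun θ : ι → ℝ => MM N (pt c σ s θ) := by
      refine continuous_matrix fun x y => ?_
      unfold MM ph
      refine continuous_finset_sum _ fun n _ => ?_
      refine Continuous.mul ?_ (Complex.continuous_conj.comp ?_)
      · exact Complex.continuous_exp.comp ((Complex.continuous_ofReal.comp
          (((cont_pt c σ s x).mul continuous_const).neg)).mul continuous_const)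
      · exact Complex.continuous_exp.comp ((Complex.continuous_ofReal.comp
          (((cont_pt c σ s y).mul continuous_const).neg)).mul continuous_const)
    have hc2 : Continuous fun θ : ι → ℝ => (MM N (pt c σ s θ)) ^ (2 ^ a) := hc.pow _
    unfold fro
    refine continuous_finset_sum _ fun x _ => continuous_finset_sum _ fun y _ => ?_
    exact ((hc2.matrix_elem x y).norm).pow 2
  · rw [Real.norm_of_nonneg (fro_nonneg _)]
    unfold fro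
    refine sum_le_sum fun x _ => sum_le_sum fun y _ => ?_
    refine pow_le_pow_left₀ (norm_nonneg _) ?_ 2
    have hentry : ∀ x y : J, ‖MM N (pt c σ s θ) x y‖ ≤ N := by
      intro x y
      unfold MM
      refine (norm_sum_le _ _).trans ?_
      refine (sum_le_sum (g := fun _ => (1 : ℝ)) fun n _ => ?_).trans (by simp)
      rw [ph_mul, Complex.norm_exp_ofReal_mul_I]
    have hJ : (1 : ℝ) ≤ Fintype.card J := by exact_mod_cast Fintype.card_pos_iff.2 ⟨x⟩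
    have hpow : ∀ q : ℕ, ∀ x y : J, ‖((MM N (pt c σ s θ)) ^ q) x y‖ ≤
        (Fintype.card J : ℝ) ^ q * (N : ℝ) ^ q := by
      intro q
      induction q with
      | zero =>
        intro x y
        rw [pow_zero, pow_zero, pow_zero, Matrix.one_apply]
        split_ifs <;> simp
      | succ q ih =>
        intro x y
        rw [pow_succ, Matrix.mul_apply]
        refine (norm_sum_le _ _).trans ?_
        refine (sum_le_sum (g := fun _ => (Fintype.card J : ℝ) ^ q * (N : ℝ) ^ q * N) fun z _ => ?_).trans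
          (le_of_eq ?_)
        · rw [norm_mul]
          exact mul_le_mul (ih x z) (hentry z y) (norm_nonneg _) (by positivity)
        · rw [sum_const, card_univ, nsmul_eq_mul]
          ring
    exact hpow _ x y

/-- the mean value estimate holds if the trace is small -/
theorem mean_of_fro {a N : ℕ} (t : J → ℝ) (Y : ℝ) (hY : 0 ≤ Y)
    (h : fro ((MM N t) ^ (2 ^ a)) ≤ Y ^ (2 ^ (a + 1))) (b : ℕ → ℂ) :
    ∑ j, ‖∑ n ∈ Icc 1 N, b n * ph (t j) n‖ ^ 2 ≤ Y * ∑ n ∈ Icc 1 N, ‖b n‖ ^ 2 :=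
  mean_of_form (Icc 1 N) (fun j n => ph (t j) n) Y hY (MM N t) (fun _ _ => rfl)
    (fun x => form_le (MM_herm N t) a Y hY h x) b

/-- the numerical part -/
theorem numericsA (ε A B : ℝ) (hε : 0 < ε) (hB : 0 ≤ B) (a : ℕ)
    (ha : A + 1 ≤ (ε / 2) * ((2 ^ (a + 1) : ℕ) : ℝ)) :
    ∃ ch : ℝ, 0 ≤ ch ∧ ∀ (N R : ℕ), 1 ≤ N → (R : ℝ) ≤ (N : ℝ) ^ B → ∃ h : ℝ, 0 ≤ h ∧
      h ≤ ch * (N : ℝ) ^ (ε / 8) ∧ ∀ (c1 P X : ℝ), 1 ≤ c1 → 1 ≤ X → 0 ≤ P → P ≤ c1 * (N : ℝ) ^ (ε / 2) * X →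
      ((N : ℝ) * P ^ (2 ^ (a + 1)) + ((R : ℝ) * N) ^ (2 ^ (a + 1)) * Real.exp (-(h ^ 2 / 2))) /
        ((c1 + 2) * (N : ℝ) ^ ε * X) ^ (2 ^ (a + 1)) ≤ (c1 + 2) * (N : ℝ) ^ (-A) := by
  set K2 : ℕ := 2 ^ (a + 1) with hK2
  have hK2' : (A + 1) ≤ (ε / 2) * K2 := ha
  have hK21 : 1 ≤ K2 := Nat.one_le_two_pow
  refine ⟨Real.sqrt (16 * (B + 1) * K2 / (ε / 2)), Real.sqrt_nonneg _, fun N R hN hR => ?_⟩
  have hN1 : (1 : ℝ) ≤ N := by exact_mod_cast hN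
  have hN0 : (0 : ℝ) < N := by linarith
  have hlogN : 0 ≤ Real.log N := Real.log_nonneg hN1
  refine ⟨Real.sqrt (2 * ((B + 1) * K2 * Real.log N)), Real.sqrt_nonneg _, ?_, fun c1 P X hc1 hX hP0 hP => ?_⟩
  · have h1 : Real.log N ≤ (N : ℝ) ^ (ε / 4) / (ε / 4) := Real.log_le_rpow_div hN0.le (by positivity)
    have h2 : 2 * ((B + 1) * K2 * Real.log N) ≤ (16 * (B + 1) * K2 / (ε / 2)) * (N : ℝ) ^ (ε / 4) := by
      calc 2 * ((B + 1) * K2 * Real.log N) ≤ 2 * ((B + 1) * K2 * ((N : ℝ) ^ (ε / 4) / (ε / 4))) := by gcongr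
        _ = (8 * (B + 1) * K2 / ε) * (N : ℝ) ^ (ε / 4) := by field_simp; ring
        _ ≤ (16 * (B + 1) * K2 / (ε / 2)) * (N : ℝ) ^ (ε / 4) := by
            refine mul_le_mul_of_nonneg_right ?_ (by positivity)
            rw [div_le_div_iff₀ hε (by positivity)]
            have : 0 ≤ (B + 1) * K2 * ε := by positivity
            nlinarith
    refine (Real.sqrt_le_sqrt h2).trans ?_
    rw [Real.sqrt_mul (by positivity)]
    refine mul_le_mul_of_nonneg_left (le_of_eq ?_) (Real.sqrt_nonneg _)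
    rw [Real.sqrt_eq_rpow, ← Real.rpow_mul hN0.le]
    congr 1
    ring
  set h : ℝ := Real.sqrt (2 * ((B + 1) * K2 * Real.log N)) with hh
  have hh2 : h ^ 2 / 2 = (B + 1) * K2 * Real.log N := by
    rw [hh, Real.sq_sqrt (by positivity)]
    ring
  have hh0 : 0 ≤ h := Real.sqrt_nonneg _
  -- the second summand is at most one
  have hsec : ((R : ℝ) * N) ^ K2 * Real.exp (-(h ^ 2 / 2)) ≤ 1 := by
    have h1 : ((R : ℝ) * N) ^ K2 ≤ Real.exp (h ^ 2 / 2) := by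
      rw [hh2]
      have h2 : ((R : ℝ) * N) ≤ (N : ℝ) ^ (B + 1) := by
        rw [Real.rpow_add hN0, Real.rpow_one]
        exact mul_le_mul_of_nonneg_right hR hN0.le
      calc ((R : ℝ) * N) ^ K2 ≤ ((N : ℝ) ^ (B + 1)) ^ K2 := pow_le_pow_left₀ (by positivity) h2 _
        _ = Real.exp ((B + 1) * K2 * Real.log N) := by
            rw [← Real.rpow_natCast, ← Real.rpow_mul hN0.le, Real.rpow_def_of_pos hN0]
            congr 1
            ring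
    rw [Real.exp_neg, ← div_eq_mul_inv, div_le_one (Real.exp_pos _)]
    exact h1
  set U : ℝ := c1 * (N : ℝ) ^ (ε / 2) * X with hU
  have hU1 : 1 ≤ U := by
    rw [hU]
    have h1 : (1 : ℝ) ≤ (N : ℝ) ^ (ε / 2) := Real.one_le_rpow hN1 (by positivity)
    calc (1 : ℝ) = 1 * 1 * 1 := by norm_num
      _ ≤ c1 * (N : ℝ) ^ (ε / 2) * X := by gcongr
  have hfirst : (N : ℝ) * P ^ K2 ≤ N * U ^ K2 :=
    mul_le_mul_of_nonneg_left (pow_le_pow_left₀ hP0 hP _) hN0.le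
  have hnum : (N : ℝ) * P ^ K2 + ((R : ℝ) * N) ^ K2 * Real.exp (-(h ^ 2 / 2)) ≤ 2 * (N * U ^ K2) := by
    have h1 : (1 : ℝ) ≤ N * U ^ K2 := by
      have := one_le_pow₀ (n := K2) hU1
      nlinarith
    linarith
  have hden : (0 : ℝ) < ((c1 + 2) * (N : ℝ) ^ ε * X) ^ K2 := by positivity
  rw [div_le_iff₀ hden]
  refine hnum.trans ?_
  have h1 : (c1 + 2) * (N : ℝ) ^ ε * X ≥ U * (N : ℝ) ^ (ε / 2) := by
    have e : (N : ℝ) ^ ε = (N : ℝ) ^ (ε / 2) * (N : ℝ) ^ (ε / 2) := by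
      rw [← Real.rpow_add hN0]; congr 1; ring
    rw [e, hU]
    have e3 : 0 ≤ 2 * ((N : ℝ) ^ (ε / 2) * (N : ℝ) ^ (ε / 2)) * X := by positivity
    have e4 : (c1 + 2) * ((N : ℝ) ^ (ε / 2) * (N : ℝ) ^ (ε / 2)) * X =
        c1 * (N : ℝ) ^ (ε / 2) * X * (N : ℝ) ^ (ε / 2) +
          2 * ((N : ℝ) ^ (ε / 2) * (N : ℝ) ^ (ε / 2)) * X := by ring
    rw [ge_iff_le, e4]
    linarith
  have h2 : (U * (N : ℝ) ^ (ε / 2)) ^ K2 ≤ ((c1 + 2) * (N : ℝ) ^ ε * X) ^ K2 :=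
    pow_le_pow_left₀ (by positivity) h1 _
  have h3 : (N : ℝ) ^ (A + 1) ≤ ((N : ℝ) ^ (ε / 2)) ^ K2 := by
    rw [← Real.rpow_natCast, ← Real.rpow_mul hN0.le]
    exact Real.rpow_le_rpow_of_exponent_le hN1 hK2'
  have h4 : (N : ℝ) * U ^ K2 ≤ (N : ℝ) ^ (-A) * (U * (N : ℝ) ^ (ε / 2)) ^ K2 := by
    rw [mul_pow U ((N : ℝ) ^ (ε / 2)) K2]
    have h5 : (N : ℝ) = (N : ℝ) ^ (-A) * (N : ℝ) ^ (A + 1) := by
      rw [← Real.rpow_add hN0]
      have : -A + (A + 1) = 1 := by ring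
      rw [this, Real.rpow_one]
    calc (N : ℝ) * U ^ K2 = (N : ℝ) ^ (-A) * (U ^ K2 * (N : ℝ) ^ (A + 1)) := by
          nth_rewrite 1 [h5]; ring
      _ ≤ (N : ℝ) ^ (-A) * (U ^ K2 * ((N : ℝ) ^ (ε / 2)) ^ K2) := by gcongr
  have h6 : 0 ≤ (N : ℝ) ^ (-A) := by positivity
  have h7 : 0 ≤ (U * (N : ℝ) ^ (ε / 2)) ^ K2 := by positivity
  calc 2 * ((N : ℝ) * U ^ K2) ≤ (c1 + 2) * ((N : ℝ) ^ (-A) * (U * (N : ℝ) ^ (ε / 2)) ^ K2) := by
        have : 0 ≤ (N : ℝ) ^ (-A) * (U * (N : ℝ) ^ (ε / 2)) ^ K2 := mul_nonneg h6 h7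
        nlinarith
    _ ≤ (c1 + 2) * ((N : ℝ) ^ (-A) * ((c1 + 2) * (N : ℝ) ^ ε * X) ^ K2) := by gcongr
    _ = _ := by ring

/-- the numerical part -/
theorem numerics (ε A B : ℝ) (hε : 0 < ε) (hB : 0 ≤ B) :
    ∃ (a : ℕ) (ch : ℝ), 0 ≤ ch ∧ ∀ (N R : ℕ), 1 ≤ N → (R : ℝ) ≤ (N : ℝ) ^ B → ∃ h : ℝ, 0 ≤ h ∧
      h ≤ ch * (N : ℝ) ^ (ε / 8) ∧ ∀ (c1 P X : ℝ), 1 ≤ c1 → 1 ≤ X → 0 ≤ P → P ≤ c1 * (N : ℝ) ^ (ε / 2) * X →
      ((N : ℝ) * P ^ (2 ^ (a + 1)) + ((R : ℝ) * N) ^ (2 ^ (a + 1)) * Real.exp (-(h ^ 2 / 2))) /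
        ((c1 + 2) * (N : ℝ) ^ ε * X) ^ (2 ^ (a + 1)) ≤ (c1 + 2) * (N : ℝ) ^ (-A) := by
  obtain ⟨a, ha⟩ := pow_unbounded_of_one_lt ((A + 1) / (ε / 2)) (one_lt_two)
  refine ⟨a, numericsA ε A B hε hB a ?_⟩
  have h1 : (A + 1) / (ε / 2) ≤ ((2 ^ (a + 1) : ℕ) : ℝ) := by
    refine ha.le.trans ?_
    push_cast
    exact pow_le_pow_right₀ one_le_two (Nat.le_succ a)
  rw [div_le_iff₀ (by positivity)] at h1
  linarith

end Pool.Agent.Helper68K9.SG
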