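import Pool.Agent.Helper68K9.SG.Sol

/-!
Sums over tuples coordinate by coordinate, and the average of `n^(iu)` over `u < T`.
-/

set_option autoImplicit false

namespace Pool.Agent.Helper68K9.SG

open Finset

/-- sums of products of weights which depend on the later coordinates only -/
theorem sum_le_prod (S : Finset ℕ) : ∀ (k : ℕ) (g : Fin k → (Fin k → ℕ) → ℝ) (W : Fin k → ℝ),
    (∀ i n, 0 ≤ g i n) → (∀ i n n', (∀ j, i ≤ j → n j = n' j) → g i n = g i n') →
    (∀ i n, ∑ b ∈ S, g i (Function.update n i b) ≤ W i) →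
    ∑ n ∈ Fintype.piFinset (fun _ : Fin k => S), ∏ i, g i n ≤ ∏ i, W i := by
  intro k
  induction k with
  | zero =>
    intro g W _ _ _
    simp
  | succ k ih =>
    intro g W h0 h1 h2
    have e1 : ∑ n ∈ Fintype.piFinset (fun _ : Fin (k + 1) => S), ∏ i, g i n =
        ∑ n' ∈ Fintype.piFinset (fun _ : Fin k => S), ∑ b ∈ S, ∏ i, g i (Fin.cons b n') := by
      rw [← sum_product']
      refine sum_bij' (fun n _ => (fun i => n i.succ, n 0)) (fun p _ => Fin.cons p.2 p.1) ?_ ?_ ?_ ?_ ?_
      · intro n hn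
        rw [Fintype.mem_piFinset] at hn
        rw [mem_product, Fintype.mem_piFinset]
        exact ⟨fun i => hn _, hn 0⟩
      · intro p hp
        rw [mem_product, Fintype.mem_piFinset] at hp
        rw [Fintype.mem_piFinset]
        intro i
        refine Fin.cases ?_ (fun j => ?_) i
        · exact hp.2
        · exact hp.1 j
      · intro n _
        exact Fin.cons_self_tail n
      · intro p _
        simp
      · intro n _
        have : (Fin.cons (n 0) (fun i : Fin k => n i.succ) : Fin (k + 1) → ℕ) = n := Fin.cons_self_tail n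
        simp only [this]
    have e2 : ∀ (n' : Fin k → ℕ) (b : ℕ), ∏ i, g i (Fin.cons b n') =
        (∏ i : Fin k, g i.succ (Fin.cons 0 n')) * g 0 (Function.update (Fin.cons 0 n' : Fin (k + 1) → ℕ) 0 b) := by
      intro n' b
      rw [Fin.prod_univ_succ, mul_comm]
      congr 1
      · refine prod_congr rfl fun i _ => h1 _ _ _ fun j hj => ?_
        have hj0 : j ≠ 0 := by
          rintro rfl
          exact absurd hj (not_le.2 (Fin.succ_pos i))
        obtain ⟨j', rfl⟩ := Fin.exists_succ_eq.2 hj0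
        simp
      · congr 1
        funext j
        refine Fin.cases ?_ (fun j' => ?_) j
        · simp
        · simp
    rw [e1]
    simp only [e2, ← mul_sum]
    calc ∑ n' ∈ Fintype.piFinset (fun _ : Fin k => S), (∏ i : Fin k, g i.succ (Fin.cons 0 n')) *
          ∑ b ∈ S, g 0 (Function.update (Fin.cons 0 n' : Fin (k + 1) → ℕ) 0 b)
        ≤ ∑ n' ∈ Fintype.piFinset (fun _ : Fin k => S), (∏ i : Fin k, g i.succ (Fin.cons 0 n')) * W 0 :=
          sum_le_sum fun n' _ => mul_le_mul_of_nonneg_left (h2 0 _) (prod_nonneg fun i _ => h0 _ _)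
      _ = (∑ n' ∈ Fintype.piFinset (fun _ : Fin k => S), ∏ i : Fin k, g i.succ (Fin.cons 0 n')) * W 0 := by
          rw [sum_mul]
      _ ≤ (∏ i : Fin k, W i.succ) * W 0 := by
          refine mul_le_mul_of_nonneg_right ?_ ?_
          · refine ih (fun i n' => g i.succ (Fin.cons 0 n')) (fun i => W i.succ) (fun i n => h0 _ _) ?_ ?_
            · intro i n n' h
              refine h1 _ _ _ fun j hj => ?_
              have hj0 : j ≠ 0 := by
                rintro rfl
                exact absurd hj (not_le.2 (Fin.succ_pos i))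
              obtain ⟨j', rfl⟩ := Fin.exists_succ_eq.2 hj0
              simp only [Fin.cons_succ]
              exact h j' (Fin.succ_le_succ_iff.1 hj)
            · intro i n
              refine le_trans (le_of_eq (sum_congr rfl fun b _ => ?_)) (h2 i.succ (Fin.cons 0 n))
              congr 1
              funext j
              refine Fin.cases ?_ (fun j' => ?_) j
              · have : (0 : Fin (k + 1)) ≠ i.succ := (Fin.succ_ne_zero i).symm
                simp [Function.update_of_ne this]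
              · by_cases hji : j' = i
                · subst hji
                  simp
                · have h3 : j'.succ ≠ i.succ := fun h => hji (Fin.succ_injective _ h)
                  simp [Function.update_of_ne hji, Function.update_of_ne h3]
          · exact le_trans (sum_nonneg fun b _ => h0 _ _) (h2 0 (fun _ => 0))
      _ = ∏ i, W i := by rw [Fin.prod_univ_succ, mul_comm]

/-- the average of `e^(-iβu)` over `0 ≤ u < T` -/
noncomputable def phi (T : ℕ) (β : ℝ) : ℂ := (∑ u : Fin T, Complex.exp ((-(β * (u : ℕ)) : ℝ) * Complex.I)) / T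

theorem phi_le_one (T : ℕ) (β : ℝ) : ‖phi T β‖ ≤ 1 := by
  unfold phi
  rw [norm_div, Complex.norm_natCast]
  refine div_le_one_of_le₀ ?_ (Nat.cast_nonneg _)
  refine (norm_sum_le _ _).trans ?_
  refine (sum_le_sum (g := fun _ => (1 : ℝ)) fun u _ => ?_).trans (by simp)
  rw [Complex.norm_exp_ofReal_mul_I]

theorem phi_mul (T : ℕ) (hT : 1 ≤ T) (β : ℝ) :
    ‖phi T β‖ * ‖Complex.exp ((-β : ℝ) * Complex.I) - 1‖ ≤ 2 / T := by
  have hT0 : (0 : ℝ) < T := by exact_mod_cast hT
  set z : ℂ := Complex.exp ((-β : ℝ) * Complex.I) with hz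
  have hz1 : ‖z‖ = 1 := by rw [hz, Complex.norm_exp_ofReal_mul_I]
  have e1 : ∀ u : ℕ, Complex.exp ((-(β * (u : ℕ)) : ℝ) * Complex.I) = z ^ u := by
    intro u
    rw [hz, ← Complex.exp_nat_mul]
    congr 1
    push_cast
    ring
  have e2 : (∑ u : Fin T, Complex.exp ((-(β * (u : ℕ)) : ℝ) * Complex.I)) * (z - 1) = z ^ T - 1 := by
    simp only [e1]
    rw [Fin.sum_univ_eq_sum_range (fun u => z ^ u) T, geom_sum_mul]
  have e3 : phi T β * (z - 1) = (z ^ T - 1) / T := by
    unfold phi
    rw [div_mul_eq_mul_div, e2]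
  rw [← norm_mul, e3, norm_div, Complex.norm_natCast]
  refine div_le_div_of_nonneg_right ?_ hT0.le
  refine (norm_sub_le _ _).trans ?_
  rw [norm_pow, hz1, one_pow, norm_one]
  norm_num

/-- the distance of `β` to the multiples of `2π` -/
theorem dist_two_pi (β : ℝ) :
    |β - 2 * Real.pi * round (β / (2 * Real.pi))| ≤ (Real.pi / 2) * ‖Complex.exp ((-β : ℝ) * Complex.I) - 1‖ := by
  have hpi := Real.pi_pos
  set z : ℤ := round (β / (2 * Real.pi)) with hz
  set b : ℝ := β - 2 * Real.pi * z with hb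
  have hb1 : |b| ≤ Real.pi := by
    have h1 := abs_sub_round (β / (2 * Real.pi))
    have h2 : b = 2 * Real.pi * (β / (2 * Real.pi) - z) := by
      rw [hb]
      field_simp
    rw [h2, abs_mul, abs_of_pos (by positivity)]
    calc 2 * Real.pi * |β / (2 * Real.pi) - z| ≤ 2 * Real.pi * (1 / 2) := by gcongr
      _ = Real.pi := by ring
  have e1 : Complex.exp ((-β : ℝ) * Complex.I) = Complex.exp (Complex.I * (-b : ℝ)) := by
    have h3 : ((-β : ℝ) : ℂ) * Complex.I = Complex.I * (-b : ℝ) + ((-z : ℤ) : ℂ) * (2 * Real.pi * Complex.I) := by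
      rw [hb]
      push_cast
      ring
    rw [h3, Complex.exp_add, Complex.exp_int_mul_two_pi_mul_I, mul_one]
  rw [e1, Complex.norm_exp_I_mul_ofReal_sub_one]
  have h4 : ‖2 * Real.sin (-b / 2)‖ = 2 * |Real.sin (|b| / 2)| := by
    rw [norm_mul, Real.norm_eq_abs, Real.norm_eq_abs, abs_of_pos (by norm_num : (0 : ℝ) < 2)]
    congr 1
    rcases abs_cases b with ⟨h, _⟩ | ⟨h, _⟩
    · rw [h, show -b / 2 = -(b / 2) by ring, Real.sin_neg, abs_neg]
    · rw [h]
  rw [h4]
  have h5 : 2 / Real.pi * (|b| / 2) ≤ Real.sin (|b| / 2) :=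
    Real.mul_le_sin (by positivity) (by linarith)
  have h6 : Real.sin (|b| / 2) ≤ |Real.sin (|b| / 2)| := le_abs_self _
  calc |b| = (Real.pi / 2) * (2 * (2 / Real.pi * (|b| / 2))) := by field_simp
    _ ≤ (Real.pi / 2) * (2 * |Real.sin (|b| / 2)|) := by gcongr; linarith

/-- few integers `m` have a large `phi T (L - log m)` -/
theorem card_phi (T N : ℕ) (hT : 1 ≤ T) (hN : 1 ≤ N) (L κ : ℝ) (hκ : 0 < κ) :
    (((Icc 1 N).filter fun m : ℕ => κ < ‖phi T (L - Real.log m)‖).card : ℝ) ≤
      (Real.log N + 3) * (2 * (Real.pi / (κ * T)) * N + 1) := by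
  classical
  have hpi := Real.pi_pos
  have hT0 : (0 : ℝ) < T := by exact_mod_cast hT
  have hN1 : (1 : ℝ) ≤ N := by exact_mod_cast hN
  set A : Finset ℕ := (Icc 1 N).filter fun m : ℕ => κ < ‖phi T (L - Real.log m)‖ with hA
  set zz : ℕ → ℤ := fun m => round ((L - Real.log m) / (2 * Real.pi)) with hzz
  have hfib : ∀ z ∈ A.image zz, (A.filter fun m => zz m = z).card ≤ ⌊2 * (Real.pi / (κ * T)) * N⌋₊ + 1 := by
    intro z _
    refine card_log N _ (L - 2 * Real.pi * z) (Real.pi / (κ * T)) fun m hm => ?_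
    rw [mem_filter, hA, mem_filter] at hm
    refine ⟨hm.1.1, ?_⟩
    have h1 := dist_two_pi (L - Real.log m)
    have h2 := phi_mul T hT (L - Real.log m)
    have h3 : round ((L - Real.log m) / (2 * Real.pi)) = z := hm.2
    rw [h3] at h1
    have h4 : ‖Complex.exp ((-(L - Real.log m) : ℝ) * Complex.I) - 1‖ ≤ 2 / T / κ := by
      rw [le_div_iff₀ hκ]
      calc _ ≤ ‖Complex.exp ((-(L - Real.log m) : ℝ) * Complex.I) - 1‖ * ‖phi T (L - Real.log m)‖ :=
            mul_le_mul_of_nonneg_left hm.1.2.le (norm_nonneg _)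
        _ = ‖phi T (L - Real.log m)‖ * ‖Complex.exp ((-(L - Real.log m) : ℝ) * Complex.I) - 1‖ := mul_comm _ _
        _ ≤ 2 / T := h2
    have h5 : |Real.log m - (L - 2 * Real.pi * z)| = |L - Real.log m - 2 * Real.pi * z| := by
      rw [← abs_neg]
      congr 1
      ring
    rw [h5]
    calc |L - Real.log m - 2 * Real.pi * z| ≤ (Real.pi / 2) * ‖Complex.exp ((-(L - Real.log m) : ℝ) * Complex.I) - 1‖ := h1
      _ ≤ (Real.pi / 2) * (2 / T / κ) := by gcongr
      _ = Real.pi / (κ * T) := by field_simp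
  have himg : A.image zz ⊆ Icc (round ((L - Real.log N) / (2 * Real.pi))) (round (L / (2 * Real.pi))) := by
    intro z hz
    obtain ⟨m, hm, rfl⟩ := mem_image.1 hz
    rw [hA, mem_filter, mem_Icc] at hm
    have hm1 : (1 : ℝ) ≤ m := by exact_mod_cast hm.1.1
    have hmN : (m : ℝ) ≤ N := by exact_mod_cast hm.1.2
    have h1 : 0 ≤ Real.log m := Real.log_nonneg hm1
    have h2 : Real.log m ≤ Real.log N := Real.log_le_log (by linarith) hmN
    rw [mem_Icc, hzz]
    simp only [round_eq]
    constructor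
    · refine Int.floor_mono ?_
      have : (L - Real.log N) / (2 * Real.pi) ≤ (L - Real.log m) / (2 * Real.pi) :=
        div_le_div_of_nonneg_right (by linarith) (by positivity)
      linarith
    · refine Int.floor_mono ?_
      have : (L - Real.log m) / (2 * Real.pi) ≤ L / (2 * Real.pi) :=
        div_le_div_of_nonneg_right (by linarith) (by positivity)
      linarith
  have hcard : ((A.image zz).card : ℝ) ≤ Real.log N + 3 := by
    have h1 := card_le_card himg
    rw [Int.card_Icc] at h1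
    set u := round ((L - Real.log N) / (2 * Real.pi)) with hu
    set v := round (L / (2 * Real.pi)) with hv
    have h2 : (v : ℝ) ≤ L / (2 * Real.pi) + 1 / 2 := round_le_add_half _
    have h3 : (L - Real.log N) / (2 * Real.pi) - 1 / 2 < u := by
      rw [hu, round_eq]
      have := Int.lt_floor_add_one ((L - Real.log N) / (2 * Real.pi) + 1 / 2)
      linarith
    have h4 : (v : ℝ) + 1 - u ≤ Real.log N + 3 := by
      have h5 : L / (2 * Real.pi) - (L - Real.log N) / (2 * Real.pi) = Real.log N / (2 * Real.pi) := by ring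
      have h6 : Real.log N / (2 * Real.pi) ≤ Real.log N := by
        refine div_le_self (Real.log_nonneg hN1) ?_
        have := Real.pi_gt_three
        linarith
      linarith
    have h7 : (((v + 1 - u).toNat : ℕ) : ℝ) ≤ max ((v : ℝ) + 1 - u) 0 := by
      rcases le_total 0 (v + 1 - u) with h | h
      · have : (((v + 1 - u).toNat : ℤ) : ℝ) = ((v + 1 - u : ℤ) : ℝ) := by rw [Int.toNat_of_nonneg h]
        refine le_max_of_le_left ?_
        have h8 : (((v + 1 - u).toNat : ℕ) : ℝ) = (((v + 1 - u).toNat : ℤ) : ℝ) := by norm_cast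
        rw [h8, this]
        push_cast
        exact le_rfl
      · rw [Int.toNat_of_nonpos h]
        simp
    calc ((A.image zz).card : ℝ) ≤ (((v + 1 - u).toNat : ℕ) : ℝ) := by exact_mod_cast h1
      _ ≤ max ((v : ℝ) + 1 - u) 0 := h7
      _ ≤ Real.log N + 3 := max_le h4 (by have := Real.log_nonneg hN1; linarith)
  have h1 : A.card ≤ (⌊2 * (Real.pi / (κ * T)) * N⌋₊ + 1) * (A.image zz).card := card_le_mul_card_image A _ hfib
  have h2 : (⌊2 * (Real.pi / (κ * T)) * (N : ℝ)⌋₊ : ℝ) ≤ 2 * (Real.pi / (κ * T)) * N := Nat.floor_le (by positivity)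
  calc (A.card : ℝ) ≤ ((⌊2 * (Real.pi / (κ * T)) * N⌋₊ + 1 : ℕ) : ℝ) * (A.image zz).card := by exact_mod_cast h1
    _ ≤ (2 * (Real.pi / (κ * T)) * N + 1) * (Real.log N + 3) := by
        push_cast
        exact mul_le_mul (by linarith) hcard (Nat.cast_nonneg _) (by positivity)
    _ = _ := mul_comm _ _

/-- the sum of the averages -/
theorem sum_phi (T N : ℕ) (hT : 1 ≤ T) (hN : 1 ≤ N) (L : ℝ) (r : ℕ) :
    ∑ m ∈ Icc 1 N, ‖phi T (L - Real.log m)‖ ≤ N * (1 / 2) ^ r +
      (Real.log N + 3) * (4 * Real.pi * r * (N / T) + 2) := by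
  classical
  have hpi := Real.pi_pos
  have hT0 : (0 : ℝ) < T := by exact_mod_cast hT
  have hN1 : (1 : ℝ) ≤ N := by exact_mod_cast hN
  have hlog := Real.log_nonneg hN1
  -- layers
  have hlay : ∀ (r : ℕ) (y : ℝ), 0 ≤ y → y ≤ 1 →
      y ≤ (1 / 2) ^ r + ∑ i ∈ range r, (1 / 2) ^ i * (if (1 / 2 : ℝ) ^ (i + 1) < y then 1 else 0) := by
    intro r
    induction r with
    | zero => intro y _ h1; simpa using h1
    | succ r ih =>
      intro y h0 h1
      rw [sum_range_succ]
      have h2 := ih y h0 h1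
      have h4 : (0 : ℝ) ≤ ∑ i ∈ range r, (1 / 2 : ℝ) ^ i * (if (1 / 2 : ℝ) ^ (i + 1) < y then 1 else 0) :=
        sum_nonneg fun i _ => mul_nonneg (by positivity) (by split_ifs <;> norm_num)
      by_cases h3 : (1 / 2 : ℝ) ^ (r + 1) < y
      · rw [if_pos h3]
        have : (0 : ℝ) ≤ (1 / 2) ^ (r + 1) := by positivity
        linarith
      · rw [if_neg h3]
        linarith [not_lt.1 h3]
  have h1 : ∑ m ∈ Icc 1 N, ‖phi T (L - Real.log m)‖ ≤ ∑ m ∈ Icc 1 N, ((1 / 2 : ℝ) ^ r +
      ∑ i ∈ range r, (1 / 2 : ℝ) ^ i * (if (1 / 2 : ℝ) ^ (i + 1) < ‖phi T (L - Real.log m)‖ then 1 else 0)) :=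
    sum_le_sum fun m _ => hlay r _ (norm_nonneg _) (phi_le_one _ _)
  refine h1.trans ?_
  rw [sum_add_distrib, sum_const, Nat.card_Icc, Nat.add_sub_cancel, nsmul_eq_mul, sum_comm]
  refine add_le_add le_rfl ?_
  have h2 : ∀ i ∈ range r, ∑ m ∈ Icc 1 N, (1 / 2 : ℝ) ^ i *
      (if (1 / 2 : ℝ) ^ (i + 1) < ‖phi T (L - Real.log m)‖ then 1 else 0) ≤
      (Real.log N + 3) * (4 * Real.pi * (N / T)) + (Real.log N + 3) * (1 / 2) ^ i := by
    intro i _
    rw [← mul_sum, ← sum_filter, sum_const, nsmul_eq_mul, mul_one]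
    have h3 := card_phi T N hT hN L ((1 / 2) ^ (i + 1)) (by positivity)
    calc (1 / 2 : ℝ) ^ i * (((Icc 1 N).filter fun m : ℕ => (1 / 2 : ℝ) ^ (i + 1) < ‖phi T (L - Real.log m)‖).card : ℝ)
        ≤ (1 / 2 : ℝ) ^ i * ((Real.log N + 3) * (2 * (Real.pi / ((1 / 2) ^ (i + 1) * T)) * N + 1)) :=
          mul_le_mul_of_nonneg_left h3 (by positivity)
      _ = _ := by
          have : (1 / 2 : ℝ) ^ (i + 1) = (1 / 2) ^ i * (1 / 2) := pow_succ _ _
          rw [this]
          field_simp
          ring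
  refine (sum_le_sum h2).trans ?_
  rw [sum_add_distrib, sum_const, card_range, nsmul_eq_mul, ← mul_sum]
  have h4 : ∑ i ∈ range r, (1 / 2 : ℝ) ^ i ≤ 2 := by
    have := sum_geometric_two_le r
    simpa using this
  have h5 := mul_le_mul_of_nonneg_left h4 (show (0 : ℝ) ≤ Real.log N + 3 by linarith)
  have h6 : (Real.log N + 3) * (4 * Real.pi * r * (N / T) + 2) =
      r * ((Real.log N + 3) * (4 * Real.pi * (N / T))) + (Real.log N + 3) * 2 := by ring
  linarith

end Pool.Agent.Helper68K9.SG
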