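import Mathlib

/-!
Sublevel sets of real exponential sums.
-/

set_option autoImplicit false

namespace Pool.Agent.Helper68K9.SG

open MeasureTheory

theorem sub_sq (E : Set ℝ) (hE : MeasurableSet E) (hE1 : E ⊆ Set.Icc 0 1) (κ s : ℝ) (hκ : 0 ≤ κ) (hs0 : 0 ≤ s)
    (hs : ∀ h : ℝ, κ ≤ h → h ≤ 1 → volume {a | a ∈ E ∧ a + h ∈ E} ≤ ENNReal.ofReal s) :
    volume E * volume E ≤ ENNReal.ofReal (2 * κ + 2 * s) := by
  have h1 : volume E * volume E = ∫⁻ h : ℝ, volume {a | a ∈ E ∧ a + h ∈ E} := by
    have e1 : volume E * volume E = (volume.prod volume) (E ×ˢ E) := (Measure.prod_prod _ _).symm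
    have e2 := (measurePreserving_prod_add (volume : Measure ℝ) (volume : Measure ℝ)).measure_preimage
      (hE.prod hE).nullMeasurableSet
    rw [e1, ← e2, Measure.prod_apply_symm]
    · rfl
    · exact (measurePreserving_prod_add (volume : Measure ℝ) (volume : Measure ℝ)).measurable (hE.prod hE)
  have hvE : volume E ≤ 1 := (measure_mono hE1).trans (by simp)
  have hsym : ∀ h : ℝ, volume {a | a ∈ E ∧ a + h ∈ E} = volume {a | a ∈ E ∧ a + (-h) ∈ E} := by
    intro h
    have e : {a | a ∈ E ∧ a + h ∈ E} = (fun a => a + h) ⁻¹' {a | a ∈ E ∧ a + (-h) ∈ E} := by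
      ext a
      simp only [Set.mem_setOf_eq, Set.mem_preimage]
      constructor
      · rintro ⟨a1, a2⟩
        exact ⟨a2, by rwa [add_neg_cancel_right]⟩
      · rintro ⟨a1, a2⟩
        exact ⟨by rwa [add_neg_cancel_right] at a2, a1⟩
    rw [e, measure_preimage_add_right]
  have hpos : ∀ h : ℝ, 0 ≤ h → volume {a | a ∈ E ∧ a + h ∈ E} ≤
      (Set.Icc (-κ) κ).indicator (fun _ => (1 : ENNReal)) h +
        (Set.Icc (-1) 1).indicator (fun _ => ENNReal.ofReal s) h := by
    intro h hh
    by_cases h2 : h ≤ 1
    · by_cases h3 : h ≤ κ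
      · have : h ∈ Set.Icc (-κ) κ := ⟨by linarith, h3⟩
        rw [Set.indicator_of_mem this]
        exact ((measure_mono fun a ha => ha.1).trans hvE).trans (le_self_add)
      · have h4 : h ∈ Set.Icc (-1 : ℝ) 1 := ⟨by linarith, h2⟩
        rw [Set.indicator_of_mem h4]
        exact (hs h (by linarith) h2).trans le_add_self
    · have e : {a | a ∈ E ∧ a + h ∈ E} = ∅ := by
        apply Set.eq_empty_of_forall_notMem
        rintro a ⟨a1, a2⟩
        have b1 := (hE1 a1).1
        have b2 := (hE1 a2).2
        linarith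
      rw [e, measure_empty]
      exact zero_le
  have hall : ∀ h : ℝ, volume {a | a ∈ E ∧ a + h ∈ E} ≤
      (Set.Icc (-κ) κ).indicator (fun _ => (1 : ENNReal)) h +
        (Set.Icc (-1) 1).indicator (fun _ => ENNReal.ofReal s) h := by
    intro h
    rcases le_total 0 h with hh | hh
    · exact hpos h hh
    · rw [hsym]
      have h5 := hpos (-h) (by linarith)
      have e1 : ∀ c : ℝ, ∀ z : ENNReal, (Set.Icc (-c) c).indicator (fun _ => z) (-h) =
          (Set.Icc (-c) c).indicator (fun _ => z) h := by
        intro c z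
        by_cases hc : h ∈ Set.Icc (-c) c
        · rw [Set.indicator_of_mem hc, Set.indicator_of_mem]
          exact ⟨by linarith [hc.2], by linarith [hc.1]⟩
        · rw [Set.indicator_of_notMem hc, Set.indicator_of_notMem]
          intro hc'
          exact hc ⟨by linarith [hc'.2], by linarith [hc'.1]⟩
      rwa [e1, e1] at h5
  rw [h1]
  refine (lintegral_mono hall).trans ?_
  rw [lintegral_add_left (measurable_const.indicator measurableSet_Icc),
    lintegral_indicator measurableSet_Icc, lintegral_indicator measurableSet_Icc, setLIntegral_const,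
    setLIntegral_const, Real.volume_Icc, Real.volume_Icc, one_mul, ← ENNReal.ofReal_mul hs0,
    ← ENNReal.ofReal_add (by linarith) (by positivity)]
  refine ENNReal.ofReal_le_ofReal (by linarith)

theorem exp_diff (u v : ℝ) (hu : 0 ≤ u) (hv : 0 ≤ v) : |u - v| ≤ |Real.exp u - Real.exp v| := by
  have key : ∀ u v : ℝ, 0 ≤ v → v ≤ u → u - v ≤ Real.exp u - Real.exp v := by
    intro u v hv huv
    have h1 : Real.exp u = Real.exp v * Real.exp (u - v) := by rw [← Real.exp_add]; congr 1; ring
    have h2 : 1 + (u - v) ≤ Real.exp (u - v) := by linarith [Real.add_one_le_exp (u - v)]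
    have h3 : 1 ≤ Real.exp v := Real.one_le_exp hv
    rw [h1]
    nlinarith
  rcases le_total v u with h | h
  · rw [abs_of_nonneg (by linarith), abs_of_nonneg (by linarith [Real.exp_le_exp.2 h])]
    exact key u v hv h
  · rw [abs_sub_comm u v, abs_sub_comm (Real.exp u), abs_of_nonneg (by linarith),
      abs_of_nonneg (by linarith [Real.exp_le_exp.2 h])]
    exact key v u hu h

/-- **sublevel sets of exponential sums** -/
theorem sublevel (S ς : ℝ) (hS : 0 ≤ S) (hς : 0 < ς) {ι : Type} [DecidableEq ι] (s : ι → ℝ)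
    (hs : ∀ i, 0 ≤ s i ∧ s i ≤ S) (hsep : ∀ i j, i ≠ j → ς ≤ |s i - s j|) (i0 : ι) (I : Finset ι) :
    i0 ∉ I → ∀ (β : ι → ℝ) (b δ : ℝ), 0 < b → b ≤ |β i0| → 0 < δ →
      volume {α : ℝ | α ∈ Set.Icc (0 : ℝ) 1 ∧
        |β i0 * Real.exp (s i0 * α) + ∑ i ∈ I, β i * Real.exp (s i * α)| ≤ δ} ≤
      ENNReal.ofReal (3 * (δ * (2 * Real.exp S / ς) ^ I.card / b) ^ ((1 / 4 : ℝ) ^ I.card)) := by
  induction I using Finset.induction_on with
  | empty =>
    intro _ β b δ hb hb0 hδ
    rw [Finset.card_empty, pow_zero, pow_zero, mul_one, Real.rpow_one]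
    by_cases h : δ < b
    · have e : {α : ℝ | α ∈ Set.Icc (0 : ℝ) 1 ∧
          |β i0 * Real.exp (s i0 * α) + ∑ i ∈ (∅ : Finset ι), β i * Real.exp (s i * α)| ≤ δ} = ∅ := by
        apply Set.eq_empty_of_forall_notMem
        rintro α ⟨hα, h1⟩
        rw [Finset.sum_empty, add_zero, abs_mul, Real.abs_exp] at h1
        have h2 : 1 ≤ Real.exp (s i0 * α) := Real.one_le_exp (mul_nonneg (hs i0).1 hα.1)
        have h3 : 0 ≤ |β i0| := abs_nonneg _
        nlinarith
      rw [e, measure_empty]
      exact zero_le
    · push Not at h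
      refine (measure_mono fun α hα => hα.1).trans ?_
      rw [Real.volume_Icc]
      refine ENNReal.ofReal_le_ofReal ?_
      have : 1 ≤ δ / b := by rwa [le_div_iff₀ hb, one_mul]
      linarith
  | insert i1 I hi1 ih =>
    intro hi0 β b δ hb hb0 hδ
    rw [Finset.card_insert_of_notMem hi1]
    rw [Finset.mem_insert, not_or] at hi0
    obtain ⟨hne, hi0'⟩ := hi0
    set n := I.card with hn
    set y : ℝ := δ * (2 * Real.exp S / ς) ^ (n + 1) / b with hy
    have hy0 : 0 < y := by positivity
    set E : Set ℝ := {α : ℝ | α ∈ Set.Icc (0 : ℝ) 1 ∧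
        |β i0 * Real.exp (s i0 * α) + ∑ i ∈ insert i1 I, β i * Real.exp (s i * α)| ≤ δ} with hE
    have hE1 : E ⊆ Set.Icc 0 1 := fun α hα => hα.1
    have hEm : MeasurableSet E := by
      have hcont : Continuous fun α : ℝ =>
          |β i0 * Real.exp (s i0 * α) + ∑ i ∈ insert i1 I, β i * Real.exp (s i * α)| := by fun_prop
      exact measurableSet_Icc.inter (isClosed_le hcont continuous_const).measurableSet
    have hvE : volume E ≤ 1 := (measure_mono hE1).trans (by simp)
    by_cases hy1 : 1 ≤ y
    · refine hvE.trans ?_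
      rw [← ENNReal.ofReal_one]
      refine ENNReal.ofReal_le_ofReal ?_
      have := Real.one_le_rpow hy1 (by positivity : (0 : ℝ) ≤ (1 / 4) ^ (n + 1))
      linarith
    · push Not at hy1
      set κ : ℝ := y ^ (1 / 2 : ℝ) with hκ
      have hκ0 : 0 < κ := Real.rpow_pos_of_pos hy0 _
      set u : ℝ := y ^ ((1 / 2 : ℝ) * (1 / 4) ^ n) with hu
      have hu0 : 0 < u := Real.rpow_pos_of_pos hy0 _
      have hκu : κ ≤ u := by
        refine Real.rpow_le_rpow_of_exponent_ge hy0 hy1.le ?_
        have : (1 / 4 : ℝ) ^ n ≤ 1 := pow_le_one₀ (by norm_num) (by norm_num)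
        linarith
      have hstep : ∀ h : ℝ, κ ≤ h → h ≤ 1 → volume {a | a ∈ E ∧ a + h ∈ E} ≤ ENNReal.ofReal (3 * u) := by
        intro h hκh hh1
        have hh0 : 0 < h := lt_of_lt_of_le hκ0 hκh
        have hIH := ih hi0' (fun i => β i * (Real.exp (s i * h) - Real.exp (s i1 * h))) (b * (ς * h))
          (2 * Real.exp S * δ) (by positivity) ?_ (by positivity)
        · refine (measure_mono ?_).trans (hIH.trans (ENNReal.ofReal_le_ofReal ?_))
          · rintro a ⟨ha1, ha2⟩
            refine ⟨ha1.1, ?_⟩
            have h1 := ha1.2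
            have h2 := ha2.2
            have e1 : ∀ z : ℝ, β i0 * Real.exp (s i0 * z) + ∑ i ∈ insert i1 I, β i * Real.exp (s i * z) =
                β i0 * Real.exp (s i0 * z) + β i1 * Real.exp (s i1 * z) + ∑ i ∈ I, β i * Real.exp (s i * z) := by
              intro z
              rw [Finset.sum_insert hi1]
              ring
            rw [e1] at h1 h2
            have e2 : (β i0 * (Real.exp (s i0 * h) - Real.exp (s i1 * h))) * Real.exp (s i0 * a) +
                ∑ i ∈ I, (β i * (Real.exp (s i * h) - Real.exp (s i1 * h))) * Real.exp (s i * a) =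
                (β i0 * Real.exp (s i0 * (a + h)) + β i1 * Real.exp (s i1 * (a + h)) +
                  ∑ i ∈ I, β i * Real.exp (s i * (a + h))) -
                Real.exp (s i1 * h) * (β i0 * Real.exp (s i0 * a) + β i1 * Real.exp (s i1 * a) +
                  ∑ i ∈ I, β i * Real.exp (s i * a)) := by
              have e3 : ∀ i, Real.exp (s i * (a + h)) = Real.exp (s i * h) * Real.exp (s i * a) := by
                intro i
                rw [← Real.exp_add]
                congr 1
                ring
              simp only [e3]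
              have e4 : ∑ i ∈ I, (β i * (Real.exp (s i * h) - Real.exp (s i1 * h))) * Real.exp (s i * a) =
                  ∑ i ∈ I, β i * (Real.exp (s i * h) * Real.exp (s i * a)) -
                    Real.exp (s i1 * h) * ∑ i ∈ I, β i * Real.exp (s i * a) := by
                rw [Finset.mul_sum, ← Finset.sum_sub_distrib]
                exact Finset.sum_congr rfl fun i _ => by ring
              rw [e4]
              ring
            show |(β i0 * (Real.exp (s i0 * h) - Real.exp (s i1 * h))) * Real.exp (s i0 * a) +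
                ∑ i ∈ I, (β i * (Real.exp (s i * h) - Real.exp (s i1 * h))) * Real.exp (s i * a)| ≤
                2 * Real.exp S * δ
            rw [e2]
            refine (abs_sub _ _).trans ?_
            rw [abs_mul, Real.abs_exp]
            have h3 : Real.exp (s i1 * h) ≤ Real.exp S := by
              refine Real.exp_le_exp.2 ?_
              have := hs i1
              nlinarith [this.1, this.2]
            have h4 : 1 ≤ Real.exp S := Real.one_le_exp hS
            have h5 := mul_le_mul h3 h1 (abs_nonneg _) (by positivity)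
            nlinarith
          · have e1 : 2 * Real.exp S * δ * (2 * Real.exp S / ς) ^ n / (b * (ς * h)) = y / h := by
              rw [hy, pow_succ]
              field_simp
            rw [e1]
            have h6 : y / h ≤ y / κ := div_le_div_of_nonneg_left hy0.le hκ0 hκh
            have h7 : y / κ = y ^ (1 / 2 : ℝ) := by
              rw [div_eq_iff hκ0.ne', hκ, ← Real.rpow_add hy0]
              norm_num
            have h8 : (y / h) ^ ((1 / 4 : ℝ) ^ n) ≤ u := by
              rw [hu, Real.rpow_mul hy0.le, ← h7]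
              exact Real.rpow_le_rpow (by positivity) h6 (by positivity)
            linarith
        · rw [abs_mul]
          refine mul_le_mul hb0 ?_ (by positivity) (abs_nonneg _)
          have h9 := exp_diff (s i0 * h) (s i1 * h) (mul_nonneg (hs i0).1 hh0.le) (mul_nonneg (hs i1).1 hh0.le)
          have h10 : |s i0 * h - s i1 * h| = |s i0 - s i1| * h := by
            rw [← sub_mul, abs_mul, abs_of_pos hh0]
          rw [h10] at h9
          refine le_trans ?_ h9
          exact mul_le_mul_of_nonneg_right (hsep i0 i1 hne) hh0.le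
      have hsq := sub_sq E hEm hE1 κ (3 * u) hκ0.le (by positivity) hstep
      have hfin : volume E ≠ ⊤ := ne_top_of_le_ne_top ENNReal.one_ne_top hvE
      have hreal : (volume E).toReal * (volume E).toReal ≤ 2 * κ + 2 * (3 * u) := by
        rw [← ENNReal.toReal_mul]
        exact ENNReal.toReal_le_of_le_ofReal (by positivity) hsq
      rw [← ENNReal.ofReal_toReal hfin]
      refine ENNReal.ofReal_le_ofReal ?_
      have e2 : y ^ ((1 / 4 : ℝ) ^ (n + 1)) * y ^ ((1 / 4 : ℝ) ^ (n + 1)) = u := by
        rw [← Real.rpow_add hy0, hu]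
        congr 1
        rw [pow_succ]
        ring
      set v : ℝ := y ^ ((1 / 4 : ℝ) ^ (n + 1)) with hv
      have hv0 : 0 < v := Real.rpow_pos_of_pos hy0 _
      have h11 : (volume E).toReal * (volume E).toReal ≤ (3 * v) * (3 * v) := by nlinarith
      exact abs_le_of_sq_le_sq' (by nlinarith) (by positivity) |>.2

end Pool.Agent.Helper68K9.SG
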