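import Pool.Agent.Helper68K9.SG.RExp
import Pool.Agent.Helper68K9.SG.Sub

/-!
The family `c_j + Λ θ exp (s_j α)` with two parameters.
-/

set_option autoImplicit false

namespace Pool.Agent.Helper68K9.SG

open Finset Matrix MeasureTheory ProbabilityTheory

variable {J : Type} [Fintype J] [DecidableEq J]

/-- the unit vectors -/
def uv (x o : J) : ℝ := if x = o then 1 else 0

theorem dual_uv (δ : ℝ) (k : ℕ) : Dual (uv (J := J)) (fun _ => δ) δ k (k + 1) := by
  intro i hi w
  refine ⟨univ.image w, (card_image_le.trans (by simp)).trans hi.le, fun x hx => ?_⟩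
  refine ⟨fun o => if o = x then 1 else 0, ?_, ?_, ?_⟩
  · have e : ∀ o : J, |(if o = x then (1 : ℝ) else 0)| * δ = if o = x then δ else 0 := by
      intro o
      split_ifs <;> simp
    simp only [e]
    rw [sum_ite_eq' univ x, if_pos (mem_univ _)]
  · intro j
    refine sum_eq_zero fun o _ => ?_
    unfold uv
    by_cases h : o = x
    · have : w j ≠ o := by
        rintro h2
        exact hx (mem_image.2 ⟨j, mem_univ _, h2.trans h⟩)
      rw [if_neg this, mul_zero]
    · simp only [if_neg h, zero_mul]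
  · have e : ∑ o, (if o = x then (1 : ℝ) else 0) * uv x o = 1 := by
      rw [sum_eq_single x]
      · unfold uv; simp
      · intro o _ ho
        rw [if_neg ho, zero_mul]
      · intro h
        exact absurd (mem_univ _) h
    rw [e, abs_one]

theorem sum_uv {k : ℕ} (w : Fin (k + 1) → J) (n : Fin (k + 1) → ℕ) (f : J → ℝ) :
    ∑ o, lfR uv w n o * f o = ∑ i, (f (w i) - f (w (i + 1))) * Real.log (n i) := by
  unfold lfR
  simp only [sum_mul]
  rw [sum_comm]
  refine sum_congr rfl fun i _ => ?_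
  have e : ∀ o, (uv (w i) o - uv (w (i + 1)) o) * Real.log (n i) * f o =
      (if w i = o then f o * Real.log (n i) else 0) - (if w (i + 1) = o then f o * Real.log (n i) else 0) := by
    intro o
    unfold uv
    split_ifs <;> ring
  simp only [e]
  rw [sum_sub_distrib, sum_ite_eq univ, sum_ite_eq univ, if_pos (mem_univ _), if_pos (mem_univ _)]
  ring

theorem lf_uv_zero {k : ℕ} (w : Fin (k + 1) → J) (n : Fin (k + 1) → ℕ) (o : J) (ho : o ∉ univ.image w) :
    lfR uv w n o = 0 := by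
  unfold lfR
  refine sum_eq_zero fun i _ => ?_
  have h1 : ∀ i, w i ≠ o := fun i h => ho (mem_image.2 ⟨i, mem_univ _, h⟩)
  unfold uv
  rw [if_neg (h1 _), if_neg (h1 _)]
  simp

/-- the exponential sum of a walk is small on a small set -/
theorem walk_sub {k : ℕ} (S ς : ℝ) (hS : 0 ≤ S) (hς : 0 < ς) (s : J → ℝ) (hs : ∀ i, 0 ≤ s i ∧ s i ≤ S)
    (hsep : ∀ i j, i ≠ j → ς ≤ |s i - s j|) (hq : 1 ≤ 2 * Real.exp S / ς) (w : Fin (k + 1) → J)
    (n : Fin (k + 1) → ℕ) (δ g : ℝ) (hδ : 0 < δ) (hg : 0 < g)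
    (hy : g * (2 * Real.exp S / ς) ^ k / δ ≤ 1) (o : J) (ho : δ < |lfR uv w n o|) :
    volume {α : ℝ | α ∈ Set.Icc (0 : ℝ) 1 ∧
      |∑ i, (Real.exp (s (w i) * α) - Real.exp (s (w (i + 1)) * α)) * Real.log (n i)| ≤ g} ≤
      ENNReal.ofReal (3 * (g * (2 * Real.exp S / ς) ^ k / δ) ^ ((1 / 4 : ℝ) ^ k)) := by
  set V := univ.image w with hV
  have hoV : o ∈ V := by
    by_contra h
    rw [lf_uv_zero w n o h, abs_zero] at ho
    linarith
  set I := V.erase o with hI
  have hIk : I.card ≤ k := by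
    have h1 : V.card ≤ k + 1 := card_image_le.trans (by simp)
    have h2 : I.card = V.card - 1 := card_erase_of_mem hoV
    omega
  have h1 := sublevel S ς hS hς s hs hsep o I (notMem_erase o V) (fun i => lfR uv w n i) δ g hδ ho.le hg
  have e : ∀ α : ℝ, lfR uv w n o * Real.exp (s o * α) + ∑ i ∈ I, lfR uv w n i * Real.exp (s i * α) =
      ∑ i, (Real.exp (s (w i) * α) - Real.exp (s (w (i + 1)) * α)) * Real.log (n i) := by
    intro α
    rw [← sum_uv w n fun i => Real.exp (s i * α), hI,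
      add_sum_erase V (fun i => lfR uv w n i * Real.exp (s i * α)) hoV]
    refine sum_subset (subset_univ _) fun i _ hi => ?_
    rw [lf_uv_zero w n i hi, zero_mul]
  simp only [e] at h1
  refine h1.trans (ENNReal.ofReal_le_ofReal ?_)
  refine mul_le_mul_of_nonneg_left ?_ (by norm_num)
  set Q : ℝ := 2 * Real.exp S / ς with hQ
  have hQ0 : 0 < Q := by positivity
  have hy0 : 0 < g * Q ^ k / δ := by positivity
  have h2 : g * Q ^ I.card / δ ≤ g * Q ^ k / δ := by
    refine div_le_div_of_nonneg_right (mul_le_mul_of_nonneg_left (pow_le_pow_right₀ hq hIk) hg.le) hδ.le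
  calc (g * Q ^ I.card / δ) ^ ((1 / 4 : ℝ) ^ I.card) ≤ (g * Q ^ k / δ) ^ ((1 / 4 : ℝ) ^ I.card) :=
        Real.rpow_le_rpow (by positivity) h2 (by positivity)
    _ ≤ (g * Q ^ k / δ) ^ ((1 / 4 : ℝ) ^ k) := by
        refine Real.rpow_le_rpow_of_exponent_ge hy0 hy ?_
        exact pow_le_pow_of_le_one (by norm_num) (by norm_num) hIk

/-- the points -/
noncomputable def pP (c s : J → ℝ) (Λ : ℝ) (p : ℝ × ℝ) (j : J) : ℝ := c j + Λ * p.1 * Real.exp (s j * p.2)

/-- Gaussian times uniform on `[0, 1]` -/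
noncomputable def mu2 : Measure (ℝ × ℝ) := (gaussianReal 0 1).prod (volume.restrict (Set.Icc 0 1))

instance : IsProbabilityMeasure ((volume : Measure ℝ).restrict (Set.Icc 0 1)) :=
  ⟨by rw [Measure.restrict_apply_univ, Real.volume_Icc]; norm_num⟩

instance : IsProbabilityMeasure mu2 := by unfold mu2; infer_instance

omit [Fintype J] [DecidableEq J] in
theorem cont_pP (c s : J → ℝ) (Λ : ℝ) (j : J) : Continuous fun p => pP c s Λ p j := by
  unfold pP
  fun_prop

omit [Fintype J] in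
/-- one term of the expansion of the trace -/
theorem term_pP [Fintype J] {k : ℕ} (c s : J → ℝ) (Λ : ℝ) (hΛ : 0 < Λ) (S ς : ℝ) (hS : 0 ≤ S) (hς : 0 < ς)
    (hs : ∀ i, 0 ≤ s i ∧ s i ≤ S)
    (hsep : ∀ i j, i ≠ j → ς ≤ |s i - s j|) (hq : 1 ≤ 2 * Real.exp S / ς) (δ h : ℝ) (hδ : 0 < δ) (hh : 0 ≤ h)
    (hy : (h + 1) / Λ * (2 * Real.exp S / ς) ^ k / δ ≤ 1) (w : Fin (k + 1) → J) (n : Fin (k + 1) → ℕ) :
    ‖∫ p, Complex.exp ((-(∑ i, (pP c s Λ p (w i) - pP c s Λ p (w (i + 1))) * Real.log (n i)) : ℝ) * Complex.I)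
      ∂mu2‖ ≤ (if (∀ o, |lfR uv w n o| ≤ δ) then 1 else 0) + (Real.exp (-(h ^ 2 / 2)) +
        3 * ((h + 1) / Λ * (2 * Real.exp S / ς) ^ k / δ) ^ ((1 / 4 : ℝ) ^ k)) := by
  classical
  set F : ℝ → ℝ := fun α => ∑ i, (Real.exp (s (w i) * α) - Real.exp (s (w (i + 1)) * α)) * Real.log (n i) with hF
  set C0 : ℝ := ∑ i, (c (w i) - c (w (i + 1))) * Real.log (n i) with hC0
  have hFc : Continuous F := by
    rw [hF]
    fun_prop
  have e1 : ∀ p : ℝ × ℝ, (∑ i, (pP c s Λ p (w i) - pP c s Λ p (w (i + 1))) * Real.log (n i)) =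
      C0 + p.1 * (Λ * F p.2) := by
    intro p
    rw [hC0, hF]
    simp only [mul_sum]
    rw [← sum_add_distrib]
    refine sum_congr rfl fun i _ => ?_
    unfold pP
    ring
  have e2 : ∀ p : ℝ × ℝ, Complex.exp ((-(∑ i, (pP c s Λ p (w i) - pP c s Λ p (w (i + 1))) * Real.log (n i)) : ℝ)
      * Complex.I) = Complex.exp ((-C0 : ℝ) * Complex.I) * Complex.exp ((-(p.1 * (Λ * F p.2)) : ℝ) * Complex.I) := by
    intro p
    rw [e1, ← Complex.exp_add]
    congr 1
    push_cast
    ring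
  simp only [e2]
  rw [integral_const_mul, norm_mul, Complex.norm_exp_ofReal_mul_I, one_mul]
  have hint : Integrable (fun p : ℝ × ℝ => Complex.exp ((-(p.1 * (Λ * F p.2)) : ℝ) * Complex.I))
      ((gaussianReal 0 1).prod (volume.restrict (Set.Icc 0 1))) := by
    refine Integrable.of_bound (C := 1) ?_ (Filter.Eventually.of_forall fun p => ?_)
    · refine Continuous.aestronglyMeasurable ?_
      refine Complex.continuous_exp.comp ((Complex.continuous_ofReal.comp ?_).mul continuous_const)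
      exact (continuous_fst.mul (continuous_const.mul (hFc.comp continuous_snd))).neg
    · rw [Complex.norm_exp_ofReal_mul_I]
  unfold mu2
  rw [integral_prod_symm _ hint]
  have e3 : ∀ α : ℝ, ∫ x : ℝ, Complex.exp ((-((x, α).1 * (Λ * F (x, α).2)) : ℝ) * Complex.I) ∂(gaussianReal 0 1) =
      Complex.exp ((-((Λ * F α) ^ 2 / 2)) : ℝ) := fun α => int_one (Λ * F α)
  simp only [e3]
  refine (norm_integral_le_integral_norm _).trans ?_
  have e4 : ∀ α : ℝ, ‖Complex.exp ((-((Λ * F α) ^ 2 / 2)) : ℝ)‖ = Real.exp (-((Λ * F α) ^ 2 / 2)) := by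
    intro α
    rw [Complex.norm_exp, Complex.ofReal_re]
  simp only [e4]
  have hle1 : ∀ α : ℝ, Real.exp (-((Λ * F α) ^ 2 / 2)) ≤ 1 := by
    intro α
    rw [Real.exp_le_one_iff]
    have : 0 ≤ (Λ * F α) ^ 2 / 2 := by positivity
    linarith
  have hinte : Integrable (fun α : ℝ => Real.exp (-((Λ * F α) ^ 2 / 2))) (volume.restrict (Set.Icc 0 1)) := by
    refine Integrable.of_bound (C := 1) ?_ (Filter.Eventually.of_forall fun α => ?_)
    · refine Continuous.aestronglyMeasurable ?_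
      exact Real.continuous_exp.comp ((((continuous_const.mul hFc).pow 2).div_const 2).neg)
    · rw [Real.norm_of_nonneg (Real.exp_pos _).le]
      exact hle1 α
  have hyy : 0 ≤ 3 * ((h + 1) / Λ * (2 * Real.exp S / ς) ^ k / δ) ^ ((1 / 4 : ℝ) ^ k) := by positivity
  split_ifs with hc
  · have h1 : ∫ α, Real.exp (-((Λ * F α) ^ 2 / 2)) ∂(volume.restrict (Set.Icc (0 : ℝ) 1)) ≤
        ∫ _, (1 : ℝ) ∂(volume.restrict (Set.Icc (0 : ℝ) 1)) :=
      integral_mono hinte (integrable_const 1) hle1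
    rw [integral_const, probReal_univ, one_smul] at h1
    have := Real.exp_pos (-(h ^ 2 / 2))
    linarith
  · push Not at hc
    obtain ⟨o, ho⟩ := hc
    have hg : 0 < (h + 1) / Λ := by positivity
    have hvol := walk_sub S ς hS hς s hs hsep hq w n δ ((h + 1) / Λ) hδ hg hy o ho
    set E : Set ℝ := {α : ℝ | |F α| ≤ (h + 1) / Λ} with hE
    have hEm : MeasurableSet E := (isClosed_le hFc.abs continuous_const).measurableSet
    have h2 : ∀ α, Real.exp (-((Λ * F α) ^ 2 / 2)) ≤ E.indicator (fun _ => (1 : ℝ)) α + Real.exp (-(h ^ 2 / 2)) := by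
      intro α
      by_cases hα : α ∈ E
      · rw [Set.indicator_of_mem hα]
        linarith [hle1 α, Real.exp_pos (-(h ^ 2 / 2))]
      · rw [Set.indicator_of_notMem hα, zero_add, Real.exp_le_exp]
        have h3 : (h + 1) / Λ < |F α| := not_le.1 hα
        have h4 : h ≤ |Λ * F α| := by
          rw [abs_mul, abs_of_pos hΛ]
          rw [div_lt_iff₀ hΛ] at h3
          linarith
        have h5 : h ^ 2 ≤ (Λ * F α) ^ 2 := by
          rw [← sq_abs (Λ * F α)]
          exact pow_le_pow_left₀ hh h4 2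
        linarith
    have h3 : ∫ α, Real.exp (-((Λ * F α) ^ 2 / 2)) ∂(volume.restrict (Set.Icc (0 : ℝ) 1)) ≤
        ∫ α, (E.indicator (fun _ => (1 : ℝ)) α + Real.exp (-(h ^ 2 / 2))) ∂(volume.restrict (Set.Icc (0 : ℝ) 1)) :=
      integral_mono hinte (((integrable_const 1).indicator hEm).add (integrable_const _)) h2
    rw [integral_add ((integrable_const 1).indicator hEm) (integrable_const _), integral_const, probReal_univ,
      one_smul, integral_indicator_const _ hEm, smul_eq_mul, mul_one] at h3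
    have h4 : (volume.restrict (Set.Icc (0 : ℝ) 1)).real E ≤
        3 * ((h + 1) / Λ * (2 * Real.exp S / ς) ^ k / δ) ^ ((1 / 4 : ℝ) ^ k) := by
      refine ENNReal.toReal_le_of_le_ofReal hyy ?_
      rw [Measure.restrict_apply hEm]
      refine le_trans (le_of_eq ?_) hvol
      congr 1
      ext α
      simp only [Set.mem_inter_iff, Set.mem_ofPred_eq, hE, hF]
      exact and_comm
    linarith

/-- the bound for the expectation of the trace -/
theorem int_tracePP {k N : ℕ} (hN : 1 ≤ N) (c s : J → ℝ) (Λ : ℝ) (hΛ : 0 < Λ) (S ς : ℝ) (hS : 0 ≤ S) (hς : 0 < ς)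
    (hs : ∀ i, 0 ≤ s i ∧ s i ≤ S)
    (hsep : ∀ i j, i ≠ j → ς ≤ |s i - s j|) (hq : 1 ≤ 2 * Real.exp S / ς) (h : ℝ) (hh : 0 ≤ h)
    (hy : (h + 1) / Λ * (2 * Real.exp S / ς) ^ k * (8 * N) ≤ 1) :
    ‖∫ p, ((MM N (pP c s Λ p)) ^ (k + 1)).trace ∂mu2‖ ≤
      N * (Fintype.card J + (k + 1) * N) ^ (k + 1) +
      (Fintype.card J * N) ^ (k + 1) * (Real.exp (-(h ^ 2 / 2)) +
        3 * ((h + 1) / Λ * (2 * Real.exp S / ς) ^ k * (8 * N)) ^ ((1 / 4 : ℝ) ^ k)) := by
  classical
  have hN0 : (0 : ℝ) < N := by exact_mod_cast hN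
  set δ : ℝ := 1 / (8 * N) with hδ
  have hδ0 : 0 < δ := by positivity
  have hdiv : ∀ z : ℝ, z / δ = z * (8 * N) := by
    intro z
    rw [hδ]
    field_simp
  simp only [trace_MM]
  have hint : ∀ (w : Fin (k + 1) → J) (n : Fin (k + 1) → ℕ), Integrable (fun p : ℝ × ℝ =>
      Complex.exp ((-(∑ i, (pP c s Λ p (w i) - pP c s Λ p (w (i + 1))) * Real.log (n i)) : ℝ) * Complex.I))
      mu2 := by
    intro w n
    refine Integrable.of_bound (C := 1) ?_ (Filter.Eventually.of_forall fun θ => ?_)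
    · refine Continuous.aestronglyMeasurable ?_
      refine Complex.continuous_exp.comp ((Complex.continuous_ofReal.comp ?_).mul continuous_const)
      refine (continuous_finset_sum _ fun i _ => ?_).neg
      exact ((cont_pP c s Λ _).sub (cont_pP c s Λ _)).mul continuous_const
    · rw [Complex.norm_exp_ofReal_mul_I]
  rw [integral_finset_sum _ fun w _ => integrable_finset_sum _ fun n _ => hint w n]
  have e1 : ∀ w : Fin (k + 1) → J, ∫ p, ∑ n ∈ Fintype.piFinset (fun _ : Fin (k + 1) => Icc 1 N),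
      Complex.exp ((-(∑ i, (pP c s Λ p (w i) - pP c s Λ p (w (i + 1))) * Real.log (n i)) : ℝ) * Complex.I)
      ∂mu2 = ∑ n ∈ Fintype.piFinset (fun _ : Fin (k + 1) => Icc 1 N), ∫ p,
      Complex.exp ((-(∑ i, (pP c s Λ p (w i) - pP c s Λ p (w (i + 1))) * Real.log (n i)) : ℝ) * Complex.I)
      ∂mu2 := fun w => integral_finset_sum _ fun n _ => hint w n
  simp only [e1]
  set T : ℝ := Real.exp (-(h ^ 2 / 2)) +
        3 * ((h + 1) / Λ * (2 * Real.exp S / ς) ^ k * (8 * N)) ^ ((1 / 4 : ℝ) ^ k) with hT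
  have e2 : ∀ (w : Fin (k + 1) → J) (n : Fin (k + 1) → ℕ),
      ‖∫ p, Complex.exp ((-(∑ i, (pP c s Λ p (w i) - pP c s Λ p (w (i + 1))) * Real.log (n i)) : ℝ) * Complex.I)
        ∂mu2‖ ≤ (if (∀ o, |lfR uv w n o| ≤ δ) then 1 else 0) + T := by
    intro w n
    have h1 := term_pP c s Λ hΛ S ς hS hς hs hsep hq δ h hδ0 hh (by rw [hdiv]; exact hy) w n
    rw [hdiv] at h1
    exact h1
  have hsum : ‖∑ w : Fin (k + 1) → J, ∑ n ∈ Fintype.piFinset (fun _ : Fin (k + 1) => Icc 1 N), ∫ p,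
      Complex.exp ((-(∑ i, (pP c s Λ p (w i) - pP c s Λ p (w (i + 1))) * Real.log (n i)) : ℝ) * Complex.I)
      ∂mu2‖ ≤ ∑ w : Fin (k + 1) → J, ∑ n ∈ Fintype.piFinset (fun _ : Fin (k + 1) => Icc 1 N),
        ((if (∀ o, |lfR uv w n o| ≤ δ) then (1 : ℝ) else 0) + T) := by
    refine (norm_sum_le _ _).trans (sum_le_sum fun w _ => ?_)
    exact (norm_sum_le _ _).trans (sum_le_sum fun n _ => e2 w n)
  refine hsum.trans ?_
  simp only [sum_add_distrib, sum_const, Fintype.card_piFinset_const, Nat.card_Icc, Nat.add_sub_cancel,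
    nsmul_eq_mul, card_univ, Fintype.card_fun, Fintype.card_fin]
  refine add_le_add ?_ (le_of_eq ?_)
  · have h1 := card_allR hN (k := k) (F := k + 1) (uv (J := J)) (fun _ => δ) δ (dual_uv δ k)
    have h0 : ⌊4 * δ * (N : ℝ)⌋₊ = 0 := by
      rw [Nat.floor_eq_zero, hδ]
      have : 4 * (1 / (8 * (N : ℝ))) * N = 1 / 2 := by field_simp; norm_num
      rw [this]
      norm_num
    rw [h0] at h1
    have h2 : ∑ w : Fin (k + 1) → J, ∑ n ∈ Fintype.piFinset (fun _ : Fin (k + 1) => Icc 1 N),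
        (if (∀ o, |lfR uv w n o| ≤ δ) then (1 : ℝ) else 0) =
        ((∑ w : Fin (k + 1) → J, ((Fintype.piFinset fun _ : Fin (k + 1) => Icc 1 N).filter
          fun n => ∀ o, |lfR uv w n o| ≤ δ).card : ℕ) : ℝ) := by
      push_cast
      refine sum_congr rfl fun w _ => ?_
      rw [← sum_filter, sum_const, nsmul_eq_mul, mul_one]
    rw [h2]
    have h3 : ((∑ w : Fin (k + 1) → J, ((Fintype.piFinset fun _ : Fin (k + 1) => Icc 1 N).filter
          fun n => ∀ o, |lfR uv w n o| ≤ δ).card : ℕ) : ℝ) ≤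
        ((N * (Fintype.card J * (0 + 1) + (k + 1) * N) ^ (k + 1) : ℕ) : ℝ) := by
      exact_mod_cast h1
    refine h3.trans (le_of_eq ?_)
    push_cast
    ring
  · push_cast
    ring

end Pool.Agent.Helper68K9.SG
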