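import Pool.Agent.Helper68K9.SG.KWa
import Pool.Agent.Helper68K9.SG.Pow

/-!
The average of the trace over a `k`-wise independent family.
-/

set_option autoImplicit false

namespace Pool.Agent.Helper68K9.SG

open Finset Matrix

variable {J : Type} [Fintype J] [DecidableEq J]

/-- `k`-wise independence and uniformity of the coordinates -/
def KW {Ω J : Type} [Fintype Ω] {T : ℕ} (k : ℕ) (u : Ω → J → Fin T) : Prop :=
  ∀ (V : Finset J) (v : J → Fin T), V.card ≤ k →
    Nat.card {ω : Ω // ∀ j ∈ V, u ω j = v j} * T ^ V.card = Fintype.card Ω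

omit [Fintype J] in
theorem kwise_prod {Ω : Type} [Fintype Ω] {T k : ℕ} (hT : 1 ≤ T) (u : Ω → J → Fin T) (hu : KW k u)
    (V : Finset J) (hV : V.card ≤ k) (ψ : J → Fin T → ℂ) :
    ∑ ω, ∏ j ∈ V, ψ j (u ω j) = Fintype.card Ω * ∏ j ∈ V, ((∑ a, ψ j a) / T) := by
  classical
  have hT0 : (T : ℂ) ≠ 0 := by exact_mod_cast (by omega : T ≠ 0)
  have e1 : ∀ ω j, ψ j (u ω j) = ∑ a, ψ j a * (if u ω j = a then 1 else 0) := by
    intro ω j
    simp
  simp only [e1]
  simp only [prod_sum]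
  rw [sum_comm]
  have e2 : ∀ p : (a : J) → a ∈ V → Fin T, ∑ ω, ∏ x ∈ V.attach, ψ x.1 (p x.1 x.2) *
      (if u ω x.1 = p x.1 x.2 then (1 : ℂ) else 0) =
      (∏ x ∈ V.attach, ψ x.1 (p x.1 x.2)) * (Fintype.card Ω / (T : ℂ) ^ V.card) := by
    intro p
    simp only [prod_mul_distrib]
    rw [← mul_sum]
    congr 1
    set v : J → Fin T := fun j => if h : j ∈ V then p j h else ⟨0, hT⟩ with hv
    have h1 := hu V v hV
    have h2 : ∀ ω, (∏ x ∈ V.attach, (if u ω x.1 = p x.1 x.2 then (1 : ℂ) else 0)) =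
        if (∀ j ∈ V, u ω j = v j) then 1 else 0 := by
      intro ω
      by_cases h : ∀ j ∈ V, u ω j = v j
      · rw [if_pos h]
        refine prod_eq_one fun x _ => ?_
        have h3 := h x.1 x.2
        rw [hv] at h3
        simp only [dif_pos x.2] at h3
        rw [if_pos h3]
      · rw [if_neg h]
        push Not at h
        obtain ⟨j, hj, hne⟩ := h
        refine prod_eq_zero (mem_attach V ⟨j, hj⟩) ?_
        rw [hv] at hne
        simp only [dif_pos hj] at hne
        rw [if_neg hne]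
    rw [sum_congr rfl fun ω _ => h2 ω, sum_boole]
    rw [Nat.card_eq_fintype_card, Fintype.card_subtype] at h1
    rw [eq_div_iff (pow_ne_zero _ hT0)]
    exact_mod_cast h1
  rw [sum_congr rfl fun p _ => e2 p, ← sum_mul]
  have e3 : ∏ j ∈ V, ((∑ a, ψ j a) / (T : ℂ)) = (∏ j ∈ V, ∑ a, ψ j a) / (T : ℂ) ^ V.card := by
    rw [prod_div_distrib, prod_const]
  rw [e3, prod_sum]
  ring

/-- the points -/
noncomputable def ptK {T : ℕ} (c : J → ℝ) (u : J → Fin T) (j : J) : ℝ := c j + ((u j : ℕ) : ℝ)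

/-- one term -/
theorem term_K {Ω : Type} [Fintype Ω] {T k : ℕ} (hT : 1 ≤ T) (u : Ω → J → Fin T) (hu : KW (k + 1) u) (c : J → ℝ)
    (w : Fin (k + 1) → J) (n : Fin (k + 1) → ℕ) :
    ‖∑ ω, Complex.exp ((-(∑ i, (ptK c (u ω) (w i) - ptK c (u ω) (w (i + 1))) * Real.log (n i)) : ℝ) * Complex.I)‖ =
      Fintype.card Ω * ∏ o ∈ univ.image w, ‖phi T (lfR uv w n o)‖ := by
  classical
  set V := univ.image w with hV
  have hVc : V.card ≤ k + 1 := card_image_le.trans (by simp)
  set C0 : ℝ := ∑ i, (c (w i) - c (w (i + 1))) * Real.log (n i) with hC0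
  have e1 : ∀ ω, (∑ i, (ptK c (u ω) (w i) - ptK c (u ω) (w (i + 1))) * Real.log (n i)) =
      C0 + ∑ o ∈ V, lfR uv w n o * ((u ω o : ℕ) : ℝ) := by
    intro ω
    have h1 := sum_uv w n fun o => ((u ω o : ℕ) : ℝ)
    have h2 : ∑ o ∈ V, lfR uv w n o * ((u ω o : ℕ) : ℝ) = ∑ o, lfR uv w n o * ((u ω o : ℕ) : ℝ) := by
      refine sum_subset (subset_univ _) fun o _ ho => ?_
      rw [lf_uv_zero w n o ho, zero_mul]
    rw [h2, h1, hC0, ← sum_add_distrib]
    refine sum_congr rfl fun i _ => ?_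
    unfold ptK
    ring
  have e2 : ∀ ω, Complex.exp ((-(∑ i, (ptK c (u ω) (w i) - ptK c (u ω) (w (i + 1))) * Real.log (n i)) : ℝ)
      * Complex.I) = Complex.exp ((-C0 : ℝ) * Complex.I) *
        ∏ o ∈ V, Complex.exp ((-(lfR uv w n o * ((u ω o : ℕ) : ℝ)) : ℝ) * Complex.I) := by
    intro ω
    rw [e1, ← Complex.exp_sum, ← Complex.exp_add]
    congr 1
    push_cast
    rw [neg_add, add_mul, ← sum_neg_distrib, sum_mul]
  simp only [e2]
  rw [← mul_sum, norm_mul, Complex.norm_exp_ofReal_mul_I, one_mul,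
    kwise_prod hT u hu V hVc fun o a => Complex.exp ((-(lfR uv w n o * ((a : ℕ) : ℝ)) : ℝ) * Complex.I),
    norm_mul, Complex.norm_natCast, norm_prod]
  rfl

/-- the weight of the coordinate `i` -/
noncomputable def gK (T : ℕ) {k : ℕ} (w : Fin (k + 1) → J) (i : Fin (k + 1)) (n : Fin (k + 1) → ℕ) : ℝ :=
  Fin.lastCases (motive := fun _ => ℝ) 1
    (fun i' => if w i'.succ ∈ univ.image (ini w i'.succ i'.succ.2.le) then 1
      else ‖phi T (lfR uv w n (w i'.succ))‖) i

theorem gK_cast (T : ℕ) {k : ℕ} (w : Fin (k + 1) → J) (i : Fin k) (n : Fin (k + 1) → ℕ) :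
    gK T w i.castSucc n = if w i.succ ∈ univ.image (ini w i.succ i.succ.2.le) then 1
      else ‖phi T (lfR uv w n (w i.succ))‖ := by
  unfold gK
  rw [Fin.lastCases_castSucc]

theorem gK_last (T : ℕ) {k : ℕ} (w : Fin (k + 1) → J) (n : Fin (k + 1) → ℕ) : gK T w (Fin.last k) n = 1 := by
  unfold gK
  rw [Fin.lastCases_last]

theorem gK_nonneg (T : ℕ) {k : ℕ} (w : Fin (k + 1) → J) (i : Fin (k + 1)) (n : Fin (k + 1) → ℕ) : 0 ≤ gK T w i n := by
  rcases Fin.eq_castSucc_or_eq_last i with ⟨i', rfl⟩ | rfl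
  · rw [gK_cast]
    split_ifs
    · exact zero_le_one
    · exact norm_nonneg _
  · rw [gK_last]
    exact zero_le_one

/-- the coefficients of a new vertex -/
theorem coef_new {k : ℕ} (w : Fin (k + 1) → J) (i : Fin k)
    (hnew : w i.succ ∉ univ.image (ini w i.succ i.succ.2.le)) (j : Fin (k + 1)) :
    (j < i.castSucc → uv (w j) (w i.succ) - uv (w (j + 1)) (w i.succ) = 0) ∧
    (j = i.castSucc → uv (w j) (w i.succ) - uv (w (j + 1)) (w i.succ) = -1) := by
  have hne : ∀ j : Fin (k + 1), (j : ℕ) < (i.succ : ℕ) → w j ≠ w i.succ := by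
    intro j hj h
    exact hnew (mem_image.2 ⟨⟨j, hj⟩, mem_univ _, h⟩)
  unfold uv
  constructor
  · intro hj
    have a1 : (j : ℕ) < i := by simpa [Fin.lt_def] using hj
    have a2 : j.val + 1 < k + 1 := by omega
    have a3 : ((j + 1 : Fin (k + 1)) : ℕ) = j + 1 := by
      rw [Fin.val_add_one_of_lt']
      exact a2
    rw [if_neg (hne j (by simp; omega)), if_neg (hne (j + 1) (by rw [a3]; simp; omega)), sub_zero]
  · rintro rfl
    rw [if_neg (hne i.castSucc (by simp)), Fin.coeSucc_eq_succ, if_pos rfl, zero_sub]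

/-- the product of the averages is at most the product of the weights -/
theorem prod_phi_le (T : ℕ) {k : ℕ} (w : Fin (k + 1) → J) (n : Fin (k + 1) → ℕ) :
    ∏ o ∈ univ.image w, ‖phi T (lfR uv w n o)‖ ≤ ∏ i, gK T w i n := by
  classical
  rw [Fin.prod_univ_castSucc, gK_last, mul_one]
  simp only [gK_cast]
  set I : Finset (Fin k) := univ.filter fun i : Fin k => w i.succ ∉ univ.image (ini w i.succ i.succ.2.le) with hI
  have e1 : ∏ i : Fin k, (if w i.succ ∈ univ.image (ini w i.succ i.succ.2.le) then 1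
      else ‖phi T (lfR uv w n (w i.succ))‖) = ∏ i ∈ I, ‖phi T (lfR uv w n (w i.succ))‖ := by
    rw [hI, prod_filter]
    refine prod_congr rfl fun i _ => ?_
    by_cases h : w i.succ ∈ univ.image (ini w i.succ i.succ.2.le)
    · rw [if_pos h, if_neg (not_not.2 h)]
    · rw [if_neg h, if_pos h]
  have hinj : Set.InjOn (fun i : Fin k => w i.succ) I := by
    have key : ∀ i j : Fin k, j ∈ I → i < j → w i.succ ≠ w j.succ := by
      intro i j hj hij h
      rw [hI, mem_filter] at hj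
      have : (i.succ : ℕ) < (j.succ : ℕ) := by simpa using hij
      exact hj.2 (mem_image.2 ⟨⟨i.succ, this⟩, mem_univ _, h⟩)
    intro i hi j hj hij
    rcases lt_trichotomy i j with h | h | h
    · exact absurd hij (key i j hj h)
    · exact h
    · exact absurd hij.symm (key j i hi h)
  have e2 : ∏ i ∈ I, ‖phi T (lfR uv w n (w i.succ))‖ =
      ∏ o ∈ I.image (fun i => w i.succ), ‖phi T (lfR uv w n o)‖ := by
    rw [prod_image hinj]
  rw [e1, e2]
  have hsub : I.image (fun i => w i.succ) ⊆ univ.image w := by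
    intro o ho
    obtain ⟨i, _, rfl⟩ := mem_image.1 ho
    exact mem_image.2 ⟨i.succ, mem_univ _, rfl⟩
  rw [← prod_sdiff hsub]
  have h1 : ∏ o ∈ univ.image w \ I.image (fun i => w i.succ), ‖phi T (lfR uv w n o)‖ ≤ 1 :=
    prod_le_one (fun _ _ => norm_nonneg _) fun _ _ => phi_le_one _ _
  calc _ ≤ 1 * ∏ o ∈ I.image (fun i => w i.succ), ‖phi T (lfR uv w n o)‖ :=
        mul_le_mul_of_nonneg_right h1 (prod_nonneg fun _ _ => norm_nonneg _)
    _ = _ := one_mul _

/-- the number of the vertices already visited -/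
def ZK (i : ℕ) (s : Fin i → J) : Finset J := univ.image s

/-- the sum over `n` for a given walk -/
theorem sum_walk (T N W : ℕ) (hN : 1 ≤ N) (hW1 : 1 ≤ W)
    (hW : ∀ L : ℝ, ∑ m ∈ Icc 1 N, ‖phi T (L - Real.log m)‖ ≤ W) {k : ℕ} (w : Fin (k + 1) → J) :
    ∑ n ∈ Fintype.piFinset (fun _ : Fin (k + 1) => Icc 1 N), ∏ o ∈ univ.image w, ‖phi T (lfR uv w n o)‖ ≤
      ((N * ∏ i : Fin (k + 1), rhoR ZK W N i (ini w i i.2.le) (w i) : ℕ) : ℝ) := by
  classical
  refine (sum_le_sum fun n _ => prod_phi_le T w n).trans ?_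
  set Wt : Fin (k + 1) → ℝ := Fin.snoc (α := fun _ => ℝ)
    (fun i : Fin k => (rhoR ZK W N i.succ (ini w i.succ i.succ.2.le) (w i.succ) : ℝ)) N with hWt
  have h1 := sum_le_prod (Icc 1 N) (k + 1) (gK T w) Wt (gK_nonneg T w) ?_ ?_
  · refine h1.trans ?_
    rw [Fin.prod_univ_castSucc]
    simp only [hWt, Fin.snoc_castSucc, Fin.snoc_last]
    rw [← Nat.cast_prod, ← Nat.cast_mul]
    have h2 : 1 ≤ rhoR ZK W N (0 : Fin (k + 1)) (ini w (0 : Fin (k + 1)) (0 : Fin (k + 1)).2.le) (w 0) := by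
      unfold rhoR
      split_ifs
      · exact hN
      · exact hW1
    have h3 : (∏ i : Fin k, rhoR ZK W N i.succ (ini w i.succ i.succ.2.le) (w i.succ)) * N ≤
        N * ∏ i : Fin (k + 1), rhoR ZK W N i (ini w i i.2.le) (w i) := by
      rw [Fin.prod_univ_succ]
      calc (∏ i : Fin k, rhoR ZK W N i.succ (ini w i.succ i.succ.2.le) (w i.succ)) * N
          = N * (1 * ∏ i : Fin k, rhoR ZK W N i.succ (ini w i.succ i.succ.2.le) (w i.succ)) := by ring
        _ ≤ _ := Nat.mul_le_mul_left _ (Nat.mul_le_mul_right _ h2)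
    exact_mod_cast h3
  · intro i n n' hnn
    rcases Fin.eq_castSucc_or_eq_last i with ⟨i', rfl⟩ | rfl
    · rw [gK_cast, gK_cast]
      by_cases hnew : w i'.succ ∈ univ.image (ini w i'.succ i'.succ.2.le)
      · rw [if_pos hnew, if_pos hnew]
      · rw [if_neg hnew, if_neg hnew]
        congr 2
        unfold lfR
        refine sum_congr rfl fun j _ => ?_
        rcases lt_or_ge j i'.castSucc with hj | hj
        · rw [(coef_new w i' hnew j).1 hj, zero_mul, zero_mul]
        · rw [hnn j hj]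
    · rw [gK_last, gK_last]
  · intro i n
    rcases Fin.eq_castSucc_or_eq_last i with ⟨i', rfl⟩ | rfl
    · have e : Wt i'.castSucc = (rhoR ZK W N i'.succ (ini w i'.succ i'.succ.2.le) (w i'.succ) : ℝ) := by
        rw [hWt, Fin.snoc_castSucc]
      rw [e]
      simp only [gK_cast]
      unfold rhoR
      by_cases hnew : w i'.succ ∈ univ.image (ini w i'.succ i'.succ.2.le)
      · have h3 : w i'.succ ∈ ZK i'.succ (ini w i'.succ i'.succ.2.le) := hnew
        rw [if_pos h3]
        simp only [if_pos hnew]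
        simp
      · have h3 : w i'.succ ∉ ZK i'.succ (ini w i'.succ i'.succ.2.le) := hnew
        rw [if_neg h3]
        simp only [if_neg hnew]
        set L : ℝ := ∑ j ∈ univ.erase i'.castSucc,
          (uv (w j) (w i'.succ) - uv (w (j + 1)) (w i'.succ)) * Real.log (n j) with hL
        have h4 : ∀ b : ℕ, lfR uv w (Function.update n i'.castSucc b) (w i'.succ) = L - Real.log b := by
          intro b
          unfold lfR
          rw [← add_sum_erase univ _ (mem_univ i'.castSucc), Function.update_self,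
            (coef_new w i' hnew i'.castSucc).2 rfl, hL]
          have h5 : ∑ j ∈ univ.erase i'.castSucc, (uv (w j) (w i'.succ) - uv (w (j + 1)) (w i'.succ)) *
              Real.log ((Function.update n i'.castSucc b) j) = ∑ j ∈ univ.erase i'.castSucc,
              (uv (w j) (w i'.succ) - uv (w (j + 1)) (w i'.succ)) * Real.log (n j) := by
            refine sum_congr rfl fun j hj => ?_
            rw [Function.update_of_ne (ne_of_mem_erase hj)]
          rw [h5]
          ring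
        simp only [h4]
        exact hW L
    · have e : Wt (Fin.last k) = N := by rw [hWt, Fin.snoc_last]
      rw [e]
      simp only [gK_last]
      simp

/-- the average of the trace -/
theorem avg_trace {Ω : Type} [Fintype Ω] {T k : ℕ} (hT : 1 ≤ T) (u : Ω → J → Fin T) (hu : KW (k + 1) u) (c : J → ℝ)
    (N W : ℕ) (hN : 1 ≤ N) (hW1 : 1 ≤ W) (hW : ∀ L : ℝ, ∑ m ∈ Icc 1 N, ‖phi T (L - Real.log m)‖ ≤ W) :
    ‖∑ ω, ((MM N (ptK c (u ω))) ^ (k + 1)).trace‖ ≤
      Fintype.card Ω * (N * (Fintype.card J * W + (k + 1) * N) ^ (k + 1)) := by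
  classical
  simp only [trace_MM]
  rw [sum_comm]
  have e1 : ∀ w : Fin (k + 1) → J, ∑ ω, ∑ n ∈ Fintype.piFinset (fun _ : Fin (k + 1) => Icc 1 N),
      Complex.exp ((-(∑ i, (ptK c (u ω) (w i) - ptK c (u ω) (w (i + 1))) * Real.log (n i)) : ℝ) * Complex.I) =
      ∑ n ∈ Fintype.piFinset (fun _ : Fin (k + 1) => Icc 1 N), ∑ ω,
      Complex.exp ((-(∑ i, (ptK c (u ω) (w i) - ptK c (u ω) (w (i + 1))) * Real.log (n i)) : ℝ) * Complex.I) :=
    fun w => sum_comm
  simp only [e1]
  have h1 : ‖∑ w : Fin (k + 1) → J, ∑ n ∈ Fintype.piFinset (fun _ : Fin (k + 1) => Icc 1 N), ∑ ω,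
      Complex.exp ((-(∑ i, (ptK c (u ω) (w i) - ptK c (u ω) (w (i + 1))) * Real.log (n i)) : ℝ) * Complex.I)‖ ≤
      ∑ w : Fin (k + 1) → J, ∑ n ∈ Fintype.piFinset (fun _ : Fin (k + 1) => Icc 1 N),
        (Fintype.card Ω * ∏ o ∈ univ.image w, ‖phi T (lfR uv w n o)‖) := by
    refine (norm_sum_le _ _).trans (sum_le_sum fun w _ => ?_)
    exact (norm_sum_le _ _).trans (sum_le_sum fun n _ => (term_K hT u hu c w n).le)
  refine h1.trans ?_
  simp only [← mul_sum]
  refine mul_le_mul_of_nonneg_left ?_ (Nat.cast_nonneg _)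
  refine (sum_le_sum fun w _ => sum_walk T N W hN hW1 hW w).trans ?_
  rw [← Nat.cast_sum, ← mul_sum]
  have h2 : ∑ s : Fin (k + 1) → J, ∏ i : Fin (k + 1), rhoR ZK W N i (ini s i i.2.le) (s i) ≤
      (Fintype.card J * W + (k + 1) * N) ^ (k + 1) := by
    refine sum_prefix _ _ (k + 1) ?_
    intro i hi s
    have h3 : ∀ x, rhoR ZK W N i s x ≤ W + if x ∈ ZK i s then N else 0 := by
      intro x
      unfold rhoR
      by_cases h : x ∈ ZK i s
      · simp only [if_pos h]; omega
      · simp only [if_neg h]; omega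
    refine (sum_le_sum fun x _ => h3 x).trans ?_
    rw [sum_add_distrib, sum_const, card_univ, smul_eq_mul, ← sum_filter, sum_const, smul_eq_mul]
    refine Nat.add_le_add_left (Nat.mul_le_mul_right _ ?_) _
    rw [filter_univ_mem]
    exact (card_image_le.trans (by simp)).trans hi.le
  have h3 := Nat.mul_le_mul_left N h2
  calc ((N * ∑ s : Fin (k + 1) → J, ∏ i : Fin (k + 1), rhoR ZK W N i (ini s i i.2.le) (s i) : ℕ) : ℝ)
      ≤ ((N * (Fintype.card J * W + (k + 1) * N) ^ (k + 1) : ℕ) : ℝ) := by exact_mod_cast h3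
    _ = _ := by push_cast; ring

end Pool.Agent.Helper68K9.SG
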