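import Pool.Agent.Helper68K9.SG.KWb

/-!
The mean value estimate for most members of a `k`-wise independent family.
-/

set_option autoImplicit false

namespace Pool.Agent.Helper68K9.SG

open Finset Matrix

/-- **limited independence** -/
theorem kwise_main (ε A B : ℝ) (k : ℕ) (hε : 0 < ε) (hB : 0 ≤ B) (hk : 4 * (A + 1) / ε ≤ k)
    (hk2 : 2 ≤ k) :
    ∃ C : ℝ, 0 < C ∧ ∀ (Ω J : Type) [Fintype Ω] [Fintype J] (N T : ℕ) (c : J → ℝ) (u : Ω → J → Fin T),
      1 ≤ N → 1 ≤ T → (Fintype.card J : ℝ) ≤ (N : ℝ) ^ B → KW k u →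
      ∃ S : Finset Ω, (∀ ω, ω ∉ S → MV N (C * (N : ℝ) ^ ε * (N + Fintype.card J + Fintype.card J * N / T))
          (fun j => c j + ((u ω j : ℕ) : ℝ))) ∧
        (S.card : ℝ) ≤ C * (N : ℝ) ^ (-A) * Fintype.card Ω := by
  have hpi := Real.pi_pos
  obtain ⟨a, ha⟩ : ∃ a, Nat.log 2 k = a + 1 := by
    refine ⟨Nat.log 2 k - 1, ?_⟩
    have : 1 ≤ Nat.log 2 k := Nat.log_pos (by norm_num) hk2
    omega
  have hlow : 2 ^ (a + 1) ≤ k := by
    rw [← ha]
    exact Nat.pow_log_le_self 2 (by omega)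
  have hhigh : k < 2 * 2 ^ (a + 1) := by
    have := Nat.lt_pow_succ_log_self (b := 2) (by norm_num) k
    rw [ha, pow_succ] at this
    linarith
  have haA : A + 1 ≤ (ε / 2) * ((2 ^ (a + 1) : ℕ) : ℝ) := by
    have h1 : (k : ℝ) ≤ 2 * ((2 ^ (a + 1) : ℕ) : ℝ) := by
      have h2 : k ≤ 2 * 2 ^ (a + 1) := by omega
      exact_mod_cast h2
    rw [div_le_iff₀ hε] at hk
    nlinarith
  obtain ⟨ch, hch, hnum⟩ := numericsA ε A B hε hB a haA
  set K2 : ℕ := 2 ^ (a + 1) with hK2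
  have hK21 : 1 ≤ K2 := Nat.one_le_two_pow
  have hK2R : (1 : ℝ) ≤ K2 := by exact_mod_cast hK21
  have hk1 : K2 - 1 + 1 = K2 := Nat.sub_add_cancel hK21
  set cW : ℝ := 2 + (4 / ε + 3) * (4 * Real.pi * (8 / ε + 1) + 2) with hcW
  have hcW0 : 0 ≤ cW := by positivity
  set c1 : ℝ := cW + K2 with hc1
  have hc11 : 1 ≤ c1 := by linarith
  refine ⟨c1 + 1 + 2, by linarith, fun Ω J _ _ N T c u hN hT hR hu => ?_⟩
  classical
  have hN1 : (1 : ℝ) ≤ N := by exact_mod_cast hN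
  have hN0 : (0 : ℝ) < N := by linarith
  have hT0 : (0 : ℝ) < T := by exact_mod_cast hT
  have hlogN : 0 ≤ Real.log N := Real.log_nonneg hN1
  obtain ⟨h, hh0, hhs, hfin⟩ := hnum N (Fintype.card J) hN hR
  set R : ℕ := Fintype.card J with hRdef
  have hR0 : (0 : ℝ) ≤ R := Nat.cast_nonneg _
  -- the number of the layers
  set r : ℕ := Nat.log 2 N + 1 with hr
  have hr1 : (N : ℝ) * (1 / 2) ^ r ≤ 1 := by
    have h1 : N < 2 ^ r := Nat.lt_pow_succ_log_self (b := 2) (by norm_num) N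
    have h2 : (N : ℝ) ≤ 2 ^ r := by exact_mod_cast h1.le
    have h3 : (0 : ℝ) < (1 / 2) ^ r := by positivity
    calc (N : ℝ) * (1 / 2) ^ r ≤ 2 ^ r * (1 / 2) ^ r := mul_le_mul_of_nonneg_right h2 h3.le
      _ = 1 := by rw [← mul_pow]; norm_num
  have hr2 : (r : ℝ) ≤ 2 * Real.log N + 1 := by
    have h1 : 2 ^ (Nat.log 2 N) ≤ N := Nat.pow_log_le_self 2 (by omega)
    have h2 : ((2 : ℝ) ^ (Nat.log 2 N)) ≤ N := by exact_mod_cast h1
    have h3 : Real.log ((2 : ℝ) ^ (Nat.log 2 N)) ≤ Real.log N := Real.log_le_log (by positivity) h2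
    rw [Real.log_pow] at h3
    have h4 : (1 / 2 : ℝ) ≤ Real.log 2 := by linarith [Real.log_two_gt_d9]
    have h5 : (0 : ℝ) ≤ (Nat.log 2 N : ℝ) := Nat.cast_nonneg _
    rw [hr]
    push_cast
    nlinarith
  set Wr : ℝ := N * (1 / 2) ^ r + (Real.log N + 3) * (4 * Real.pi * r * (N / T) + 2) with hWr
  have hWr0 : 0 ≤ Wr := by positivity
  set W : ℕ := ⌈Wr⌉₊ + 1 with hWdef
  have hW1 : 1 ≤ W := by omega
  have hW : ∀ L : ℝ, ∑ m ∈ Icc 1 N, ‖phi T (L - Real.log m)‖ ≤ W := by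
    intro L
    refine (sum_phi T N hT hN L r).trans ?_
    have h1 : Wr ≤ ⌈Wr⌉₊ := Nat.le_ceil _
    rw [hWdef]
    push_cast
    linarith
  have hWle : (W : ℝ) ≤ (cW + 1) * (N : ℝ) ^ (ε / 2) * (1 + N / T) := by
    have h1 : (W : ℝ) ≤ Wr + 2 := by
      rw [hWdef]
      push_cast
      have := Nat.ceil_lt_add_one hWr0
      linarith
    set M : ℝ := (N : ℝ) ^ (ε / 4) with hM
    have hM1 : 1 ≤ M := Real.one_le_rpow hN1 (by positivity)
    have hMM : (N : ℝ) ^ (ε / 2) = M * M := by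
      rw [hM, ← Real.rpow_add hN0]; congr 1; ring
    have hl : Real.log N ≤ (4 / ε) * M := by
      have h2 : Real.log N ≤ (N : ℝ) ^ (ε / 4) / (ε / 4) := Real.log_le_rpow_div hN0.le (by positivity)
      refine h2.trans (le_of_eq ?_)
      rw [hM]
      field_simp
    have h3 : Real.log N + 3 ≤ (4 / ε + 3) * M := by linarith
    have h4 : (r : ℝ) ≤ (8 / ε + 1) * M := by
      have : 2 * ((4 / ε) * M) = (8 / ε) * M := by ring
      linarith
    have hNT : 0 ≤ (N : ℝ) / T := by positivity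
    have h5 : 4 * Real.pi * r * (N / T) + 2 ≤ (4 * Real.pi * (8 / ε + 1) + 2) * M * (1 + N / T) := by
      have h6 : 4 * Real.pi * r * (N / T) ≤ 4 * Real.pi * ((8 / ε + 1) * M) * (N / T) := by gcongr
      have h7 : (4 * Real.pi * (8 / ε + 1) + 2) * M * (1 + N / T) =
          4 * Real.pi * ((8 / ε + 1) * M) * (N / T) + 2 + (4 * Real.pi * (8 / ε + 1) * M + 2 * M * (N / T) +
            2 * (M - 1)) := by ring
      have h8 : 0 ≤ 4 * Real.pi * (8 / ε + 1) * M + 2 * M * (N / T) + 2 * (M - 1) := by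
        have : 0 ≤ 2 * (M - 1) := by linarith
        have h9 : 0 ≤ 4 * Real.pi * (8 / ε + 1) * M := by positivity
        have h10 : 0 ≤ 2 * M * (N / T) := by positivity
        linarith
      linarith
    have h6 : (Real.log N + 3) * (4 * Real.pi * r * (N / T) + 2) ≤
        ((4 / ε + 3) * M) * ((4 * Real.pi * (8 / ε + 1) + 2) * M * (1 + N / T)) :=
      mul_le_mul h3 h5 (by positivity) (by positivity)
    have h7 : Wr ≤ 1 + ((4 / ε + 3) * M) * ((4 * Real.pi * (8 / ε + 1) + 2) * M * (1 + N / T)) := by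
      rw [hWr]; linarith
    rw [hMM, hcW]
    have h8 : (2 + (4 / ε + 3) * (4 * Real.pi * (8 / ε + 1) + 2) + 1) * (M * M) * (1 + N / T) =
        3 * (M * M * (1 + N / T)) + ((4 / ε + 3) * M) * ((4 * Real.pi * (8 / ε + 1) + 2) * M * (1 + N / T)) := by ring
    have h9 : 1 ≤ M * M * (1 + N / T) := by
      have h10 : 1 ≤ M * M := one_le_mul_of_one_le_of_one_le hM1 hM1
      have h11 : 1 ≤ 1 + (N : ℝ) / T := by linarith
      exact one_le_mul_of_one_le_of_one_le h10 h11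
    linarith
  -- the trace
  have hu2 : KW (K2 - 1 + 1) u := by
    intro V v hV
    exact hu V v (by omega)
  have htr := avg_trace hT u hu2 c N W hN hW1 hW
  rw [hk1] at htr
  have hkK : ((K2 - 1 : ℕ) : ℝ) + 1 = K2 := by exact_mod_cast hk1
  rw [hkK] at htr
  set P : ℝ := R * W + K2 * N with hP
  set X : ℝ := N + R + R * N / T with hX
  have hX0 : 0 ≤ (R : ℝ) * N / T := by positivity
  have hX1 : 1 ≤ X := by rw [hX]; linarith
  have hPle : P ≤ (c1 + 1) * (N : ℝ) ^ (ε / 2) * X := by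
    have h6 : (1 : ℝ) ≤ (N : ℝ) ^ (ε / 2) := Real.one_le_rpow hN1 (by positivity)
    set E : ℝ := (N : ℝ) ^ (ε / 2) with hE
    have e1 : (R : ℝ) * W ≤ R * ((cW + 1) * E * (1 + N / T)) := mul_le_mul_of_nonneg_left hWle hR0
    have e2 : (R : ℝ) * ((cW + 1) * E * (1 + N / T)) = (cW + 1) * E * (R + R * N / T) := by ring
    have e3 : (K2 : ℝ) * N ≤ K2 * E * N := by
      calc (K2 : ℝ) * N = K2 * 1 * N := by ring
        _ ≤ K2 * E * N := by gcongr
    have e4 : (c1 + 1) * E * X = (cW + 1) * E * (R + R * N / T) + K2 * E * N +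
        ((cW + 1) * E * N + K2 * E * (R + R * N / T)) := by rw [hc1, hX]; ring
    have e5 : 0 ≤ (cW + 1) * E * N + K2 * E * (R + R * N / T) := by positivity
    rw [e4, hP]
    linarith
  -- reduce to the numerical lemma with c1 + 1 in place of c1
  have hfin1 := hfin (c1 + 1) P X (by linarith) hX1 (by positivity) hPle
  set Y : ℝ := (c1 + 1 + 2) * (N : ℝ) ^ ε * X with hY
  have hY0 : 0 < Y := by positivity
  have hYK : 0 < Y ^ K2 := by positivity
  set Bd : Finset Ω := univ.filter fun ω => Y ^ K2 ≤ fro ((MM N (ptK c (u ω))) ^ (2 ^ a)) with hBd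
  have e : K2 = 2 * 2 ^ a := by rw [hK2, pow_succ]; ring
  have h2 : ∀ ω, ((MM N (ptK c (u ω))) ^ K2).trace =
      ((fro ((MM N (ptK c (u ω))) ^ (2 ^ a)) : ℝ) : ℂ) := by
    intro ω
    rw [e, trace_fro (MM_herm N _)]
  simp only [h2] at htr
  rw [← Complex.ofReal_sum, Complex.norm_real, Real.norm_of_nonneg (sum_nonneg fun ω _ => fro_nonneg _)] at htr
  have h3 : (Bd.card : ℝ) * Y ^ K2 ≤ ∑ ω, fro ((MM N (ptK c (u ω))) ^ (2 ^ a)) := by
    calc (Bd.card : ℝ) * Y ^ K2 = ∑ ω ∈ Bd, Y ^ K2 := by rw [sum_const, nsmul_eq_mul]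
      _ ≤ ∑ ω ∈ Bd, fro ((MM N (ptK c (u ω))) ^ (2 ^ a)) := sum_le_sum fun ω hω => (mem_filter.1 hω).2
      _ ≤ ∑ ω, fro ((MM N (ptK c (u ω))) ^ (2 ^ a)) :=
          sum_le_sum_of_subset_of_nonneg (subset_univ _) fun ω _ _ => fro_nonneg _
  have h4 : (N : ℝ) * P ^ K2 ≤ (c1 + 1 + 2) * (N : ℝ) ^ (-A) * Y ^ K2 := by
    have h5 := hfin1
    rw [div_le_iff₀ hYK] at h5
    have h6 : 0 ≤ ((R : ℝ) * N) ^ K2 * Real.exp (-(h ^ 2 / 2)) := by positivity
    linarith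
  have h5 : (Bd.card : ℝ) ≤ (c1 + 1 + 2) * (N : ℝ) ^ (-A) * Fintype.card Ω := by
    have h6 : (Bd.card : ℝ) * Y ^ K2 ≤ ((c1 + 1 + 2) * (N : ℝ) ^ (-A) * Fintype.card Ω) * Y ^ K2 := by
      calc (Bd.card : ℝ) * Y ^ K2 ≤ Fintype.card Ω * (N * P ^ K2) := h3.trans htr
        _ ≤ Fintype.card Ω * ((c1 + 1 + 2) * (N : ℝ) ^ (-A) * Y ^ K2) :=
            mul_le_mul_of_nonneg_left h4 (Nat.cast_nonneg _)
        _ = _ := by ring
    exact le_of_mul_le_mul_right h6 hYK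
  refine ⟨Bd, fun ω hω => ?_, h5⟩
  rw [hBd, mem_filter, not_and] at hω
  have h7 := not_le.1 (hω (mem_univ _))
  have h8 := mean_of_fro (a := a) (ptK c (u ω)) Y hY0.le h7.le
  intro b
  exact h8 b

end Pool.Agent.Helper68K9.SG
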