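import Pool.Agent.Helper68K9.SG.Fin

/-!
Comparison of the Lebesgue measure on the cube with the Gaussian measure.
-/

set_option autoImplicit false

namespace Pool.Agent.Helper68K9.SG

open Finset MeasureTheory ProbabilityTheory

variable {ι : Type} [Fintype ι]

theorem pi_mono_measure (μ ν : ι → Measure ℝ) [∀ i, SigmaFinite (μ i)] (h : ∀ i, μ i ≤ ν i) :
    Measure.pi μ ≤ Measure.pi ν := by
  rw [Measure.le_iff]
  intro S hS
  have h1 : (Measure.pi μ).toOuterMeasure ≤ OuterMeasure.pi fun i => (ν i).toOuterMeasure := by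
    rw [OuterMeasure.le_pi]
    intro s _
    show Measure.pi μ (Set.pi Set.univ s) ≤ ∏ i, ν i (s i)
    rw [Measure.pi_pi]
    exact Finset.prod_le_prod' fun i _ => h i (s i)
  have h2 := h1 S
  refine h2.trans (le_of_eq ?_)
  rw [Measure.pi_def, toMeasure_apply _ _ hS]

theorem pi_smul_measure (c : ENNReal) (μ : ι → Measure ℝ) [∀ i, IsFiniteMeasure (μ i)] (hc : c ≠ ⊤) :
    Measure.pi (fun i => c • μ i) = c ^ (Fintype.card ι) • Measure.pi μ := by
  haveI : ∀ i, IsFiniteMeasure (c • μ i) := fun i => Measure.smul_finite _ hc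
  refine Measure.pi_eq fun s _ => ?_
  rw [Measure.smul_apply, Measure.pi_pi, smul_eq_mul]
  simp only [Measure.smul_apply, smul_eq_mul]
  rw [Finset.prod_mul_distrib, Finset.prod_const, Finset.card_univ]

theorem pdf_lower (x : ℝ) (hx : x ∈ Set.Icc (-1 : ℝ) 1) : 1 ≤ 5 * gaussianPDFReal 0 1 x := by
  unfold gaussianPDFReal
  have hx1 : x ^ 2 ≤ 1 := by
    have := abs_le.2 ⟨hx.1, hx.2⟩
    rw [← sq_abs]
    have h0 := abs_nonneg x
    nlinarith
  have h1 : Real.sqrt (2 * Real.pi * (1 : NNReal)) ≤ 2.51 := by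
    rw [show (2.51 : ℝ) = Real.sqrt (2.51 ^ 2) from (Real.sqrt_sq (by norm_num)).symm]
    refine Real.sqrt_le_sqrt ?_
    have := Real.pi_lt_d2
    simp only [NNReal.coe_one]
    nlinarith
  have h0 : 0 < Real.sqrt (2 * Real.pi * (1 : NNReal)) := by
    refine Real.sqrt_pos.2 ?_
    have := Real.pi_pos
    simp only [NNReal.coe_one]
    positivity
  have h2 : Real.exp (-(1 / 2)) ≤ Real.exp (-(x - 0) ^ 2 / (2 * (1 : NNReal))) := by
    refine Real.exp_le_exp.2 ?_
    simp only [NNReal.coe_one]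
    linarith [show (x - 0) ^ 2 = x ^ 2 by ring]
  have h3 : (1 / 2 : ℝ) ≤ Real.exp (-(1 / 2)) := by
    have := Real.add_one_le_exp (-(1 / 2) : ℝ)
    linarith
  have h4 : (0.602 : ℝ) ≤ Real.exp (-(1 / 2)) := by
    have h5 : Real.exp (-(1 / 2)) ^ 2 = Real.exp (-1) := by
      rw [← Real.exp_nat_mul]; congr 1; norm_num
    have h6 : (0.3678794 : ℝ) ≤ Real.exp (-1) := by
      rw [Real.exp_neg, show (0.3678794 : ℝ) = (0.3678794⁻¹)⁻¹ from (inv_inv _).symm]
      refine inv_anti₀ (Real.exp_pos 1) ?_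
      have := Real.exp_one_lt_d9
      refine this.le.trans ?_
      norm_num
    by_contra hcon
    push Not at hcon
    have h7 : Real.exp (-(1 / 2)) ^ 2 < 0.602 ^ 2 := pow_lt_pow_left₀ hcon (Real.exp_pos _).le (by norm_num)
    rw [h5] at h7
    norm_num at h7
    linarith
  calc (1 : ℝ) ≤ 5 * ((2.51)⁻¹ * 0.602) := by norm_num
    _ ≤ 5 * ((Real.sqrt (2 * Real.pi * (1 : NNReal)))⁻¹ * Real.exp (-(x - 0) ^ 2 / (2 * (1 : NNReal)))) := by
        refine mul_le_mul_of_nonneg_left ?_ (by norm_num)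
        refine mul_le_mul (inv_anti₀ h0 h1) (h4.trans h2) (by norm_num) (by positivity)

theorem restrict_le : (volume : Measure ℝ).restrict (Set.Icc (-1) 1) ≤ (5 : ENNReal) • gaussianReal 0 1 := by
  rw [Measure.le_iff]
  intro s hs
  rw [Measure.restrict_apply hs, Measure.smul_apply, smul_eq_mul, gaussianReal_apply 0 one_ne_zero s,
    ← lintegral_const_mul _ (measurable_gaussianPDF 0 1)]
  calc volume (s ∩ Set.Icc (-1) 1) = ∫⁻ _ in s ∩ Set.Icc (-1) 1, 1 := by
        rw [setLIntegral_one]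
    _ ≤ ∫⁻ x in s ∩ Set.Icc (-1) 1, 5 * gaussianPDF 0 1 x := by
        refine setLIntegral_mono' (hs.inter measurableSet_Icc) fun x hx => ?_
        have h := pdf_lower x hx.2
        rw [gaussianPDF, show (5 : ENNReal) = ENNReal.ofReal 5 by norm_num,
          ← ENNReal.ofReal_mul (by norm_num)]
        rw [← ENNReal.ofReal_one]
        exact ENNReal.ofReal_le_ofReal h
    _ ≤ ∫⁻ x in s, 5 * gaussianPDF 0 1 x := lintegral_mono_set Set.inter_subset_left

/-- the Lebesgue measure of the part in the cube -/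
theorem vol_le (S : Set (ι → ℝ)) (hS : MeasurableSet S) :
    volume (S ∩ Set.Icc (-1) 1) ≤ (5 : ENNReal) ^ (Fintype.card ι) * gam ι S := by
  have h1 : (volume : Measure (ι → ℝ)).restrict (Set.pi Set.univ fun _ => Set.Icc (-1 : ℝ) 1) =
      Measure.pi fun _ => (volume : Measure ℝ).restrict (Set.Icc (-1) 1) :=
    Measure.restrict_pi_pi _ _
  have h2 : (Set.Icc (-1) 1 : Set (ι → ℝ)) = Set.pi Set.univ fun _ => Set.Icc (-1 : ℝ) 1 := by
    rw [Set.pi_univ_Icc]
    rfl
  rw [h2, ← Measure.restrict_apply hS, h1]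
  have h3 := pi_mono_measure (fun _ : ι => (volume : Measure ℝ).restrict (Set.Icc (-1) 1))
    (fun _ : ι => (5 : ENNReal) • gaussianReal 0 1) (fun _ => restrict_le) S
  rw [pi_smul_measure 5 (fun _ : ι => gaussianReal 0 1) (by norm_num), Measure.smul_apply, smul_eq_mul] at h3
  exact h3

end Pool.Agent.Helper68K9.SG
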