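import Mathlib

/-!
Small integer functionals vanishing on given integer vectors, and integer points of a box on a subspace.
-/

set_option autoImplicit false

namespace Pool.Agent.Helper68K9.SG

open Finset Submodule

variable {κ : Type} [Fintype κ]

/-- the integer vector as a rational vector -/
def cst (v : κ → ℤ) : κ → ℚ := fun o => (v o : ℚ)

/-- the pairing -/
def dz (h v : κ → ℤ) : ℤ := ∑ o, h o * v o

/-- the span of the first `p` vectors -/
def Sp (u : ℕ → κ → ℤ) (p : ℕ) : Submodule ℚ (κ → ℚ) := span ℚ (Set.range fun j : Fin p => cst (u j))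

/-- the bound for the functionals -/
def QQ (D : ℕ) : ℕ → ℕ
  | 0 => 1
  | (p + 1) => 2 * D * QQ D p ^ 2

theorem QQ_pos {D : ℕ} (hD : 1 ≤ D) (p : ℕ) : 1 ≤ QQ D p := by
  induction p with
  | zero => exact le_refl _
  | succ p ih =>
    unfold QQ
    have : 1 ≤ QQ D p ^ 2 := Nat.one_le_pow _ _ ih
    nlinarith

theorem QQ_mono {D : ℕ} (hD : 1 ≤ D) : Monotone (QQ D) := by
  refine monotone_nat_of_le_succ fun p => ?_
  have h := QQ_pos hD p
  show QQ D p ≤ 2 * D * QQ D p ^ 2
  nlinarith [Nat.mul_le_mul hD (Nat.le_refl (QQ D p ^ 2))]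

theorem QQ_le {D : ℕ} (hD : 1 ≤ D) (p : ℕ) : QQ D p ≤ (2 * D) ^ (2 ^ p) := by
  have key : ∀ p, QQ D p * (2 * D) ≤ (2 * D) ^ (2 ^ p) := by
    intro p
    induction p with
    | zero => simp [QQ]
    | succ p ih =>
      unfold QQ
      calc 2 * D * QQ D p ^ 2 * (2 * D) = (QQ D p * (2 * D)) ^ 2 := by ring
        _ ≤ ((2 * D) ^ (2 ^ p)) ^ 2 := Nat.pow_le_pow_left ih 2
        _ = (2 * D) ^ (2 ^ (p + 1)) := by rw [← pow_mul, pow_succ 2 p]
  calc QQ D p ≤ QQ D p * (2 * D) := Nat.le_mul_of_pos_right _ (by omega)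
    _ ≤ _ := key p

theorem Sp_mem (u : ℕ → κ → ℤ) {p j : ℕ} (h : j < p) : cst (u j) ∈ Sp u p :=
  subset_span ⟨⟨j, h⟩, rfl⟩

theorem Sp_le (u : ℕ → κ → ℤ) (p : ℕ) : Sp u p ≤ Sp u (p + 1) := by
  refine span_le.2 ?_
  rintro _ ⟨j, rfl⟩
  exact Sp_mem u (lt_trans j.2 (Nat.lt_succ_self p))

theorem Sp_mono (u : ℕ → κ → ℤ) : Monotone (Sp u) := monotone_nat_of_le_succ (Sp_le u)

/-- a functional which vanishes on the vectors vanishes on the span -/
theorem dz_span (u : ℕ → κ → ℤ) {p : ℕ} {h : κ → ℤ} (hv : ∀ j < p, dz h (u j) = 0) {y : κ → ℤ}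
    (hy : cst y ∈ Sp u p) : dz h y = 0 := by
  have h1 : ∀ z ∈ Sp u p, ∑ o, (h o : ℚ) * z o = 0 := by
    intro z hz
    refine span_induction (p := fun z _ => ∑ o, (h o : ℚ) * z o = 0) ?_ ?_ ?_ ?_ hz
    · rintro _ ⟨j, rfl⟩
      have := hv j j.2
      unfold dz at this
      show ∑ o, (h o : ℚ) * ((u j o : ℤ) : ℚ) = 0
      exact_mod_cast this
    · simp
    · intro a b _ _ ha hb
      simp only [Pi.add_apply, mul_add, sum_add_distrib, ha, hb, add_zero]
    · intro c a _ ha
      simp only [Pi.smul_apply, smul_eq_mul]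
      have : ∑ o, (h o : ℚ) * (c * a o) = c * ∑ o, (h o : ℚ) * a o := by
        rw [mul_sum]; exact sum_congr rfl fun o _ => by ring
      rw [this, ha, mul_zero]
  have h2 := h1 _ hy
  unfold cst at h2
  unfold dz
  exact_mod_cast h2

theorem dz_abs {D : ℕ} (h v : κ → ℤ) (hv : ∀ o, |v o| ≤ D) : |dz h v| ≤ (∑ o, |h o|) * D := by
  unfold dz
  rw [sum_mul]
  refine (abs_sum_le_sum_abs _ _).trans (sum_le_sum fun o _ => ?_)
  rw [abs_mul]
  exact mul_le_mul_of_nonneg_left (hv o) (abs_nonneg _)

/-- small integer functionals which vanish on `p` given vectors separate the points from their span -/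
theorem small {D : ℕ} (hD : 1 ≤ D) (u : ℕ → κ → ℤ) (hu : ∀ j o, |u j o| ≤ D) :
    ∀ (p : ℕ) (y : κ → ℤ), cst y ∉ Sp u p →
      ∃ h : κ → ℤ, ∑ o, |h o| ≤ QQ D p ∧ (∀ j < p, dz h (u j) = 0) ∧ dz h y ≠ 0 := by
  classical
  intro p
  induction p with
  | zero =>
    intro y hy
    have h1 : y ≠ 0 := by
      rintro rfl
      apply hy
      have : cst (0 : κ → ℤ) = 0 := by funext o; simp [cst]
      rw [this]; exact zero_mem _
    obtain ⟨o, ho⟩ := Function.ne_iff.1 h1
    refine ⟨Pi.single o 1, ?_, fun j hj => absurd hj (Nat.not_lt_zero _), ?_⟩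
    · rw [sum_eq_single o]
      · simp [QQ]
      · intro b _ hb
        simp [hb]
      · simp
    · unfold dz
      rw [sum_eq_single o]
      · simpa using ho
      · intro b _ hb
        simp [hb]
      · simp
  | succ p ih =>
    intro y hy
    by_cases hp : cst (u p) ∈ Sp u p
    · obtain ⟨h, h1, h2, h3⟩ := ih y fun h => hy (Sp_le u p h)
      refine ⟨h, h1.trans ?_, fun j hj => ?_, h3⟩
      · exact_mod_cast QQ_mono hD (Nat.le_succ p)
      · rcases Nat.lt_succ_iff_lt_or_eq.1 hj with h4 | rfl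
        · exact h2 j h4
        · exact dz_span u h2 hp
    · obtain ⟨g, g1, g2, g3⟩ := ih (u p) hp
      set z : κ → ℤ := fun o => dz g (u p) * y o - dz g y * u p o with hz
      have hz1 : cst z ∉ Sp u p := by
        intro h
        apply hy
        have e : cst y = ((dz g (u p) : ℚ))⁻¹ • (cst z + (dz g y : ℚ) • cst (u p)) := by
          have h0 : ((dz g (u p) : ℤ) : ℚ) ≠ 0 := by exact_mod_cast g3
          funext o
          simp only [cst, hz, Pi.smul_apply, Pi.add_apply, smul_eq_mul]
          push_cast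
          field_simp
          ring
        rw [e]
        exact smul_mem _ _ (add_mem (Sp_le u p h) (smul_mem _ _ (Sp_mem u (Nat.lt_succ_self p))))
      obtain ⟨h, h1, h2, h3⟩ := ih z hz1
      have hlin : ∀ v : κ → ℤ, dz (fun o => dz g (u p) * h o - dz h (u p) * g o) v =
          dz g (u p) * dz h v - dz h (u p) * dz g v := by
        intro v
        unfold dz
        simp only [sub_mul, sum_sub_distrib, mul_sum, mul_assoc]
      refine ⟨fun o => dz g (u p) * h o - dz h (u p) * g o, ?_, fun j hj => ?_, ?_⟩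
      · have b1 := dz_abs (D := D) g (u p) (hu p)
        have b2 := dz_abs (D := D) h (u p) (hu p)
        have c1 : ∑ o, |dz g (u p) * h o - dz h (u p) * g o| ≤
            |dz g (u p)| * ∑ o, |h o| + |dz h (u p)| * ∑ o, |g o| := by
          rw [mul_sum, mul_sum, ← sum_add_distrib]
          refine sum_le_sum fun o _ => ?_
          rw [← abs_mul, ← abs_mul]
          exact abs_sub _ _
        have hg0 : 0 ≤ ∑ o, |g o| := sum_nonneg fun _ _ => abs_nonneg _
        have hh0 : 0 ≤ ∑ o, |h o| := sum_nonneg fun _ _ => abs_nonneg _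
        have hD0 : (0 : ℤ) ≤ D := Int.natCast_nonneg _
        have hQ0 : (0 : ℤ) ≤ QQ D p := Int.natCast_nonneg _
        refine c1.trans ?_
        have c2 : |dz g (u p)| * ∑ o, |h o| ≤ (QQ D p * D) * QQ D p :=
          mul_le_mul (b1.trans (mul_le_mul_of_nonneg_right g1 hD0)) h1 hh0 (by positivity)
        have c3 : |dz h (u p)| * ∑ o, |g o| ≤ (QQ D p * D) * QQ D p :=
          mul_le_mul (b2.trans (mul_le_mul_of_nonneg_right h1 hD0)) g1 hg0 (by positivity)
        show _ ≤ ((2 * D * QQ D p ^ 2 : ℕ) : ℤ)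
        push_cast
        nlinarith
      · rw [hlin]
        rcases Nat.lt_succ_iff_lt_or_eq.1 hj with h4 | rfl
        · rw [h2 j h4, g2 j h4]; ring
        · ring
      · rw [hlin]
        have e : dz h z = dz g (u p) * dz h y - dz g y * dz h (u p) := by
          unfold dz
          simp only [hz, mul_sub, sum_sub_distrib, mul_sum]
          congr 1 <;> refine sum_congr rfl fun o _ => ?_
          · unfold dz; ring
          · unfold dz; ring
        rw [e] at h3
        intro h5
        exact h3 (by linarith)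

open Module in
/-- the integer points of a box on a translate of a subspace -/
theorem box (D : ℕ) [DecidableEq κ] : ∀ (n : ℕ) (U : Submodule ℚ (κ → ℚ)) (x0 : κ → ℚ), finrank ℚ U ≤ n →
    ∀ S : Finset (κ → ℤ), (∀ y ∈ S, (∀ o, |y o| ≤ D) ∧ cst y - x0 ∈ U) → S.card ≤ (2 * D + 1) ^ n := by
  intro n
  induction n with
  | zero =>
    intro U x0 hU S hS
    have hbot : U = ⊥ := finrank_eq_zero.1 (Nat.le_zero.1 hU)
    rw [pow_zero, card_le_one]
    intro a ha b hb
    have h1 := (hS a ha).2
    have h2 := (hS b hb).2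
    rw [hbot, Submodule.mem_bot, sub_eq_zero] at h1 h2
    funext o
    have h3 := congrFun (h1.trans h2.symm) o
    simp only [cst] at h3
    exact_mod_cast h3
  | succ n ih =>
    intro U x0 hU S hS
    by_cases hbot : U = ⊥
    · refine (ih ⊥ x0 (by simp) S ?_).trans (Nat.pow_le_pow_right (by omega) (Nat.le_succ n))
      intro y hy
      rw [← hbot]
      exact hS y hy
    obtain ⟨w, hw, hw0⟩ := Submodule.exists_mem_ne_zero_of_ne_bot hbot
    obtain ⟨o, ho⟩ := Function.ne_iff.1 hw0
    set U' : Submodule ℚ (κ → ℚ) := U ⊓ LinearMap.ker (LinearMap.proj o : (κ → ℚ) →ₗ[ℚ] ℚ) with hU'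
    have hlt : U' < U := by
      refine lt_of_le_of_ne inf_le_left fun h => ?_
      have : w ∈ U' := by rw [h]; exact hw
      exact ho (LinearMap.mem_ker.1 this.2)
    have hfr : finrank ℚ U' ≤ n := by
      have := Submodule.finrank_lt_finrank_of_lt hlt
      omega
    have hsl : ∀ c ∈ S.image (fun y => y o), (S.filter fun y => y o = c).card ≤ (2 * D + 1) ^ n := by
      intro c _
      rcases (S.filter fun y => y o = c).eq_empty_or_nonempty with h | ⟨y0, hy0⟩
      · rw [h, card_empty]; exact Nat.zero_le _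
      rw [mem_filter] at hy0
      refine ih U' (cst y0) hfr _ ?_
      intro y hy
      rw [mem_filter] at hy
      refine ⟨(hS y hy.1).1, ?_, ?_⟩
      · have h1 := U.sub_mem (hS y hy.1).2 (hS y0 hy0.1).2
        have e : cst y - x0 - (cst y0 - x0) = cst y - cst y0 := by abel
        rwa [e] at h1
      · rw [SetLike.mem_coe, LinearMap.mem_ker]
        simp [cst, hy.2, hy0.2]
    have hcard : (S.image fun y => y o).card ≤ 2 * D + 1 := by
      have h1 : S.image (fun y => y o) ⊆ Icc (-(D : ℤ)) D := by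
        intro c hc
        obtain ⟨y, hy, rfl⟩ := mem_image.1 hc
        have := abs_le.1 ((hS y hy).1 o)
        exact mem_Icc.2 ⟨this.1, this.2⟩
      refine (card_le_card h1).trans ?_
      rw [Int.card_Icc]
      omega
    calc S.card ≤ (2 * D + 1) ^ n * (S.image fun y => y o).card := card_le_mul_card_image S _ hsl
      _ ≤ (2 * D + 1) ^ n * (2 * D + 1) := Nat.mul_le_mul_left _ hcard
      _ = (2 * D + 1) ^ (n + 1) := by ring

open Module in
theorem finrank_Sp (u : ℕ → κ → ℤ) (p : ℕ) : finrank ℚ (Sp u p) ≤ p := by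
  have h := finrank_range_le_card (R := ℚ) (fun j : Fin p => cst (u j))
  rw [Fintype.card_fin] at h
  exact h

/-- few elements of an injective family of integer vectors of a box are in the span of `p` vectors -/
theorem few {J : Type} [Fintype J] {D : ℕ} (v : J → κ → ℤ) (hinj : Function.Injective v)
    (hv : ∀ x o, |v x o| ≤ D) (U : Submodule ℚ (κ → ℚ)) (n : ℕ) (hU : Module.finrank ℚ U ≤ n)
    (S : Finset J) (hS : ∀ x ∈ S, cst (v x) ∈ U) : S.card ≤ (2 * D + 1) ^ n := by
  classical
  rw [← card_image_of_injective S hinj]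
  refine box D n U 0 hU _ ?_
  intro y hy
  obtain ⟨x, hx, rfl⟩ := mem_image.1 hy
  refine ⟨hv x, ?_⟩
  rw [sub_zero]
  exact hS x hx

end Pool.Agent.Helper68K9.SG
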