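import Pool.Agent.Helper68K9.SG.RExp

/-!
Generic polynomial images of well-spaced points.
-/

set_option autoImplicit false

namespace Pool.Agent.Helper68K9.SG

open Finset MeasureTheory ProbabilityTheory

/-- the coefficients of `∏ (t - p j)` -/
theorem poly_exists (X Y : ℝ) (hX : 0 ≤ X) (hY : 0 ≤ Y) : ∀ (i : ℕ) (p : Fin i → ℝ), (∀ j, |p j| ≤ X) →
    ∃ q : ℕ → ℝ, (∀ e, i < e → q e = 0) ∧ (∀ t, ∑ e ∈ range (i + 1), q e * t ^ e = ∏ j, (t - p j)) ∧
      ∑ e ∈ range (i + 1), |q e| * Y ^ e ≤ (Y + X) ^ i := by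
  intro i
  induction i with
  | zero =>
    intro p _
    refine ⟨fun e => if e = 0 then 1 else 0, ?_, ?_, ?_⟩
    · intro e he
      simp only
      rw [if_neg (by omega)]
    · intro t
      simp
    · simp
  | succ i ih =>
    intro p hp
    obtain ⟨q, h1, h2, h3⟩ := ih (fun j => p j.castSucc) fun j => hp _
    set r : ℝ := p (Fin.last i) with hr
    set q1 : ℕ → ℝ := fun e => if e = 0 then 0 else q (e - 1) with hq1
    have hq10 : q1 0 = 0 := by rw [hq1]; simp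
    have hq1s : ∀ e, q1 (e + 1) = q e := by intro e; rw [hq1]; simp
    have e1 : ∀ f : ℕ → ℝ, ∑ e ∈ range (i + 1 + 1), q1 e * f e = ∑ e ∈ range (i + 1), q e * f (e + 1) := by
      intro f
      rw [sum_range_succ', hq10, zero_mul, add_zero]
      exact sum_congr rfl fun e _ => by rw [hq1s]
    have e2 : ∀ f : ℕ → ℝ, ∑ e ∈ range (i + 1 + 1), q e * f e = ∑ e ∈ range (i + 1), q e * f e := by
      intro f
      rw [sum_range_succ, h1 (i + 1) (by omega), zero_mul, add_zero]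
    refine ⟨fun e => q1 e - r * q e, ?_, ?_, ?_⟩
    · intro e he
      obtain ⟨e', rfl⟩ : ∃ e', e = e' + 1 := ⟨e - 1, by omega⟩
      simp only
      rw [hq1s, h1 e' (by omega), h1 (e' + 1) (by omega), mul_zero, sub_zero]
    · intro t
      simp only
      have e3 : ∀ e, (q1 e - r * q e) * t ^ e = q1 e * t ^ e - r * (q e * t ^ e) := fun e => by ring
      simp only [e3]
      rw [sum_sub_distrib, ← mul_sum, e1 fun e => t ^ e, e2 fun e => t ^ e, h2 t, Fin.prod_univ_castSucc]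
      have e4 : ∀ e, q e * t ^ (e + 1) = t * (q e * t ^ e) := fun e => by ring
      simp only [e4]
      rw [← mul_sum, h2 t]
      ring
    · have e5 : ∀ e, |q1 e - r * q e| * Y ^ e ≤ |q1 e| * Y ^ e + |r| * (|q e| * Y ^ e) := by
        intro e
        have h4 : |q1 e - r * q e| ≤ |q1 e| + |r| * |q e| := by
          rw [← abs_mul]
          exact abs_sub _ _
        have := mul_le_mul_of_nonneg_right h4 (pow_nonneg hY e)
        linarith
      refine (sum_le_sum fun e _ => e5 e).trans ?_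
      rw [sum_add_distrib, ← mul_sum]
      have e6 : ∑ e ∈ range (i + 1 + 1), |q1 e| * Y ^ e = Y * ∑ e ∈ range (i + 1), |q e| * Y ^ e := by
        rw [sum_range_succ', hq10, abs_zero, zero_mul, add_zero, mul_sum]
        exact sum_congr rfl fun e _ => by rw [hq1s]; ring
      have e7 : ∑ e ∈ range (i + 1 + 1), |q e| * Y ^ e = ∑ e ∈ range (i + 1), |q e| * Y ^ e := by
        rw [sum_range_succ, h1 (i + 1) (by omega), abs_zero, zero_mul, add_zero]
      rw [e6, e7, ← add_mul, pow_succ, mul_comm]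
      have h5 : Y + |r| ≤ Y + X := by linarith [hp (Fin.last i)]
      exact mul_le_mul h3 h5 (by positivity) (by positivity)

/-- the vectors `(σ_l x^(l+1))` are in general position -/
theorem GP_poly {J : Type} [DecidableEq J] (k K : ℕ) (hK : K ≤ k) (x : J → ℝ) (X τ : ℝ) (hX : 0 ≤ X) (hτ : 0 < τ)
    (hx : ∀ j, |x j| ≤ X) (hsep : ∀ i j, i ≠ j → 1 ≤ |x i - x j|) (σ : Fin k → ℝ)
    (hσ : ∀ l : Fin k, τ * (1 + X) ^ (k - 1 - (l : ℕ)) ≤ σ l) :
    GP (fun j (l : Fin k) => σ l * x j ^ ((l : ℕ) + 1)) (τ / 2 ^ k) K k := by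
  classical
  intro i hi w
  have hik : i ≤ k := by omega
  refine ⟨univ.image w, (card_image_le.trans (by simp)).trans hik, fun y hy => ?_⟩
  have hy' : ∀ j, y ≠ w j := by
    intro j h
    exact hy (mem_image.2 ⟨j, mem_univ _, h.symm⟩)
  have hY : (0 : ℝ) < 1 + X := by linarith
  obtain ⟨q, h1, h2, h3⟩ := poly_exists X (1 + X) hX hY.le i (fun j => x (w j)) fun j => hx _
  have hσ0 : ∀ l, 0 < σ l := fun l => lt_of_lt_of_le (by positivity) (hσ l)
  have ext : ∀ f : ℕ → ℝ, (∀ e, i < e → f e = 0) → ∑ e ∈ range (k + 1), f e = ∑ e ∈ range (i + 1), f e := by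
    intro f hf
    refine (sum_subset (range_mono (by omega)) fun e _ he => hf e ?_).symm
    rw [mem_range] at he
    omega
  have hval : ∀ t : ℝ, q 0 + ∑ l : Fin k, q (l + 1) / σ l * (σ l * t ^ ((l : ℕ) + 1)) = ∏ j, (t - x (w j)) := by
    intro t
    rw [← h2 t, ← ext _ fun e he => by rw [h1 e he, zero_mul], sum_range_succ', add_comm, pow_zero, mul_one,
      ← Fin.sum_univ_eq_sum_range (fun e => q (e + 1) * t ^ (e + 1)) k]
    congr 1
    refine sum_congr rfl fun l _ => ?_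
    have := (hσ0 l).ne'
    field_simp
  refine ⟨q 0, fun l => q (l + 1) / σ l, ?_, ?_, ?_⟩
  · have hterm : ∀ l : Fin k, |q (l + 1) / σ l| ≤ |q (l + 1)| * (1 + X) ^ ((l : ℕ) + 1) * (1 / (τ * (1 + X) ^ k)) := by
      intro l
      rw [abs_div, abs_of_pos (hσ0 l)]
      have h4 : (1 : ℝ) / σ l ≤ (1 + X) ^ ((l : ℕ) + 1) * (1 / (τ * (1 + X) ^ k)) := by
        rw [div_le_iff₀ (hσ0 l)]
        have h5 : (1 + X) ^ k = (1 + X) ^ ((l : ℕ) + 1) * (1 + X) ^ (k - 1 - (l : ℕ)) := by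
          rw [← pow_add]
          congr 1
          have := l.2
          omega
        have h6 : (1 + X) ^ ((l : ℕ) + 1) * (1 / (τ * (1 + X) ^ k)) = 1 / (τ * (1 + X) ^ (k - 1 - (l : ℕ))) := by
          rw [h5]
          field_simp
        rw [h6, div_mul_eq_mul_div, one_mul, le_div_iff₀ (by positivity), one_mul]
        exact hσ l
      calc |q (l + 1)| / σ l = |q (l + 1)| * (1 / σ l) := by ring
        _ ≤ |q (l + 1)| * ((1 + X) ^ ((l : ℕ) + 1) * (1 / (τ * (1 + X) ^ k))) :=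
            mul_le_mul_of_nonneg_left h4 (abs_nonneg _)
        _ = _ := by ring
    refine (sum_le_sum fun l _ => hterm l).trans ?_
    rw [← sum_mul, Fin.sum_univ_eq_sum_range (fun e => |q (e + 1)| * (1 + X) ^ (e + 1)) k]
    have h7 : ∑ e ∈ range k, |q (e + 1)| * (1 + X) ^ (e + 1) ≤ ∑ e ∈ range (k + 1), |q e| * (1 + X) ^ e := by
      rw [sum_range_succ']
      have : 0 ≤ |q 0| * (1 + X) ^ 0 := by positivity
      linarith
    have h8 : ∑ e ∈ range (k + 1), |q e| * (1 + X) ^ e ≤ (1 + X + X) ^ i := by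
      rw [ext _ fun e he => by rw [h1 e he, abs_zero, zero_mul]]
      exact h3
    have h9 : (1 + X + X) ^ i ≤ 2 ^ k * (1 + X) ^ k := by
      calc (1 + X + X) ^ i ≤ (2 * (1 + X)) ^ i := pow_le_pow_left₀ (by positivity) (by linarith) i
        _ ≤ (2 * (1 + X)) ^ k := pow_le_pow_right₀ (by linarith) hik
        _ = 2 ^ k * (1 + X) ^ k := mul_pow _ _ _
    calc (∑ e ∈ range k, |q (e + 1)| * (1 + X) ^ (e + 1)) * (1 / (τ * (1 + X) ^ k))
        ≤ (2 ^ k * (1 + X) ^ k) * (1 / (τ * (1 + X) ^ k)) :=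
          mul_le_mul_of_nonneg_right (h7.trans (h8.trans h9)) (by positivity)
      _ = 1 / (τ / 2 ^ k) := by field_simp
  · intro j
    rw [hval]
    exact prod_eq_zero (mem_univ j) (sub_self _)
  · rw [hval, abs_prod]
    have h4 : ∏ _j : Fin i, (1 : ℝ) ≤ ∏ j, |x y - x (w j)| :=
      prod_le_prod (fun _ _ => zero_le_one) fun j _ => hsep _ _ (hy' j)
    rwa [prod_const_one] at h4

/-- **generic polynomial images of well-spaced points** -/
theorem poly_images (ε A B : ℝ) (k : ℕ) (hε : 0 < ε) (hA : 0 ≤ A) (hB : 0 ≤ B) (hk : 4 * (A + 1) / ε ≤ k) :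
    ∃ C : ℝ, 0 < C ∧ ∀ (J : Type) [Fintype J] (N : ℕ) (X τ : ℝ) (c x : J → ℝ) (σ : Fin k → ℝ), 1 ≤ N →
      (Fintype.card J : ℝ) ≤ (N : ℝ) ^ B → 0 ≤ X → 0 < τ → (∀ j, |x j| ≤ X) → (∀ i j, i ≠ j → 1 ≤ |x i - x j|) →
      (∀ l : Fin k, τ * (1 + X) ^ (k - 1 - (l : ℕ)) ≤ σ l) →
      ∃ S : Set (Fin k → ℝ), (∀ θ, θ ∉ S →
          MV N (C * (N : ℝ) ^ ε * (N + Fintype.card J + Fintype.card J * N / τ))
            (fun j => c j + ∑ l, θ l * (σ l * x j ^ ((l : ℕ) + 1)))) ∧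
        gam (Fin k) S ≤ ENNReal.ofReal (C * (N : ℝ) ^ (-A)) ∧
        volume (S ∩ Set.Icc (-1) 1) ≤ 5 ^ k * ENNReal.ofReal (C * (N : ℝ) ^ (-A)) := by
  have hk1 : 1 ≤ k := by
    have h1 : 0 < 4 * (A + 1) / ε := by positivity
    have h2 : (0 : ℝ) < k := lt_of_lt_of_le h1 hk
    exact_mod_cast h2
  obtain ⟨a, ha⟩ : ∃ a, Nat.log 2 (k + 1) = a + 1 := by
    refine ⟨Nat.log 2 (k + 1) - 1, ?_⟩
    have : 1 ≤ Nat.log 2 (k + 1) := Nat.log_pos (by norm_num) (by omega)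
    omega
  have hlow : 2 ^ (a + 1) ≤ k + 1 := by
    rw [← ha]
    exact Nat.pow_log_le_self 2 (by omega)
  have hhigh : k + 1 < 2 * 2 ^ (a + 1) := by
    have := Nat.lt_pow_succ_log_self (b := 2) (by norm_num) (k + 1)
    rw [ha, pow_succ] at this
    linarith
  have haA : A + 1 ≤ (ε / 2) * ((2 ^ (a + 1) : ℕ) : ℝ) := by
    have h1 : (k : ℝ) ≤ 2 * ((2 ^ (a + 1) : ℕ) : ℝ) := by
      have h2 : k ≤ 2 * 2 ^ (a + 1) := by omega
      exact_mod_cast h2
    rw [div_le_iff₀ hε] at hk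
    nlinarith
  obtain ⟨ch, hch, hnum⟩ := numericsA ε A B hε hB a haA
  set c1 : ℝ := 4 * 2 ^ k * ch + 1 + k with hc1
  have hc11 : 1 ≤ c1 := by
    have h1 : 0 ≤ 4 * 2 ^ k * ch := by positivity
    have h2 : (0 : ℝ) ≤ k := Nat.cast_nonneg _
    linarith
  refine ⟨c1 + 2, by linarith, fun J _ N X τ c x σ hN hR hX hτ hx hsep hσ => ?_⟩
  classical
  have hN1 : (1 : ℝ) ≤ N := by exact_mod_cast hN
  have hN0 : (0 : ℝ) < N := by linarith
  obtain ⟨h, hh0, hhs, hfin⟩ := hnum N (Fintype.card J) hN hR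
  set R : ℕ := Fintype.card J with hRdef
  set Xt : ℝ := N + R + R * N / τ with hXt
  have hX0 : 0 ≤ (R : ℝ) * N / τ := by positivity
  have hR0 : (0 : ℝ) ≤ R := Nat.cast_nonneg _
  have hX1 : 1 ≤ Xt := by rw [hXt]; linarith
  have hGP := GP_poly k (2 ^ (a + 1) - 1) (by omega) x X τ hX hτ hx hsep σ hσ
  have hbase : ((R : ℝ) * (⌊4 * (h / (τ / 2 ^ k)) * N⌋₊ + 1 : ℕ) + k * N) ≤
      c1 * (N : ℝ) ^ (ε / 2) * Xt := by
    have h6 : (1 : ℝ) ≤ (N : ℝ) ^ (ε / 2) := Real.one_le_rpow hN1 (by positivity)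
    have h7 : h ≤ ch * (N : ℝ) ^ (ε / 2) := hhs.trans (mul_le_mul_of_nonneg_left
      (Real.rpow_le_rpow_of_exponent_le hN1 (by linarith)) hch)
    set E : ℝ := (N : ℝ) ^ (ε / 2) with hE
    have e1 : ((⌊4 * (h / (τ / 2 ^ k)) * N⌋₊ + 1 : ℕ) : ℝ) ≤ (4 * 2 ^ k * ch) * E * (N / τ) + E := by
      push_cast
      have h8 : (⌊4 * (h / (τ / 2 ^ k)) * (N : ℝ)⌋₊ : ℝ) ≤ 4 * (h / (τ / 2 ^ k)) * N := Nat.floor_le (by positivity)
      have h9 : 4 * (h / (τ / 2 ^ k)) * (N : ℝ) = 4 * 2 ^ k * h * (N / τ) := by field_simp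
      have h10 : 4 * 2 ^ k * h * (N / τ) ≤ 4 * 2 ^ k * (ch * E) * (N / τ) := by gcongr
      have h11 : 4 * 2 ^ k * (ch * E) * (N / τ) = (4 * 2 ^ k * ch) * E * (N / τ) := by ring
      linarith
    have e3 := mul_le_mul_of_nonneg_left e1 hR0
    set c2 : ℝ := 4 * 2 ^ k * ch with hc2
    have hc20 : 0 ≤ c2 := by positivity
    have hk0 : (0 : ℝ) ≤ k := Nat.cast_nonneg _
    have e4 : (k : ℝ) * N ≤ k * E * N := by
      calc (k : ℝ) * N = k * 1 * N := by ring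
        _ ≤ k * E * N := by gcongr
    have e5 : (R : ℝ) * (c2 * E * (N / τ) + E) = c2 * E * (R * N / τ) + E * R := by ring
    have e6 : c1 * E * Xt = (c2 * E * (R * N / τ) + E * R + k * E * N) +
        (c2 * E * (N + R) + E * (N + R * N / τ) + k * E * (R + R * N / τ)) := by
      rw [hc1, hXt]; ring
    have e7 : 0 ≤ (c2 * E * (N + R) + E * (N + R * N / τ) + k * E * (R + R * N / τ)) := by positivity
    linarith
  have hfin1 := hfin c1 ((R : ℝ) * (⌊4 * (h / (τ / 2 ^ k)) * N⌋₊ + 1 : ℕ) + k * N) Xt hc11 hX1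
    (by positivity) hbase
  have hY : 0 < (c1 + 2) * (N : ℝ) ^ ε * Xt := by positivity
  have hmain := coreR hN c (fun j (l : Fin k) => σ l * x j ^ ((l : ℕ) + 1)) (τ / 2 ^ k) hGP h hh0 _ hY _ hfin1
  rw [Fintype.card_fin] at hmain
  exact hmain

end Pool.Agent.Helper68K9.SG
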