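import Pool.Agent.Helper68K9.SG.Pow

/-!
The family `c_j + Λ θ exp (s_j α)` with two parameters: the main theorem.
-/

set_option autoImplicit false

namespace Pool.Agent.Helper68K9.SG

open Finset Matrix MeasureTheory ProbabilityTheory

theorem cont_froP {J : Type} [Fintype J] [DecidableEq J] (N a : ℕ) (c s : J → ℝ) (Λ : ℝ) :
    Continuous fun p : ℝ × ℝ => fro ((MM N (pP c s Λ p)) ^ (2 ^ a)) := by
  have hc : Continuous fun p : ℝ × ℝ => MM N (pP c s Λ p) := by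
    refine continuous_matrix fun x y => ?_
    unfold MM ph
    refine continuous_finset_sum _ fun n _ => ?_
    refine Continuous.mul ?_ (Complex.continuous_conj.comp ?_)
    · exact Complex.continuous_exp.comp ((Complex.continuous_ofReal.comp
        (((cont_pP c s Λ x).mul continuous_const).neg)).mul continuous_const)
    · exact Complex.continuous_exp.comp ((Complex.continuous_ofReal.comp
        (((cont_pP c s Λ y).mul continuous_const).neg)).mul continuous_const)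
  have hc2 : Continuous fun p : ℝ × ℝ => (MM N (pP c s Λ p)) ^ (2 ^ a) := hc.pow _
  unfold fro
  refine continuous_finset_sum _ fun x _ => continuous_finset_sum _ fun y _ => ?_
  exact ((hc2.matrix_elem x y).norm).pow 2

theorem vol2_le (B : Set (ℝ × ℝ)) (hB : MeasurableSet B) :
    volume (B ∩ Set.Icc (-1) 1 ×ˢ Set.Icc 0 1) ≤ 5 * mu2 B := by
  have h1 : (volume : Measure (ℝ × ℝ)).restrict (Set.Icc (-1) 1 ×ˢ Set.Icc 0 1) =
      ((volume : Measure ℝ).restrict (Set.Icc (-1) 1)).prod ((volume : Measure ℝ).restrict (Set.Icc 0 1)) := by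
    rw [Measure.prod_restrict, Measure.volume_eq_prod]
  rw [← Measure.restrict_apply hB, h1]
  have h2 : ((volume : Measure ℝ).restrict (Set.Icc (-1) 1)).prod ((volume : Measure ℝ).restrict (Set.Icc 0 1)) ≤
      ((5 : ENNReal) • gaussianReal 0 1).prod ((volume : Measure ℝ).restrict (Set.Icc 0 1)) :=
    Measure.prod_mono restrict_le le_rfl
  refine (h2 B).trans (le_of_eq ?_)
  rw [Measure.prod_smul_left, Measure.smul_apply, smul_eq_mul]
  rfl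

/-- **two parameters** -/
theorem two_params (ε A B : ℝ) (hε : 0 < ε) (hB : 0 ≤ B) :
    ∃ E C : ℝ, 0 < C ∧ ∀ (J : Type) [Fintype J] (N : ℕ) (Λ : ℝ) (c s : J → ℝ) (X : ℝ), 1 ≤ N →
      (Fintype.card J : ℝ) ≤ (N : ℝ) ^ B → 1 ≤ X → X ≤ (N : ℝ) ^ B → (∀ i, 0 ≤ s i ∧ s i ≤ Real.log X) →
      (∀ i j, i ≠ j → 1 / X ≤ |s i - s j|) → C * (N : ℝ) ^ E ≤ Λ →
      ∃ S : Set (ℝ × ℝ), (∀ p, p ∉ S → MV N (C * (N : ℝ) ^ ε * (N + Fintype.card J)) (pP c s Λ p)) ∧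
        volume (S ∩ Set.Icc (-1) 1 ×ˢ Set.Icc 0 1) ≤ ENNReal.ofReal (C * (N : ℝ) ^ (-A)) := by
  obtain ⟨a, ch, hch, hnum⟩ := numerics ε A B hε hB
  set K2 : ℕ := 2 ^ (a + 1) with hK2
  have hK21 : 1 ≤ K2 := Nat.one_le_two_pow
  set k : ℕ := K2 - 1 with hk
  have hk1 : k + 1 = K2 := Nat.sub_add_cancel hK21
  have hK2R : (1 : ℝ) ≤ K2 := by exact_mod_cast hK21
  set G : ℝ := 4 ^ k * (|A| + (B + 1) * K2) with hG
  have hG0 : 0 ≤ G := by positivity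
  set E : ℝ := 1 + ε / 8 + 2 * B * k + G with hE
  set C2 : ℝ := (ch + 1) * 8 * 2 ^ k with hC2
  have hC20 : 0 < C2 := by positivity
  set C : ℝ := 5 * (K2 + 5) + C2 with hC
  have hC0 : 0 < C := by positivity
  refine ⟨E, C, hC0, fun J _ N Λ c s X hN hR hX1 hXB hs hsep hΛ => ?_⟩
  classical
  have hN1 : (1 : ℝ) ≤ N := by exact_mod_cast hN
  have hN0 : (0 : ℝ) < N := by linarith
  have hX0 : 0 < X := by linarith
  obtain ⟨h, hh0, hhs, hfin⟩ := hnum N (Fintype.card J) hN hR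
  set R : ℕ := Fintype.card J with hRdef
  have hR0 : (0 : ℝ) ≤ R := Nat.cast_nonneg _
  have hNE : 1 ≤ (N : ℝ) ^ E := Real.one_le_rpow hN1 (by positivity)
  have hΛ0 : 0 < Λ := lt_of_lt_of_le (by positivity) hΛ
  have hΛ2 : C2 * (N : ℝ) ^ E ≤ Λ := by
    refine le_trans (mul_le_mul_of_nonneg_right ?_ (by positivity)) hΛ
    rw [hC]
    have : 0 ≤ 5 * ((K2 : ℝ) + 5) := by positivity
    linarith
  set S0 : ℝ := Real.log X with hS0
  have hS00 : 0 ≤ S0 := Real.log_nonneg hX1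
  have hexpS : Real.exp S0 = X := Real.exp_log hX0
  set ς : ℝ := 1 / X with hς
  have hς0 : 0 < ς := by positivity
  have hq0 : 2 * Real.exp S0 / ς = 2 * X ^ 2 := by
    rw [hexpS, hς]
    field_simp
  have hq : 1 ≤ 2 * Real.exp S0 / ς := by
    rw [hq0]
    nlinarith
  -- the sublevel quantity
  set y : ℝ := (h + 1) / Λ * (2 * Real.exp S0 / ς) ^ k * (8 * N) with hy
  have hy0 : 0 < y := by positivity
  have hyle : y ≤ (N : ℝ) ^ (-G) := by
    have h1 : h + 1 ≤ (ch + 1) * (N : ℝ) ^ (ε / 8) := by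
      have : (1 : ℝ) ≤ (N : ℝ) ^ (ε / 8) := Real.one_le_rpow hN1 (by positivity)
      nlinarith
    have h2 : (2 * Real.exp S0 / ς) ^ k ≤ 2 ^ k * (N : ℝ) ^ (2 * B * k) := by
      rw [hq0, mul_pow]
      refine mul_le_mul_of_nonneg_left ?_ (by positivity)
      have h3 : X ^ 2 ≤ (N : ℝ) ^ (2 * B) := by
        have h4 : X ^ 2 ≤ ((N : ℝ) ^ B) ^ 2 := pow_le_pow_left₀ hX0.le hXB 2
        refine h4.trans (le_of_eq ?_)
        rw [← Real.rpow_natCast, ← Real.rpow_mul hN0.le]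
        congr 1
        push_cast
        ring
      calc (X ^ 2) ^ k ≤ ((N : ℝ) ^ (2 * B)) ^ k := pow_le_pow_left₀ (by positivity) h3 k
        _ = (N : ℝ) ^ (2 * B * k) := by rw [← Real.rpow_natCast, ← Real.rpow_mul hN0.le]
    have h5 : (h + 1) * (2 * Real.exp S0 / ς) ^ k * (8 * N) ≤
        ((ch + 1) * (N : ℝ) ^ (ε / 8)) * (2 ^ k * (N : ℝ) ^ (2 * B * k)) * (8 * N) := by
      gcongr
    have h6 : ((ch + 1) * (N : ℝ) ^ (ε / 8)) * (2 ^ k * (N : ℝ) ^ (2 * B * k)) * (8 * N) =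
        C2 * (N : ℝ) ^ E * (N : ℝ) ^ (-G) := by
      have e1 : (N : ℝ) ^ E * (N : ℝ) ^ (-G) = (N : ℝ) ^ (ε / 8) * (N : ℝ) ^ (2 * B * k) * N := by
        have e2 : (N : ℝ) ^ (ε / 8) * (N : ℝ) ^ (2 * B * k) * N =
            (N : ℝ) ^ (ε / 8) * (N : ℝ) ^ (2 * B * k) * (N : ℝ) ^ (1 : ℝ) := by rw [Real.rpow_one]
        rw [e2, ← Real.rpow_add hN0, ← Real.rpow_add hN0, ← Real.rpow_add hN0]
        congr 1
        rw [hE]
        ring
      rw [mul_assoc C2, e1, hC2]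
      ring
    have h7 : y = ((h + 1) * (2 * Real.exp S0 / ς) ^ k * (8 * N)) / Λ := by
      rw [hy]
      ring
    rw [h7, div_le_iff₀ hΛ0]
    calc (h + 1) * (2 * Real.exp S0 / ς) ^ k * (8 * N) ≤ C2 * (N : ℝ) ^ E * (N : ℝ) ^ (-G) := h5.trans h6.le
      _ = (N : ℝ) ^ (-G) * (C2 * (N : ℝ) ^ E) := by ring
      _ ≤ (N : ℝ) ^ (-G) * Λ := mul_le_mul_of_nonneg_left hΛ2 (by positivity)
  have hG1 : (N : ℝ) ^ (-G) ≤ 1 := Real.rpow_le_one_of_one_le_of_nonpos hN1 (by linarith)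
  have hy1 : y ≤ 1 := hyle.trans hG1
  have hpp : y ^ ((1 / 4 : ℝ) ^ k) * ((R : ℝ) * N) ^ K2 ≤ (N : ℝ) ^ (-A) := by
    have h1 : y ^ ((1 / 4 : ℝ) ^ k) ≤ (N : ℝ) ^ (-(|A| + (B + 1) * K2)) := by
      refine (Real.rpow_le_rpow hy0.le hyle (by positivity)).trans (le_of_eq ?_)
      rw [← Real.rpow_mul hN0.le]
      congr 1
      rw [hG]
      have : (4 : ℝ) ^ k * (1 / 4) ^ k = 1 := by rw [← mul_pow]; norm_num
      linear_combination (-(|A| + (B + 1) * K2)) * this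
    have h2 : ((R : ℝ) * N) ^ K2 ≤ (N : ℝ) ^ ((B + 1) * K2) := by
      have h3 : ((R : ℝ) * N) ≤ (N : ℝ) ^ (B + 1) := by
        rw [Real.rpow_add hN0, Real.rpow_one]
        exact mul_le_mul_of_nonneg_right hR hN0.le
      calc ((R : ℝ) * N) ^ K2 ≤ ((N : ℝ) ^ (B + 1)) ^ K2 := pow_le_pow_left₀ (by positivity) h3 _
        _ = (N : ℝ) ^ ((B + 1) * K2) := by rw [← Real.rpow_natCast, ← Real.rpow_mul hN0.le]
    calc y ^ ((1 / 4 : ℝ) ^ k) * ((R : ℝ) * N) ^ K2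
        ≤ (N : ℝ) ^ (-(|A| + (B + 1) * K2)) * (N : ℝ) ^ ((B + 1) * K2) :=
          mul_le_mul h1 h2 (by positivity) (by positivity)
      _ = (N : ℝ) ^ (-|A|) := by
          rw [← Real.rpow_add hN0]
          congr 1
          ring
      _ ≤ (N : ℝ) ^ (-A) := Real.rpow_le_rpow_of_exponent_le hN1 (by linarith [le_abs_self A])
  -- the trace
  have htr := int_tracePP (k := k) hN c s Λ hΛ0 S0 ς hS00 hς0 hs hsep hq h hh0 hy1
  rw [hk1] at htr
  set c1 : ℝ := (K2 : ℝ) with hc1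
  set P : ℝ := (R : ℝ) + K2 * N with hP
  have hkK : (R : ℝ) + ((k : ℝ) + 1) * N = P := by
    have : (k : ℝ) + 1 = K2 := by exact_mod_cast hk1
    rw [this]
  rw [hkK] at htr
  set Xt : ℝ := N + R with hXt
  have hXt1 : 1 ≤ Xt := by rw [hXt]; linarith
  have hPle : P ≤ c1 * (N : ℝ) ^ (ε / 2) * Xt := by
    have h6 : (1 : ℝ) ≤ (N : ℝ) ^ (ε / 2) := Real.one_le_rpow hN1 (by positivity)
    calc P ≤ K2 * Xt := by
          rw [hP, hXt, mul_add]
          nlinarith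
      _ = K2 * 1 * Xt := by ring
      _ ≤ c1 * (N : ℝ) ^ (ε / 2) * Xt := by gcongr
  have hfin1 := hfin c1 P Xt hK2R hXt1 (by positivity) hPle
  set Y : ℝ := C * (N : ℝ) ^ ε * Xt with hY
  set Y1 : ℝ := (c1 + 2) * (N : ℝ) ^ ε * Xt with hY1
  have hY10 : 0 < Y1 := by positivity
  have hYY : Y1 ≤ Y := by
    rw [hY, hY1]
    refine mul_le_mul_of_nonneg_right (mul_le_mul_of_nonneg_right ?_ (by positivity)) (by positivity)
    rw [hC, hc1]
    linarith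
  have hY11 : 1 ≤ Y1 := by
    have h6 : (1 : ℝ) ≤ (N : ℝ) ^ ε := Real.one_le_rpow hN1 hε.le
    calc (1 : ℝ) = 1 * 1 * 1 := by norm_num
      _ ≤ (c1 + 2) * (N : ℝ) ^ ε * Xt := by
          have : 1 ≤ c1 + 2 := by linarith
          gcongr
  set Bd : Set (ℝ × ℝ) := {p | Y1 ^ K2 ≤ fro ((MM N (pP c s Λ p)) ^ (2 ^ a))} with hBd
  have hBm : MeasurableSet Bd := (isClosed_le continuous_const (cont_froP N a c s Λ)).measurableSet
  have hmark : mu2.real Bd ≤ (K2 + 5) * (N : ℝ) ^ (-A) := by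
    have e : K2 = 2 * 2 ^ a := by rw [hK2, pow_succ]; ring
    have h2 : ∀ p : ℝ × ℝ, ((MM N (pP c s Λ p)) ^ K2).trace =
        ((fro ((MM N (pP c s Λ p)) ^ (2 ^ a)) : ℝ) : ℂ) := by
      intro p
      rw [e, trace_fro (MM_herm N _)]
    simp only [h2] at htr
    have h4 := integral_ofReal (𝕜 := ℂ) (μ := mu2) (f := fun p : ℝ × ℝ => fro ((MM N (pP c s Λ p)) ^ (2 ^ a)))
    have h5 : ‖∫ p, ((fro ((MM N (pP c s Λ p)) ^ (2 ^ a)) : ℝ) : ℂ) ∂mu2‖ =
        |∫ p, fro ((MM N (pP c s Λ p)) ^ (2 ^ a)) ∂mu2| := by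
      refine (congrArg norm h4).trans ?_
      exact Complex.norm_real _
    rw [h5] at htr
    have h3 := (le_abs_self _).trans htr
    have hmul : Y1 ^ K2 * mu2.real Bd ≤ ∫ p, fro ((MM N (pP c s Λ p)) ^ (2 ^ a)) ∂mu2 := by
      refine mul_meas_ge_le_integral_of_nonneg (Filter.Eventually.of_forall fun p => fro_nonneg _) ?_ _
      refine Integrable.of_bound (C := ∑ x : J, ∑ y : J,
        ((Fintype.card J : ℝ) ^ (2 ^ a) * (N : ℝ) ^ (2 ^ a)) ^ 2) (cont_froP N a c s Λ).aestronglyMeasurable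
        (Filter.Eventually.of_forall fun p => ?_)
      rw [Real.norm_of_nonneg (fro_nonneg _)]
      exact fro_bound N a _
    have hY1K : 1 ≤ Y1 ^ K2 := one_le_pow₀ hY11
    have hY1K0 : 0 < Y1 ^ K2 := by positivity
    have h6 : mu2.real Bd ≤ (N * P ^ K2 + (R * N) ^ K2 * (Real.exp (-(h ^ 2 / 2)) +
        3 * y ^ ((1 / 4 : ℝ) ^ k))) / Y1 ^ K2 := by
      rw [le_div_iff₀ hY1K0, mul_comm]
      exact hmul.trans h3
    have h7 : (N * P ^ K2 + (R * N) ^ K2 * (Real.exp (-(h ^ 2 / 2)) + 3 * y ^ ((1 / 4 : ℝ) ^ k))) / Y1 ^ K2 =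
        (N * P ^ K2 + (R * N) ^ K2 * Real.exp (-(h ^ 2 / 2))) / Y1 ^ K2 +
          3 * (y ^ ((1 / 4 : ℝ) ^ k) * (R * N) ^ K2) / Y1 ^ K2 := by ring
    have h8 : 3 * (y ^ ((1 / 4 : ℝ) ^ k) * (R * N) ^ K2) / Y1 ^ K2 ≤ 3 * (N : ℝ) ^ (-A) := by
      rw [div_le_iff₀ hY1K0]
      have h9 : 0 ≤ 3 * (N : ℝ) ^ (-A) := by positivity
      calc 3 * (y ^ ((1 / 4 : ℝ) ^ k) * (R * N) ^ K2) ≤ 3 * (N : ℝ) ^ (-A) := by linarith
        _ = 3 * (N : ℝ) ^ (-A) * 1 := by ring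
        _ ≤ 3 * (N : ℝ) ^ (-A) * Y1 ^ K2 := mul_le_mul_of_nonneg_left hY1K h9
    rw [h7] at h6
    have h10 : (K2 + 5 : ℝ) * (N : ℝ) ^ (-A) = (c1 + 2) * (N : ℝ) ^ (-A) + 3 * (N : ℝ) ^ (-A) := by
      rw [hc1]; ring
    rw [h10]
    linarith
  refine ⟨Bd, fun p hp => ?_, ?_⟩
  · rw [hBd, Set.mem_ofPred_eq, not_le] at hp
    have h1 := mean_of_fro (a := a) (pP c s Λ p) Y1 hY10.le hp.le
    intro b
    exact (h1 b).trans (mul_le_mul_of_nonneg_right hYY (sum_nonneg fun _ _ => by positivity))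
  · refine (vol2_le Bd hBm).trans ?_
    rw [← ENNReal.ofReal_toReal (measure_ne_top mu2 Bd), show (5 : ENNReal) = ENNReal.ofReal 5 by norm_num,
      ← ENNReal.ofReal_mul (by norm_num)]
    refine ENNReal.ofReal_le_ofReal ?_
    have h1 : 5 * (mu2 Bd).toReal ≤ 5 * ((K2 + 5) * (N : ℝ) ^ (-A)) := mul_le_mul_of_nonneg_left hmark (by norm_num)
    refine h1.trans ?_
    rw [hC]
    have h2 : 0 ≤ C2 * (N : ℝ) ^ (-A) := by positivity
    linarith

end Pool.Agent.Helper68K9.SG
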