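import Pool.Agent.Helper68K9.SG.RSol
import Pool.Agent.Helper68K9.SG.Core

/-!
The expectation of the trace for Gaussian projections of points of `ℝ^m` in quantitative general position.
-/

set_option autoImplicit false

namespace Pool.Agent.Helper68K9.SG

open Finset Matrix MeasureTheory ProbabilityTheory

variable {J ι : Type} [Fintype J] [Fintype ι]

/-- the projected points -/
noncomputable def ptR (c : J → ℝ) (U : J → ι → ℝ) (θ : ι → ℝ) (j : J) : ℝ := c j + ∑ l, θ l * U j l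

/-- the vectors with a coordinate `1` added -/
def vvR (U : J → ι → ℝ) (j : J) : Option ι → ℝ
  | none => 1
  | some l => U j l

/-- at most `F` of the points are close to the affine span of `k` of them -/
def GP (U : J → ι → ℝ) (ρ : ℝ) (k F : ℕ) : Prop :=
  ∀ i < k + 1, ∀ w : Fin i → J, ∃ Z : Finset J, Z.card ≤ F ∧ ∀ x, x ∉ Z → ∃ (b : ℝ) (g : ι → ℝ),
    (∑ l, |g l| ≤ 1 / ρ) ∧ (∀ j, b + ∑ l, g l * U (w j) l = 0) ∧ 1 ≤ |b + ∑ l, g l * U x l|

omit [Fintype J] in
theorem dual_of_GP (U : J → ι → ℝ) (ρ : ℝ) (k F : ℕ) (h : ℝ) (hh : 0 ≤ h) (hU : GP U ρ k F) :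
    Dual (vvR U) (fun o => o.elim 0 fun _ => h) (h / ρ) k F := by
  intro i hi w
  obtain ⟨Z, hZ, hx⟩ := hU i hi w
  refine ⟨Z, hZ, fun x hxZ => ?_⟩
  obtain ⟨b, g, h1, h2, h3⟩ := hx x hxZ
  refine ⟨fun o => o.elim b g, ?_, ?_, ?_⟩
  · rw [Fintype.sum_option]
    simp only [Option.elim]
    rw [mul_zero, zero_add, ← sum_mul]
    calc (∑ l, |g l|) * h ≤ (1 / ρ) * h := mul_le_mul_of_nonneg_right h1 hh
      _ = h / ρ := by ring
  · intro j
    rw [Fintype.sum_option]
    simp only [Option.elim, vvR, mul_one]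
    exact h2 j
  · rw [Fintype.sum_option]
    simp only [Option.elim, vvR, mul_one]
    exact h3

/-- one term of the expansion of the trace -/
theorem int_termR {k : ℕ} (c : J → ℝ) (U : J → ι → ℝ) (w : Fin (k + 1) → J) (n : Fin (k + 1) → ℕ) :
    ‖∫ θ, Complex.exp ((-(∑ i, (ptR c U θ (w i) - ptR c U θ (w (i + 1))) * Real.log (n i)) : ℝ) * Complex.I)
      ∂(gam ι)‖ = Real.exp (-(∑ l, (lfR (vvR U) w n (some l)) ^ 2 / 2)) := by
  have e : ∀ θ : ι → ℝ, (∑ i, (ptR c U θ (w i) - ptR c U θ (w (i + 1))) * Real.log (n i)) =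
      (∑ i, (c (w i) - c (w (i + 1))) * Real.log (n i)) + ∑ l, θ l * lfR (vvR U) w n (some l) := by
    intro θ
    unfold lfR ptR
    simp only [mul_sum]
    rw [sum_comm, ← sum_add_distrib]
    refine sum_congr rfl fun i _ => ?_
    have e1 : ∀ l, θ l * ((vvR U (w i) (some l) - vvR U (w (i + 1)) (some l)) * Real.log (n i)) =
        (θ l * U (w i) l - θ l * U (w (i + 1)) l) * Real.log (n i) := by
      intro l
      have e2 : vvR U (w i) (some l) = U (w i) l := rfl
      have e3 : vvR U (w (i + 1)) (some l) = U (w (i + 1)) l := rfl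
      rw [e2, e3]
      ring
    rw [sum_congr rfl fun l _ => e1 l, ← sum_mul, sum_sub_distrib]
    ring
  have e2 : ∀ θ : ι → ℝ,
      Complex.exp ((-(∑ i, (ptR c U θ (w i) - ptR c U θ (w (i + 1))) * Real.log (n i)) : ℝ) * Complex.I) =
      Complex.exp ((-(∑ i, (c (w i) - c (w (i + 1))) * Real.log (n i)) : ℝ) * Complex.I) *
        Complex.exp ((-(∑ l, θ l * lfR (vvR U) w n (some l)) : ℝ) * Complex.I) := by
    intro θ
    rw [e, ← Complex.exp_add]
    congr 1
    push_cast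
    ring
  simp only [e2]
  rw [integral_const_mul, int_exp, norm_mul, Complex.norm_exp_ofReal_mul_I, one_mul, Complex.norm_exp,
    Complex.ofReal_re]

theorem cont_ptR (c : J → ℝ) (U : J → ι → ℝ) (j : J) : Continuous fun θ => ptR c U θ j := by
  unfold ptR
  fun_prop

/-- the bound for the expectation of the trace -/
theorem int_traceR [DecidableEq J] {k N F : ℕ} (hN : 1 ≤ N) (c : J → ℝ) (U : J → ι → ℝ) (ρ : ℝ)
    (hU : GP U ρ k F) (h : ℝ) (hh : 0 ≤ h) :
    ‖∫ θ, ((MM N (ptR c U θ)) ^ (k + 1)).trace ∂(gam ι)‖ ≤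
      N * (Fintype.card J * (⌊4 * (h / ρ) * N⌋₊ + 1 : ℕ) + F * N) ^ (k + 1) +
      (Fintype.card J * N) ^ (k + 1) * Real.exp (-(h ^ 2 / 2)) := by
  classical
  have hN0 : (0 : ℝ) < N := by exact_mod_cast hN
  simp only [trace_MM]
  have hint : ∀ (w : Fin (k + 1) → J) (n : Fin (k + 1) → ℕ), Integrable (fun θ : ι → ℝ =>
      Complex.exp ((-(∑ i, (ptR c U θ (w i) - ptR c U θ (w (i + 1))) * Real.log (n i)) : ℝ) * Complex.I))
      (gam ι) := by
    intro w n
    refine Integrable.of_bound (C := 1) ?_ (Filter.Eventually.of_forall fun θ => ?_)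
    · refine Continuous.aestronglyMeasurable ?_
      refine Complex.continuous_exp.comp ((Complex.continuous_ofReal.comp ?_).mul continuous_const)
      refine (continuous_finset_sum _ fun i _ => ?_).neg
      exact ((cont_ptR c U _).sub (cont_ptR c U _)).mul continuous_const
    · rw [Complex.norm_exp_ofReal_mul_I]
  rw [integral_finset_sum _ fun w _ => integrable_finset_sum _ fun n _ => hint w n]
  have e1 : ∀ w : Fin (k + 1) → J, ∫ θ, ∑ n ∈ Fintype.piFinset (fun _ : Fin (k + 1) => Icc 1 N),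
      Complex.exp ((-(∑ i, (ptR c U θ (w i) - ptR c U θ (w (i + 1))) * Real.log (n i)) : ℝ) * Complex.I)
      ∂(gam ι) = ∑ n ∈ Fintype.piFinset (fun _ : Fin (k + 1) => Icc 1 N), ∫ θ,
      Complex.exp ((-(∑ i, (ptR c U θ (w i) - ptR c U θ (w (i + 1))) * Real.log (n i)) : ℝ) * Complex.I)
      ∂(gam ι) := fun w => integral_finset_sum _ fun n _ => hint w n
  simp only [e1]
  set δ : Option ι → ℝ := fun o => o.elim 0 fun _ => h with hδ
  have e2 : ∀ (w : Fin (k + 1) → J) (n : Fin (k + 1) → ℕ),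
      ‖∫ θ, Complex.exp ((-(∑ i, (ptR c U θ (w i) - ptR c U θ (w (i + 1))) * Real.log (n i)) : ℝ) * Complex.I)
        ∂(gam ι)‖ ≤ (if (∀ o, |lfR (vvR U) w n o| ≤ δ o) then 1 else 0) + Real.exp (-(h ^ 2 / 2)) := by
    intro w n
    rw [int_termR]
    split_ifs with hc
    · have : Real.exp (-(∑ l, (lfR (vvR U) w n (some l)) ^ 2 / 2)) ≤ 1 := by
        rw [Real.exp_le_one_iff]
        have : 0 ≤ ∑ l, (lfR (vvR U) w n (some l)) ^ 2 / 2 := sum_nonneg fun _ _ => by positivity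
        linarith
      linarith [Real.exp_pos (-(h ^ 2 / 2))]
    · rw [zero_add]
      push Not at hc
      obtain ⟨o, ho⟩ := hc
      cases o with
      | none =>
        exfalso
        have : lfR (vvR U) w n none = 0 := by
          unfold lfR
          refine sum_eq_zero fun i _ => ?_
          show ((1 : ℝ) - 1) * _ = 0
          simp
        rw [this, abs_zero] at ho
        exact lt_irrefl _ ho
      | some l =>
        rw [Real.exp_le_exp]
        have h1 : (lfR (vvR U) w n (some l)) ^ 2 / 2 ≤ ∑ l, (lfR (vvR U) w n (some l)) ^ 2 / 2 :=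
          single_le_sum (f := fun l => (lfR (vvR U) w n (some l)) ^ 2 / 2) (fun _ _ => by positivity)
            (mem_univ l)
        have h2 : h ≤ |lfR (vvR U) w n (some l)| := ho.le
        have h3 : h ^ 2 ≤ (lfR (vvR U) w n (some l)) ^ 2 := by
          rw [← sq_abs (lfR (vvR U) w n (some l))]
          exact pow_le_pow_left₀ hh h2 2
        linarith
  have hsum : ‖∑ w : Fin (k + 1) → J, ∑ n ∈ Fintype.piFinset (fun _ : Fin (k + 1) => Icc 1 N), ∫ θ,
      Complex.exp ((-(∑ i, (ptR c U θ (w i) - ptR c U θ (w (i + 1))) * Real.log (n i)) : ℝ) * Complex.I)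
      ∂(gam ι)‖ ≤ ∑ w : Fin (k + 1) → J, ∑ n ∈ Fintype.piFinset (fun _ : Fin (k + 1) => Icc 1 N),
        ((if (∀ o, |lfR (vvR U) w n o| ≤ δ o) then (1 : ℝ) else 0) + Real.exp (-(h ^ 2 / 2))) := by
    refine (norm_sum_le _ _).trans (sum_le_sum fun w _ => ?_)
    exact (norm_sum_le _ _).trans (sum_le_sum fun n _ => e2 w n)
  refine hsum.trans ?_
  simp only [sum_add_distrib, sum_const, Fintype.card_piFinset_const, Nat.card_Icc, Nat.add_sub_cancel,
    nsmul_eq_mul, card_univ, Fintype.card_fun, Fintype.card_fin]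
  refine add_le_add ?_ (le_of_eq ?_)
  · have h1 := card_allR hN (k := k) (F := F) (vvR U) δ (h / ρ) (dual_of_GP U ρ k F h hh hU)
    have h2 : ∑ w : Fin (k + 1) → J, ∑ n ∈ Fintype.piFinset (fun _ : Fin (k + 1) => Icc 1 N),
        (if (∀ o, |lfR (vvR U) w n o| ≤ δ o) then (1 : ℝ) else 0) =
        ((∑ w : Fin (k + 1) → J, ((Fintype.piFinset fun _ : Fin (k + 1) => Icc 1 N).filter
          fun n => ∀ o, |lfR (vvR U) w n o| ≤ δ o).card : ℕ) : ℝ) := by
      push_cast
      refine sum_congr rfl fun w _ => ?_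
      rw [← sum_filter, sum_const, nsmul_eq_mul, mul_one]
    rw [h2]
    have h3 : ((∑ w : Fin (k + 1) → J, ((Fintype.piFinset fun _ : Fin (k + 1) => Icc 1 N).filter
          fun n => ∀ o, |lfR (vvR U) w n o| ≤ δ o).card : ℕ) : ℝ) ≤
        ((N * (Fintype.card J * (⌊4 * (h / ρ) * N⌋₊ + 1) + F * N) ^ (k + 1) : ℕ) : ℝ) := by
      exact_mod_cast h1
    refine h3.trans (le_of_eq ?_)
    push_cast
    ring
  · push_cast
    ring

theorem cont_froR [DecidableEq J] (N a : ℕ) (c : J → ℝ) (U : J → ι → ℝ) :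
    Continuous fun θ : ι → ℝ => fro ((MM N (ptR c U θ)) ^ (2 ^ a)) := by
  have hc : Continuous fun θ : ι → ℝ => MM N (ptR c U θ) := by
    refine continuous_matrix fun x y => ?_
    unfold MM ph
    refine continuous_finset_sum _ fun n _ => ?_
    refine Continuous.mul ?_ (Complex.continuous_conj.comp ?_)
    · exact Complex.continuous_exp.comp ((Complex.continuous_ofReal.comp
        (((cont_ptR c U x).mul continuous_const).neg)).mul continuous_const)
    · exact Complex.continuous_exp.comp ((Complex.continuous_ofReal.comp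
        (((cont_ptR c U y).mul continuous_const).neg)).mul continuous_const)
  have hc2 : Continuous fun θ : ι → ℝ => (MM N (ptR c U θ)) ^ (2 ^ a) := hc.pow _
  unfold fro
  refine continuous_finset_sum _ fun x _ => continuous_finset_sum _ fun y _ => ?_
  exact ((hc2.matrix_elem x y).norm).pow 2

theorem MM_entry (N : ℕ) (t : J → ℝ) (x y : J) : ‖MM N t x y‖ ≤ N := by
  unfold MM
  refine (norm_sum_le _ _).trans ?_
  refine (sum_le_sum (g := fun _ => (1 : ℝ)) fun n _ => ?_).trans (by simp)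
  rw [ph_mul, Complex.norm_exp_ofReal_mul_I]

theorem fro_bound [DecidableEq J] (N a : ℕ) (t : J → ℝ) : fro ((MM N t) ^ (2 ^ a)) ≤
    ∑ x : J, ∑ y : J, ((Fintype.card J : ℝ) ^ (2 ^ a) * (N : ℝ) ^ (2 ^ a)) ^ 2 := by
  unfold fro
  refine sum_le_sum fun x _ => sum_le_sum fun y _ => ?_
  refine pow_le_pow_left₀ (norm_nonneg _) ?_ 2
  have hpow : ∀ q : ℕ, ∀ x y : J, ‖((MM N t) ^ q) x y‖ ≤
      (Fintype.card J : ℝ) ^ q * (N : ℝ) ^ q := by
    intro q
    induction q with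
    | zero =>
      intro x y
      rw [pow_zero, pow_zero, pow_zero, Matrix.one_apply]
      split_ifs <;> simp
    | succ q ih =>
      intro x y
      rw [pow_succ, Matrix.mul_apply]
      refine (norm_sum_le _ _).trans ?_
      refine (sum_le_sum (g := fun _ => (Fintype.card J : ℝ) ^ q * (N : ℝ) ^ q * N) fun z _ => ?_).trans
        (le_of_eq ?_)
      · rw [norm_mul]
        exact mul_le_mul (ih x z) (MM_entry N t z y) (norm_nonneg _) (by positivity)
      · rw [sum_const, card_univ, nsmul_eq_mul]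
        ring
  exact hpow _ x y

/-- Markov's inequality for the trace -/
theorem tailR [DecidableEq J] {a N F : ℕ} (hN : 1 ≤ N) (c : J → ℝ) (U : J → ι → ℝ) (ρ : ℝ)
    (hU : GP U ρ (2 ^ (a + 1) - 1) F) (h : ℝ) (hh : 0 ≤ h) (Y : ℝ) (hY : 0 < Y) :
    (gam ι).real {θ | Y ^ (2 ^ (a + 1)) ≤ fro ((MM N (ptR c U θ)) ^ (2 ^ a))} ≤
      (N * (Fintype.card J * (⌊4 * (h / ρ) * N⌋₊ + 1 : ℕ) + F * N) ^ (2 ^ (a + 1)) +
      (Fintype.card J * N) ^ (2 ^ (a + 1)) * Real.exp (-(h ^ 2 / 2))) / Y ^ (2 ^ (a + 1)) := by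
  have hk : 2 ^ (a + 1) - 1 + 1 = 2 ^ (a + 1) := Nat.sub_add_cancel Nat.one_le_two_pow
  have h1 := int_traceR (k := 2 ^ (a + 1) - 1) hN c U ρ hU h hh
  rw [hk] at h1
  have e : 2 ^ (a + 1) = 2 * 2 ^ a := by rw [pow_succ]; ring
  have h2 : ∀ θ : ι → ℝ, ((MM N (ptR c U θ)) ^ (2 ^ (a + 1))).trace =
      ((fro ((MM N (ptR c U θ)) ^ (2 ^ a)) : ℝ) : ℂ) := by
    intro θ
    rw [e, trace_fro (MM_herm N _)]
  simp only [h2] at h1
  have h4 := integral_ofReal (𝕜 := ℂ) (μ := gam ι) (f := fun θ : ι → ℝ => fro ((MM N (ptR c U θ)) ^ (2 ^ a)))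
  have h5 : ‖∫ θ, ((fro ((MM N (ptR c U θ)) ^ (2 ^ a)) : ℝ) : ℂ) ∂(gam ι)‖ =
      |∫ θ, fro ((MM N (ptR c U θ)) ^ (2 ^ a)) ∂(gam ι)| := by
    refine (congrArg norm h4).trans ?_
    exact Complex.norm_real _
  rw [h5] at h1
  have h3 := (le_abs_self _).trans h1
  rw [le_div_iff₀ (pow_pos hY _), mul_comm]
  refine le_trans ?_ h3
  refine mul_meas_ge_le_integral_of_nonneg (Filter.Eventually.of_forall fun θ => fro_nonneg _) ?_ _
  refine Integrable.of_bound (C := ∑ x : J, ∑ y : J,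
    ((Fintype.card J : ℝ) ^ (2 ^ a) * (N : ℝ) ^ (2 ^ a)) ^ 2) (cont_froR N a c U).aestronglyMeasurable
    (Filter.Eventually.of_forall fun θ => ?_)
  rw [Real.norm_of_nonneg (fro_nonneg _)]
  exact fro_bound N a _

/-- the two bounds for the exceptional set -/
theorem coreR {a N F : ℕ} (hN : 1 ≤ N) (c : J → ℝ) (U : J → ι → ℝ) (ρ : ℝ)
    (hU : GP U ρ (2 ^ (a + 1) - 1) F) (h : ℝ) (hh : 0 ≤ h) (Y : ℝ) (hY : 0 < Y) (b : ℝ)
    (hb : (N * (Fintype.card J * (⌊4 * (h / ρ) * N⌋₊ + 1 : ℕ) + F * N) ^ (2 ^ (a + 1)) +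
      (Fintype.card J * N) ^ (2 ^ (a + 1)) * Real.exp (-(h ^ 2 / 2))) / Y ^ (2 ^ (a + 1)) ≤ b) :
    ∃ S : Set (ι → ℝ), (∀ θ, θ ∉ S → MV N Y (ptR c U θ)) ∧ gam ι S ≤ ENNReal.ofReal b ∧
      volume (S ∩ Set.Icc (-1) 1) ≤ 5 ^ (Fintype.card ι) * ENNReal.ofReal b := by
  classical
  set S : Set (ι → ℝ) := {θ | Y ^ (2 ^ (a + 1)) ≤ fro ((MM N (ptR c U θ)) ^ (2 ^ a))} with hS
  have hSm : MeasurableSet S := (isClosed_le continuous_const (cont_froR N a c U)).measurableSet
  have h1 : (gam ι).real S ≤ b := (tailR hN c U ρ hU h hh Y hY).trans hb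
  have h2 : gam ι S ≤ ENNReal.ofReal b := by
    rw [← ENNReal.ofReal_toReal (measure_ne_top (gam ι) S)]
    exact ENNReal.ofReal_le_ofReal h1
  refine ⟨S, fun θ hθ => ?_, h2, (vol_le S hSm).trans (mul_le_mul_right h2 _)⟩
  rw [hS, Set.mem_setOf_eq, not_le] at hθ
  exact fun b => mean_of_fro (ptR c U θ) Y hY.le hθ.le b

end Pool.Agent.Helper68K9.SG
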