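import Pool.Agent.Helper68K9.SG.Sol

/-!
The number of the almost solutions for real vectors in quantitative general position.
-/

set_option autoImplicit false

namespace Pool.Agent.Helper68K9.SG

open Finset

variable {J κ : Type} [Fintype J] [Fintype κ]

/-- the linear form in logarithms -/
noncomputable def lfR (v : J → κ → ℝ) {k : ℕ} (s : Fin (k + 1) → J) (n : Fin (k + 1) → ℕ) (o : κ) : ℝ :=
  ∑ i, (v (s i) o - v (s (i + 1)) o) * Real.log (n i)

/-- few of the vectors are close to the span of few others -/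
def Dual (v : J → κ → ℝ) (δ : κ → ℝ) (q : ℝ) (k F : ℕ) : Prop :=
  ∀ i < k + 1, ∀ w : Fin i → J, ∃ Z : Finset J, Z.card ≤ F ∧ ∀ x, x ∉ Z → ∃ h : κ → ℝ,
    (∑ o, |h o| * δ o ≤ q) ∧ (∀ j, ∑ o, h o * v (w j) o = 0) ∧ 1 ≤ |∑ o, h o * v x o|

/-- the weight of the element `x` after the initial segment `s` -/
noncomputable def rhoR [DecidableEq J] (Z : (i : ℕ) → (Fin i → J) → Finset J) (w N : ℕ) (i : ℕ) (s : Fin i → J)
    (x : J) : ℕ :=
  if x ∈ Z i s then N else w

/-- the key step: a coordinate followed by a new vector is determined by the later ones up to `w` choices -/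
theorem keyR {k : ℕ} (v : J → κ → ℝ) (δ : κ → ℝ) (q : ℝ) (s : Fin (k + 1) → J) (i : Fin k) (h : κ → ℝ)
    (h1 : ∑ o, |h o| * δ o ≤ q) (h2 : ∀ j, ∑ o, h o * v (ini s i.succ i.succ.2.le j) o = 0)
    (h3 : 1 ≤ |∑ o, h o * v (s i.succ) o|)
    (g g' : Fin (k + 1) → ℕ) (hg : ∀ o, |lfR v s g o| ≤ δ o) (hg' : ∀ o, |lfR v s g' o| ≤ δ o)
    (heq : ∀ j, i.castSucc < j → g' j = g j) :
    |Real.log (g' i.castSucc) - Real.log (g i.castSucc)| ≤ 2 * q := by
  set H : Fin (k + 1) → ℝ := fun j => ∑ o, h o * v (s j) o with hH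
  have hH0 : ∀ j : Fin (k + 1), (j : ℕ) < (i.succ : ℕ) → H j = 0 := by
    intro j hj
    exact h2 ⟨j, hj⟩
  have e1 : ∀ n : Fin (k + 1) → ℕ, ∑ o, h o * lfR v s n o = ∑ j, (H j - H (j + 1)) * Real.log (n j) := by
    intro n
    unfold lfR
    simp only [mul_sum]
    rw [sum_comm]
    refine sum_congr rfl fun j _ => ?_
    rw [hH]
    simp only
    rw [← sum_sub_distrib, sum_mul]
    refine sum_congr rfl fun o _ => by ring
  have e2 : ∑ o, h o * (lfR v s g' o - lfR v s g o) =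
      - (H i.succ) * (Real.log (g' i.castSucc) - Real.log (g i.castSucc)) := by
    have : ∑ o, h o * (lfR v s g' o - lfR v s g o) =
        ∑ j, (H j - H (j + 1)) * (Real.log (g' j) - Real.log (g j)) := by
      simp only [mul_sub, sum_sub_distrib]
      rw [e1, e1]
    rw [this, sum_eq_single i.castSucc]
    · rw [Fin.coeSucc_eq_succ, hH0 i.castSucc (by simp)]
      ring
    · intro j _ hj
      rcases lt_or_gt_of_ne hj with hlt | hgt
      · have a1 : (j : ℕ) < i := by simpa [Fin.lt_def] using hlt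
        have a2 : j.val + 1 < k + 1 := by omega
        have a3 : ((j + 1 : Fin (k + 1)) : ℕ) = j + 1 := by
          rw [Fin.val_add_one_of_lt']
          exact a2
        rw [hH0 j (by simp; omega), hH0 (j + 1) (by rw [a3]; simp; omega)]
        simp
      · rw [heq j hgt]
        simp
    · simp
  have h5 : |∑ o, h o * (lfR v s g' o - lfR v s g o)| ≤ 2 * q := by
    refine (abs_sum_le_sum_abs _ _).trans ?_
    have hδ : ∀ o, |h o * (lfR v s g' o - lfR v s g o)| ≤ 2 * (|h o| * δ o) := by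
      intro o
      rw [abs_mul]
      have h6 : |lfR v s g' o - lfR v s g o| ≤ 2 * δ o := by
        refine (abs_sub _ _).trans ?_
        linarith [hg o, hg' o]
      calc |h o| * |lfR v s g' o - lfR v s g o| ≤ |h o| * (2 * δ o) :=
            mul_le_mul_of_nonneg_left h6 (abs_nonneg _)
        _ = 2 * (|h o| * δ o) := by ring
    refine (sum_le_sum fun o _ => hδ o).trans ?_
    rw [← mul_sum]
    linarith
  rw [e2, abs_mul, abs_neg] at h5
  have h6 : 0 ≤ |Real.log (g' i.castSucc) - Real.log (g i.castSucc)| := abs_nonneg _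
  nlinarith

/-- the number of `n` for a given `s` -/
theorem card_solR [DecidableEq J] {k N : ℕ} (hN : 1 ≤ N) (v : J → κ → ℝ) (δ : κ → ℝ) (q : ℝ)
    (Z : (i : ℕ) → (Fin i → J) → Finset J)
    (hZ : ∀ i < k + 1, ∀ w : Fin i → J, ∀ x, x ∉ Z i w → ∃ h : κ → ℝ,
      (∑ o, |h o| * δ o ≤ q) ∧ (∀ j, ∑ o, h o * v (w j) o = 0) ∧ 1 ≤ |∑ o, h o * v x o|)
    (s : Fin (k + 1) → J) :
    ((Fintype.piFinset fun _ : Fin (k + 1) => Icc 1 N).filter fun n => ∀ o, |lfR v s n o| ≤ δ o).card ≤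
      N * ∏ i : Fin (k + 1), rhoR Z (⌊4 * q * N⌋₊ + 1) N i (ini s i i.2.le) (s i) := by
  classical
  set w := ⌊4 * q * N⌋₊ + 1 with hw
  set W : Fin (k + 1) → ℕ := Fin.snoc (α := fun _ => ℕ)
    (fun i : Fin k => rhoR Z w N i.succ (ini s i.succ i.succ.2.le) (s i.succ)) N with hW
  have h1 := card_le_prod (k + 1)
    ((Fintype.piFinset fun _ : Fin (k + 1) => Icc 1 N).filter fun n => ∀ o, |lfR v s n o| ≤ δ o) W ?_
  · refine h1.trans ?_
    rw [Fin.prod_univ_castSucc, Fin.prod_univ_succ]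
    simp only [hW, Fin.snoc_castSucc, Fin.snoc_last]
    have h2 : 1 ≤ rhoR Z w N (0 : Fin (k + 1)) (ini s (0 : Fin (k + 1)) (0 : Fin (k + 1)).2.le) (s 0) := by
      unfold rhoR
      split_ifs
      · exact hN
      · rw [hw]; omega
    calc (∏ i : Fin k, rhoR Z w N i.succ (ini s i.succ i.succ.2.le) (s i.succ)) * N
        = N * (1 * ∏ i : Fin k, rhoR Z w N i.succ (ini s i.succ i.succ.2.le) (s i.succ)) := by ring
      _ ≤ _ := Nat.mul_le_mul_left _ (Nat.mul_le_mul_right _ h2)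
  · intro i g hg T hT
    rw [mem_filter, Fintype.mem_piFinset] at hg
    have hTN : ∀ x ∈ T, x ∈ Icc 1 N := by
      intro x hx
      obtain ⟨g', hg', _, rfl⟩ := hT x hx
      rw [mem_filter, Fintype.mem_piFinset] at hg'
      exact hg'.1 i
    have hcN : T.card ≤ N := by
      have := card_le_card (show T ⊆ Icc 1 N from hTN)
      simpa using this
    rcases Fin.eq_castSucc_or_eq_last i with ⟨i', rfl⟩ | rfl
    · have e : W i'.castSucc = rhoR Z w N i'.succ (ini s i'.succ i'.succ.2.le) (s i'.succ) := by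
        rw [hW, Fin.snoc_castSucc]
      rw [e]
      unfold rhoR
      split_ifs with hnew
      · exact hcN
      · rw [hw]
        obtain ⟨h, a1, a2, a3⟩ := hZ i'.succ i'.succ.2 _ _ hnew
        have h3 := card_log N T (Real.log (g i'.castSucc)) (2 * q) ?_
        · refine h3.trans (le_of_eq ?_)
          congr 2
          ring
        · intro x hx
          refine ⟨hTN x hx, ?_⟩
          obtain ⟨g', hg', h4, rfl⟩ := hT x hx
          rw [mem_filter] at hg'
          exact keyR v δ q s i' h a1 a2 a3 g g' hg.2 hg'.2 h4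
    · have e : W (Fin.last k) = N := by rw [hW, Fin.snoc_last]
      rw [e]
      exact hcN

/-- the number of the pairs `(s, n)` -/
theorem card_allR {k N F : ℕ} (hN : 1 ≤ N) (v : J → κ → ℝ) (δ : κ → ℝ) (q : ℝ) (hd : Dual v δ q k F) :
    ∑ s : Fin (k + 1) → J,
      ((Fintype.piFinset fun _ : Fin (k + 1) => Icc 1 N).filter fun n => ∀ o, |lfR v s n o| ≤ δ o).card ≤
      N * (Fintype.card J * (⌊4 * q * N⌋₊ + 1) + F * N) ^ (k + 1) := by
  classical
  have hex : ∀ i : ℕ, ∀ w : Fin i → J, ∃ Z : Finset J, i < k + 1 → Z.card ≤ F ∧ ∀ x, x ∉ Z → ∃ h : κ → ℝ,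
      (∑ o, |h o| * δ o ≤ q) ∧ (∀ j, ∑ o, h o * v (w j) o = 0) ∧ 1 ≤ |∑ o, h o * v x o| := by
    intro i w
    by_cases hi : i < k + 1
    · obtain ⟨Z, hZ⟩ := hd i hi w
      exact ⟨Z, fun _ => hZ⟩
    · exact ⟨∅, fun h => absurd h hi⟩
  choose Z hZ using hex
  refine (sum_le_sum fun s _ => card_solR hN v δ q Z (fun i hi w => (hZ i w hi).2) s).trans ?_
  rw [← mul_sum]
  refine Nat.mul_le_mul_left _ (sum_prefix _ _ (k + 1) ?_)
  intro i hi s
  have h1 : ∀ x, rhoR Z (⌊4 * q * N⌋₊ + 1) N i s x ≤ (⌊4 * q * N⌋₊ + 1) + if x ∈ Z i s then N else 0 := by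
    intro x
    unfold rhoR
    by_cases h : x ∈ Z i s
    · simp only [if_pos h]; omega
    · simp only [if_neg h]; omega
  refine (sum_le_sum fun x _ => h1 x).trans ?_
  rw [sum_add_distrib, sum_const, card_univ, smul_eq_mul, ← sum_filter, sum_const, smul_eq_mul]
  refine Nat.add_le_add_left (Nat.mul_le_mul_right _ ?_) _
  rw [filter_univ_mem]
  exact (hZ i s hi).1

end Pool.Agent.Helper68K9.SG
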