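import Pool.Agent.Helper68K9.SG.Lin
import Pool.Agent.Helper68K9.SG.Cnt

/-!
The number of the almost solutions `(s, n)` of `∑ i, (v (s i) - v (s (i + 1))) log (n i) = 0`.
-/

set_option autoImplicit false

namespace Pool.Agent.Helper68K9.SG

open Finset

/-- few integers have logarithms in a short interval -/
theorem card_log (N : ℕ) (T : Finset ℕ) (L κ : ℝ) (hT : ∀ x ∈ T, x ∈ Icc 1 N ∧ |Real.log x - L| ≤ κ) :
    T.card ≤ ⌊2 * κ * N⌋₊ + 1 := by
  rcases T.eq_empty_or_nonempty with rfl | hne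
  · simp
  set m := T.min' hne with hm
  set M := T.max' hne with hM
  have hm1 := hT m (T.min'_mem hne)
  have hM1 := hT M (T.max'_mem hne)
  have hmM : m ≤ M := T.min'_le_max' hne
  have h1 : T ⊆ Icc m M := fun x hx => mem_Icc.2 ⟨T.min'_le x hx, T.le_max' x hx⟩
  have h2 := card_le_card h1
  rw [Nat.card_Icc] at h2
  have hm0 : (0 : ℝ) < m := by exact_mod_cast (mem_Icc.1 hm1.1).1
  have hM0 : (0 : ℝ) < M := by exact_mod_cast (mem_Icc.1 hM1.1).1
  have hMN : (M : ℝ) ≤ N := by exact_mod_cast (mem_Icc.1 hM1.1).2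
  have h3 : Real.log M - Real.log m ≤ 2 * κ := by
    have a1 := abs_le.1 hm1.2
    have a2 := abs_le.1 hM1.2
    linarith [a1.1, a2.2]
  have h4 : 1 - (m : ℝ) / M ≤ Real.log M - Real.log m := by
    rw [← Real.log_div hM0.ne' hm0.ne']
    have := Real.one_sub_inv_le_log_of_pos (div_pos hM0 hm0)
    rwa [inv_div] at this
  have hκ : 0 ≤ κ := (abs_nonneg _).trans hm1.2
  have h5 : (M : ℝ) - m ≤ 2 * κ * N := by
    have h6 : (M : ℝ) - m = (1 - (m : ℝ) / M) * M := by field_simp
    rw [h6]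
    calc (1 - (m : ℝ) / M) * M ≤ (2 * κ) * M := mul_le_mul_of_nonneg_right (h4.trans h3) hM0.le
      _ ≤ 2 * κ * N := mul_le_mul_of_nonneg_left hMN (by positivity)
  have h6 : M - m ≤ ⌊2 * κ * N⌋₊ := by
    refine Nat.le_floor ?_
    rw [Nat.cast_sub hmM]
    exact h5
  omega

variable {J κ : Type} [Fintype J] [Fintype κ]

/-- the linear form in logarithms -/
noncomputable def lf (v : J → κ → ℤ) {k : ℕ} (s : Fin (k + 1) → J) (n : Fin (k + 1) → ℕ) (o : κ) : ℝ :=
  ∑ i, ((v (s i) o - v (s (i + 1)) o : ℤ) : ℝ) * Real.log (n i)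

/-- the span of the vectors of an initial segment -/
def PS (v : J → κ → ℤ) {p : ℕ} (s : Fin p → J) : Submodule ℚ (κ → ℚ) :=
  Submodule.span ℚ (Set.range fun j => cst (v (s j)))

/-- the sequence of the vectors -/
def us (v : J → κ → ℤ) {k : ℕ} (s : Fin (k + 1) → J) (j : ℕ) : κ → ℤ :=
  if h : j < k + 1 then v (s ⟨j, h⟩) else 0

theorem us_fin (v : J → κ → ℤ) {k : ℕ} (s : Fin (k + 1) → J) (j : Fin (k + 1)) : us v s j = v (s j) := by
  unfold us
  rw [dif_pos j.2]

theorem PS_ini (v : J → κ → ℤ) {k : ℕ} (s : Fin (k + 1) → J) (p : ℕ) (hp : p ≤ k + 1) :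
    PS v (ini s p hp) = Sp (us v s) p := by
  unfold PS Sp
  congr 2
  funext j
  have := us_fin v s (Fin.castLE hp j)
  show cst (v (s (Fin.castLE hp j))) = cst (us v s j)
  rw [← this]
  rfl

/-- the bound `w` for the number of choices -/
noncomputable def ww (D k N : ℕ) (δ : ℝ) : ℕ := ⌊4 * QQ D (k + 1) * δ * N⌋₊ + 1

open Classical in
/-- the weight of the element `x` after the initial segment `s` -/
noncomputable def rho (v : J → κ → ℤ) (w N : ℕ) (i : ℕ) (s : Fin i → J) (x : J) : ℕ :=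
  if cst (v x) ∈ PS v s then N else w

/-- the key step: a coordinate followed by a new vector is determined by the later ones up to `w` choices -/
theorem key {D k : ℕ} (hD : 1 ≤ D) (v : J → κ → ℤ) (hv : ∀ x o, |v x o| ≤ D) (δ : ℝ)
    (s : Fin (k + 1) → J) (i : Fin k) (hnew : cst (v (s i.succ)) ∉ PS v (ini s i.succ i.succ.2.le))
    (g g' : Fin (k + 1) → ℕ) (hg : ∀ o, |lf v s g o| ≤ δ) (hg' : ∀ o, |lf v s g' o| ≤ δ)
    (heq : ∀ j, i.castSucc < j → g' j = g j) :
    |Real.log (g' i.castSucc) - Real.log (g i.castSucc)| ≤ 2 * QQ D (k + 1) * δ := by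
  rw [PS_ini] at hnew
  have hus : ∀ j o, |us v s j o| ≤ D := by
    intro j o
    unfold us
    split_ifs with h
    · exact hv _ _
    · simp
  obtain ⟨h, h1, h2, h3⟩ := small hD (us v s) hus _ _ hnew
  set H : Fin (k + 1) → ℤ := fun j => dz h (v (s j)) with hH
  have hH0 : ∀ j : Fin (k + 1), (j : ℕ) < (i.succ : ℕ) → H j = 0 := by
    intro j hj
    have := h2 j hj
    rw [us_fin] at this
    exact this
  have e1 : ∀ n : Fin (k + 1) → ℕ, ∑ o, (h o : ℝ) * lf v s n o =
      ∑ j, ((H j - H (j + 1) : ℤ) : ℝ) * Real.log (n j) := by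
    intro n
    unfold lf
    simp only [mul_sum]
    rw [sum_comm]
    refine sum_congr rfl fun j _ => ?_
    rw [hH]
    simp only [dz]
    push_cast
    rw [← sum_sub_distrib, sum_mul]
    refine sum_congr rfl fun o _ => by ring
  have e2 : ∑ o, (h o : ℝ) * (lf v s g' o - lf v s g o) =
      - (H i.succ : ℝ) * (Real.log (g' i.castSucc) - Real.log (g i.castSucc)) := by
    have : ∑ o, (h o : ℝ) * (lf v s g' o - lf v s g o) =
        ∑ j, ((H j - H (j + 1) : ℤ) : ℝ) * (Real.log (g' j) - Real.log (g j)) := by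
      simp only [mul_sub, sum_sub_distrib]
      rw [e1, e1]
    rw [this, sum_eq_single i.castSucc]
    · rw [Fin.coeSucc_eq_succ, hH0 i.castSucc (by simp)]
      push_cast
      ring
    · intro j _ hj
      rcases lt_or_gt_of_ne hj with hlt | hgt
      · have a1 : (j : ℕ) < i := by simpa [Fin.lt_def] using hlt
        have a2 : j.val + 1 < k + 1 := by omega
        have a3 : ((j + 1 : Fin (k + 1)) : ℕ) = j + 1 := by
          rw [Fin.val_add_one_of_lt']
          exact a2
        rw [hH0 j (by simp; omega), hH0 (j + 1) (by rw [a3]; simp; omega)]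
        simp
      · rw [heq j hgt]
        simp
    · simp
  have hHi : H i.succ ≠ 0 := h3
  have h4 : (1 : ℝ) ≤ |(H i.succ : ℝ)| := by
    have : (1 : ℤ) ≤ |H i.succ| := Int.one_le_abs hHi
    exact_mod_cast this
  have h5 : |∑ o, (h o : ℝ) * (lf v s g' o - lf v s g o)| ≤ QQ D (k + 1) * (2 * δ) := by
    refine (abs_sum_le_sum_abs _ _).trans ?_
    have hδ : ∀ o, |(h o : ℝ) * (lf v s g' o - lf v s g o)| ≤ |(h o : ℝ)| * (2 * δ) := by
      intro o
      rw [abs_mul]
      refine mul_le_mul_of_nonneg_left ?_ (abs_nonneg _)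
      refine (abs_sub _ _).trans ?_
      linarith [hg o, hg' o]
    refine (sum_le_sum fun o _ => hδ o).trans ?_
    rw [← sum_mul]
    rcases isEmpty_or_nonempty κ with he | ⟨⟨o0⟩⟩
    · exfalso
      apply h3
      unfold dz
      simp
    have hδ0 : 0 ≤ δ := (abs_nonneg _).trans (hg o0)
    refine mul_le_mul_of_nonneg_right ?_ (by positivity)
    have h6 : (∑ o, |(h o : ℝ)|) = ((∑ o, |h o| : ℤ) : ℝ) := by push_cast; rfl
    rw [h6]
    have h7 : (∑ o, |h o| : ℤ) ≤ QQ D (k + 1) := by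
      refine h1.trans ?_
      have := QQ_mono hD (show (i.succ : ℕ) ≤ k + 1 by simp)
      exact_mod_cast this
    exact_mod_cast h7
  rw [e2, abs_mul, abs_neg] at h5
  have h6 : 0 ≤ |Real.log (g' i.castSucc) - Real.log (g i.castSucc)| := abs_nonneg _
  nlinarith

open Classical in
/-- the number of `n` for a given `s` -/
theorem card_sol {D k N : ℕ} (hD : 1 ≤ D) (hN : 1 ≤ N) (v : J → κ → ℤ) (hv : ∀ x o, |v x o| ≤ D) (δ : ℝ)
    (s : Fin (k + 1) → J) :
    ((Fintype.piFinset fun _ : Fin (k + 1) => Icc 1 N).filter fun n => ∀ o, |lf v s n o| ≤ δ).card ≤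
      N * ∏ i : Fin (k + 1), rho v (ww D k N δ) N i (ini s i i.2.le) (s i) := by
  set w := ww D k N δ with hw
  set W : Fin (k + 1) → ℕ := Fin.snoc (α := fun _ => ℕ)
    (fun i : Fin k => rho v w N i.succ (ini s i.succ i.succ.2.le) (s i.succ)) N with hW
  have h1 := card_le_prod (k + 1)
    ((Fintype.piFinset fun _ : Fin (k + 1) => Icc 1 N).filter fun n => ∀ o, |lf v s n o| ≤ δ) W ?_
  · refine h1.trans ?_
    rw [Fin.prod_univ_castSucc, Fin.prod_univ_succ]
    simp only [hW, Fin.snoc_castSucc, Fin.snoc_last]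
    have h2 : 1 ≤ rho v w N (0 : Fin (k + 1)) (ini s (0 : Fin (k + 1)) (0 : Fin (k + 1)).2.le) (s 0) := by
      unfold rho
      split_ifs
      · exact hN
      · rw [hw]; unfold ww; omega
    calc (∏ i : Fin k, rho v w N i.succ (ini s i.succ i.succ.2.le) (s i.succ)) * N
        = N * (1 * ∏ i : Fin k, rho v w N i.succ (ini s i.succ i.succ.2.le) (s i.succ)) := by ring
      _ ≤ _ := Nat.mul_le_mul_left _ (Nat.mul_le_mul_right _ h2)
  · intro i g hg T hT
    rw [mem_filter, Fintype.mem_piFinset] at hg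
    have hTN : ∀ x ∈ T, x ∈ Icc 1 N := by
      intro x hx
      obtain ⟨g', hg', _, rfl⟩ := hT x hx
      rw [mem_filter, Fintype.mem_piFinset] at hg'
      exact hg'.1 i
    have hcN : T.card ≤ N := by
      have := card_le_card (show T ⊆ Icc 1 N from hTN)
      simpa using this
    rcases Fin.eq_castSucc_or_eq_last i with ⟨i', rfl⟩ | rfl
    · have e : W i'.castSucc = rho v w N i'.succ (ini s i'.succ i'.succ.2.le) (s i'.succ) := by
        rw [hW, Fin.snoc_castSucc]
      rw [e]
      unfold rho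
      split_ifs with hnew
      · exact hcN
      · rw [hw]
        unfold ww
        have h3 := card_log N T (Real.log (g i'.castSucc)) (2 * QQ D (k + 1) * δ) ?_
        · refine h3.trans (le_of_eq ?_)
          congr 2
          ring
        · intro x hx
          refine ⟨hTN x hx, ?_⟩
          obtain ⟨g', hg', h4, rfl⟩ := hT x hx
          rw [mem_filter] at hg'
          exact key hD v hv δ s i' hnew g g' hg.2 hg'.2 h4
    · have e : W (Fin.last k) = N := by rw [hW, Fin.snoc_last]
      rw [e]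
      exact hcN

open Classical in
/-- the number of the pairs `(s, n)`, if few vectors lie in the span of few others -/
theorem card_allF {D k N F : ℕ} (hD : 1 ≤ D) (hN : 1 ≤ N) (v : J → κ → ℤ)
    (hv : ∀ x o, |v x o| ≤ D)
    (hF : ∀ i < k + 1, ∀ s : Fin i → J, (univ.filter fun x => cst (v x) ∈ PS v s).card ≤ F) (δ : ℝ) :
    ∑ s : Fin (k + 1) → J,
      ((Fintype.piFinset fun _ : Fin (k + 1) => Icc 1 N).filter fun n => ∀ o, |lf v s n o| ≤ δ).card ≤
      N * (Fintype.card J * ww D k N δ + F * N) ^ (k + 1) := by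
  refine (sum_le_sum fun s _ => card_sol hD hN v hv δ s).trans ?_
  rw [← mul_sum]
  refine Nat.mul_le_mul_left _ (sum_prefix _ _ (k + 1) ?_)
  intro i hi s
  have h1 : ∀ x, rho v (ww D k N δ) N i s x ≤ ww D k N δ + if cst (v x) ∈ PS v s then N else 0 := by
    intro x
    unfold rho
    by_cases h : cst (v x) ∈ PS v s
    · rw [if_pos h, if_pos h]; omega
    · rw [if_neg h, if_neg h]; omega
  refine (sum_le_sum fun x _ => h1 x).trans ?_
  rw [sum_add_distrib, sum_const, card_univ, smul_eq_mul, ← sum_filter, sum_const, smul_eq_mul]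
  exact Nat.add_le_add_left (Nat.mul_le_mul_right _ (hF i hi s)) _

open Classical in
/-- few vectors of a small box lie in a small subspace -/
theorem few_box {D k : ℕ} (v : J → κ → ℤ) (hinj : Function.Injective v)
    (hv : ∀ x o, |v x o| ≤ D) : ∀ i < k + 1, ∀ s : Fin i → J,
      (univ.filter fun x => cst (v x) ∈ PS v s).card ≤ (2 * D + 1) ^ (k + 1) := by
  intro i hi s
  refine (few v hinj hv (PS v s) i ?_ _ fun x hx => (mem_filter.1 hx).2).trans
    (Nat.pow_le_pow_right (by omega) hi.le)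
  have h := finrank_range_le_card (R := ℚ) (fun j : Fin i => cst (v (s j)))
  rw [Fintype.card_fin] at h
  exact h

end Pool.Agent.Helper68K9.SG
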