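import Pool.Agent.Helper68K9.SG.Sol

/-!
Traces of powers of a matrix, and the operator norm.
-/

set_option autoImplicit false

namespace Pool.Agent.Helper68K9.SG

open Finset Matrix

section walk

variable {R J : Type} [CommRing R] [Fintype J] [DecidableEq J]

theorem pow_path (M : Matrix J J R) : ∀ (k : ℕ) (x y : J),
    (M ^ (k + 1)) x y = ∑ s : Fin (k + 1) → J, (if s 0 = x then (1 : R) else 0) *
      ((∏ i : Fin k, M (s i.castSucc) (s i.succ)) * M (s (Fin.last k)) y) := by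
  intro k
  induction k with
  | zero =>
    intro x y
    rw [← Equiv.sum_comp (Equiv.funUnique (Fin 1) J).symm]
    simp
  | succ k ih =>
    intro x y
    rw [pow_succ, Matrix.mul_apply, ← Equiv.sum_comp (Fin.snocEquiv fun _ : Fin (k + 2) => J),
      Fintype.sum_prod_type]
    refine sum_congr rfl fun z _ => ?_
    rw [ih x z, sum_mul]
    refine sum_congr rfl fun s _ => ?_
    have e1 : ∀ i : Fin (k + 1), Fin.snocEquiv (fun _ : Fin (k + 2) => J) (z, s) i.castSucc = s i := by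
      intro i
      show Fin.snoc (α := fun _ => J) s z i.castSucc = s i
      rw [Fin.snoc_castSucc]
    have e2 : Fin.snocEquiv (fun _ : Fin (k + 2) => J) (z, s) (Fin.last (k + 1)) = z := by
      show Fin.snoc (α := fun _ => J) s z (Fin.last (k + 1)) = z
      rw [Fin.snoc_last]
    rw [Fin.prod_univ_castSucc]
    have e3 : (0 : Fin (k + 2)) = (0 : Fin (k + 1)).castSucc := rfl
    have e4 : (Fin.last k).succ = Fin.last (k + 1) := rfl
    rw [e3, e1, e2, e1, e4, e2]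
    have e5 : ∀ i : Fin k, M (Fin.snocEquiv (fun _ : Fin (k + 2) => J) (z, s) i.castSucc.castSucc)
        (Fin.snocEquiv (fun _ : Fin (k + 2) => J) (z, s) i.castSucc.succ) =
        M (s i.castSucc) (s i.succ) := by
      intro i
      have e6 : (i.castSucc.succ : Fin (k + 2)) = i.succ.castSucc := rfl
      rw [e1, e6, e1]
    rw [prod_congr rfl fun i _ => e5 i]
    ring

/-- the trace of a power is a sum over closed walks -/
theorem trace_walk (M : Matrix J J R) (k : ℕ) :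
    (M ^ (k + 1)).trace = ∑ s : Fin (k + 1) → J, ∏ i, M (s i) (s (i + 1)) := by
  unfold Matrix.trace
  simp only [Matrix.diag_apply, pow_path]
  rw [sum_comm]
  refine sum_congr rfl fun s _ => ?_
  rw [Fin.prod_univ_castSucc]
  have e : ∀ i : Fin k, M (s i.castSucc) (s (i.castSucc + 1)) = M (s i.castSucc) (s i.succ) := by
    intro i
    rw [Fin.coeSucc_eq_succ]
  rw [prod_congr rfl fun i _ => e i, Fin.last_add_one]
  simp

end walk

section norm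

variable {J : Type} [Fintype J]

/-- the squared norm of a vector -/
noncomputable def nq (x : J → ℂ) : ℝ := ∑ j, ‖x j‖ ^ 2

theorem nq_nonneg (x : J → ℂ) : 0 ≤ nq x := sum_nonneg fun _ _ => by positivity

theorem csq {ι : Type} (S : Finset ι) (u v : ι → ℂ) :
    ‖∑ i ∈ S, u i * v i‖ ^ 2 ≤ (∑ i ∈ S, ‖u i‖ ^ 2) * ∑ i ∈ S, ‖v i‖ ^ 2 := by
  have h1 : ‖∑ i ∈ S, u i * v i‖ ≤ ∑ i ∈ S, ‖u i‖ * ‖v i‖ := by
    refine (norm_sum_le _ _).trans (le_of_eq (sum_congr rfl fun i _ => norm_mul _ _))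
  calc ‖∑ i ∈ S, u i * v i‖ ^ 2 ≤ (∑ i ∈ S, ‖u i‖ * ‖v i‖) ^ 2 := pow_le_pow_left₀ (norm_nonneg _) h1 2
    _ ≤ _ := sum_mul_sq_le_sq_mul_sq _ _ _

theorem nq_eq (x : J → ℂ) : star x ⬝ᵥ x = (nq x : ℂ) := by
  unfold nq dotProduct
  push_cast
  refine sum_congr rfl fun j _ => ?_
  rw [Pi.star_apply, RCLike.star_def, Complex.conj_mul']

variable [DecidableEq J]

/-- `M` Hermitian: `⟨x, M ^ (2 q) x⟩ = |M ^ q x| ^ 2` -/
theorem form_sq {M : Matrix J J ℂ} (hM : M.IsHermitian) (q : ℕ) (x : J → ℂ) :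
    star x ⬝ᵥ ((M ^ (2 * q)) *ᵥ x) = (nq ((M ^ q) *ᵥ x) : ℂ) := by
  rw [← nq_eq, Matrix.star_mulVec, ← Matrix.dotProduct_mulVec, Matrix.mulVec_mulVec,
    (hM.pow q).eq, ← pow_add, two_mul]

theorem form_cs {M : Matrix J J ℂ} (hM : M.IsHermitian) (q : ℕ) (x : J → ℂ) :
    ‖star x ⬝ᵥ ((M ^ q) *ᵥ x)‖ ^ 2 ≤ nq x * ‖star x ⬝ᵥ ((M ^ (2 * q)) *ᵥ x)‖ := by
  rw [form_sq hM, Complex.norm_real, Real.norm_of_nonneg (nq_nonneg _)]
  have h := csq univ (star x) ((M ^ q) *ᵥ x)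
  have e : (∑ i, ‖star x i‖ ^ 2) = nq x := by
    unfold nq
    refine sum_congr rfl fun i _ => by rw [Pi.star_apply, norm_star]
  rw [e] at h
  exact h

theorem form_pow {M : Matrix J J ℂ} (hM : M.IsHermitian) (x : J → ℂ) : ∀ a : ℕ,
    ‖star x ⬝ᵥ (M *ᵥ x)‖ ^ (2 ^ a) ≤ nq x ^ (2 ^ a - 1) * ‖star x ⬝ᵥ ((M ^ (2 ^ a)) *ᵥ x)‖ := by
  intro a
  induction a with
  | zero => simp
  | succ a ih =>
    have h1 := form_cs hM (2 ^ a) x
    have h2 : 1 ≤ 2 ^ a := Nat.one_le_two_pow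
    have e1 : 2 ^ (a + 1) - 1 = (2 ^ a - 1) * 2 + 1 := by rw [pow_succ]; omega
    calc ‖star x ⬝ᵥ (M *ᵥ x)‖ ^ (2 ^ (a + 1)) = (‖star x ⬝ᵥ (M *ᵥ x)‖ ^ (2 ^ a)) ^ 2 := by
          rw [← pow_mul, pow_succ 2 a]
      _ ≤ (nq x ^ (2 ^ a - 1) * ‖star x ⬝ᵥ ((M ^ (2 ^ a)) *ᵥ x)‖) ^ 2 :=
          pow_le_pow_left₀ (by positivity) ih 2
      _ = nq x ^ ((2 ^ a - 1) * 2) * ‖star x ⬝ᵥ ((M ^ (2 ^ a)) *ᵥ x)‖ ^ 2 := by ring
      _ ≤ nq x ^ ((2 ^ a - 1) * 2) * (nq x * ‖star x ⬝ᵥ ((M ^ (2 * 2 ^ a)) *ᵥ x)‖) :=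
          mul_le_mul_of_nonneg_left h1 (pow_nonneg (nq_nonneg x) _)
      _ = _ := by
          rw [e1, pow_succ (nq x), pow_succ 2 a, mul_comm (2 ^ a) 2]
          ring

/-- the squared Frobenius norm -/
noncomputable def fro (M : Matrix J J ℂ) : ℝ := ∑ x, ∑ y, ‖M x y‖ ^ 2

omit [DecidableEq J] in
theorem fro_nonneg (M : Matrix J J ℂ) : 0 ≤ fro M := sum_nonneg fun _ _ => sum_nonneg fun _ _ => by positivity

omit [DecidableEq J] in
theorem nq_mulVec (M : Matrix J J ℂ) (x : J → ℂ) : nq (M *ᵥ x) ≤ fro M * nq x := by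
  unfold fro
  rw [sum_mul]
  unfold nq
  exact sum_le_sum fun j _ => csq univ (M j) x

theorem trace_fro {M : Matrix J J ℂ} (hM : M.IsHermitian) (q : ℕ) :
    (M ^ (2 * q)).trace = (fro (M ^ q) : ℂ) := by
  rw [two_mul, pow_add]
  unfold Matrix.trace fro
  push_cast
  refine sum_congr rfl fun x _ => ?_
  rw [Matrix.diag_apply, Matrix.mul_apply]
  refine sum_congr rfl fun y _ => ?_
  have h := (hM.pow q).apply y x
  rw [← h, RCLike.star_def, Complex.mul_conj']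

/-- the quadratic form is bounded by the trace of a power -/
theorem form_le {M : Matrix J J ℂ} (hM : M.IsHermitian) (a : ℕ) (Y : ℝ) (hY : 0 ≤ Y)
    (hT : fro (M ^ (2 ^ a)) ≤ Y ^ (2 ^ (a + 1))) (x : J → ℂ) :
    ‖star x ⬝ᵥ (M *ᵥ x)‖ ≤ Y * nq x := by
  have h1 := form_pow hM x (a + 1)
  have e : 2 ^ (a + 1) = 2 * 2 ^ a := by rw [pow_succ]; ring
  rw [show (M ^ (2 ^ (a + 1))) = M ^ (2 * 2 ^ a) by rw [e], form_sq hM, Complex.norm_real,
    Real.norm_of_nonneg (nq_nonneg _)] at h1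
  have h2 := nq_mulVec (M ^ (2 ^ a)) x
  have h3 : ‖star x ⬝ᵥ (M *ᵥ x)‖ ^ (2 ^ (a + 1)) ≤ (Y * nq x) ^ (2 ^ (a + 1)) := by
    calc ‖star x ⬝ᵥ (M *ᵥ x)‖ ^ (2 ^ (a + 1)) ≤ nq x ^ (2 ^ (a + 1) - 1) * nq ((M ^ (2 ^ a)) *ᵥ x) := h1
      _ ≤ nq x ^ (2 ^ (a + 1) - 1) * (Y ^ (2 ^ (a + 1)) * nq x) :=
          mul_le_mul_of_nonneg_left (h2.trans (mul_le_mul_of_nonneg_right hT (nq_nonneg x)))
            (pow_nonneg (nq_nonneg x) _)
      _ = (Y * nq x) ^ (2 ^ (a + 1)) := by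
          have h4 : 2 ^ (a + 1) - 1 + 1 = 2 ^ (a + 1) := Nat.sub_add_cancel Nat.one_le_two_pow
          rw [mul_pow, ← h4, Nat.add_sub_cancel, pow_succ (nq x)]
          ring
  exact le_of_pow_le_pow_left₀ (pow_pos two_pos _).ne' (mul_nonneg hY (nq_nonneg x)) h3

/-- duality: the mean value estimate for the matrix `A` from the bound for `A A^*` -/
theorem mean_of_form {K : Type} (S : Finset K) (φ : J → K → ℂ) (Y : ℝ) (hY : 0 ≤ Y) (M : Matrix J J ℂ)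
    (hMd : ∀ x y, M x y = ∑ n ∈ S, φ x n * (starRingEnd ℂ) (φ y n))
    (hM : ∀ x : J → ℂ, ‖star x ⬝ᵥ (M *ᵥ x)‖ ≤ Y * nq x) (a : K → ℂ) :
    ∑ j, ‖∑ n ∈ S, a n * φ j n‖ ^ 2 ≤ Y * ∑ n ∈ S, ‖a n‖ ^ 2 := by
  set x : J → ℂ := fun j => ∑ n ∈ S, a n * φ j n with hx
  set b : K → ℂ := fun n => ∑ j, star x j * φ j n with hb
  have e1 : ((nq x : ℝ) : ℂ) = ∑ n ∈ S, a n * b n := by
    rw [← nq_eq]
    unfold dotProduct
    simp only [hb, mul_sum]
    rw [sum_comm]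
    refine sum_congr rfl fun j _ => ?_
    rw [hx, mul_sum]
    exact sum_congr rfl fun n _ => by ring
  have e2 : ((∑ n ∈ S, ‖b n‖ ^ 2 : ℝ) : ℂ) = star x ⬝ᵥ (M *ᵥ x) := by
    push_cast
    have e3 : ∀ n ∈ S, ((‖b n‖ : ℂ)) ^ 2 = ∑ j, ∑ j', star x j * (φ j n * (starRingEnd ℂ) (φ j' n)) * x j' := by
      intro n _
      rw [← Complex.mul_conj', hb]
      simp only [map_sum, map_mul, sum_mul_sum]
      refine sum_congr rfl fun j _ => sum_congr rfl fun j' _ => ?_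
      rw [Pi.star_apply, Pi.star_apply, RCLike.star_def, Complex.conj_conj]
      ring
    rw [sum_congr rfl e3]
    unfold dotProduct Matrix.mulVec dotProduct
    simp only [hMd, mul_sum, sum_mul]
    rw [sum_comm]
    refine sum_congr rfl fun j _ => ?_
    rw [sum_comm]
    refine sum_congr rfl fun j' _ => sum_congr rfl fun n _ => by ring
  have h1 := csq S a b
  rw [← e1, Complex.norm_real, Real.norm_of_nonneg (nq_nonneg x)] at h1
  have h2 := hM x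
  rw [← e2, Complex.norm_real, Real.norm_of_nonneg (sum_nonneg fun _ _ => by positivity)] at h2
  have h3 : 0 ≤ ∑ n ∈ S, ‖a n‖ ^ 2 := sum_nonneg fun _ _ => by positivity
  have h4 : nq x ^ 2 ≤ (∑ n ∈ S, ‖a n‖ ^ 2) * (Y * nq x) := h1.trans (mul_le_mul_of_nonneg_left h2 h3)
  show nq x ≤ Y * ∑ n ∈ S, ‖a n‖ ^ 2
  rcases (nq_nonneg x).eq_or_lt with h0 | h0
  · rw [← h0]
    exact mul_nonneg hY h3
  · have h5 : nq x * nq x ≤ (Y * ∑ n ∈ S, ‖a n‖ ^ 2) * nq x := by nlinarith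
    exact le_of_mul_le_mul_right h5 h0

end norm

end Pool.Agent.Helper68K9.SG
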